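import Pool.Agent.Helper12_XQ.Stmt

/-!
Squad XQ (MP_5b0138_an), modules U_LEADB and U_LEADA: exact orders of Laplace type integrals.
-/

set_option autoImplicit false

namespace Pool.Agent.XQ.U.H53

open MeasureTheory Filter Topology Real Set Pool.Agent.AEU Pool.Agent.AEU.H12 Pool.Agent.XQ

/-- an even function which is analytic at zero and not zero near zero has an even order -/
lemma even_order {g : ℝ → ℝ} (hg : AnalyticAt ℝ g 0) (he : ∀ v, g (-v) = g v)
    (hne : ¬ ∀ᶠ v in 𝓝 0, g v = 0) :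
    ∃ (j : ℕ) (h : ℝ → ℝ), AnalyticAt ℝ h 0 ∧ h 0 ≠ 0 ∧ ∀ᶠ v in 𝓝 0, g v = v ^ (2 * j) * h v := by
  obtain ⟨n, h, hh, h0, hev⟩ := hg.exists_eventuallyEq_pow_smul_nonzero_iff.mpr hne
  have hev' : ∀ᶠ v in 𝓝 (0 : ℝ), g v = v ^ n * h v := by
    filter_upwards [hev] with v hv
    rw [hv, sub_zero, smul_eq_mul]
  have hn : Even n := by
    by_contra hodd
    rw [Nat.not_even_iff_odd] at hodd
    have hneg : Tendsto (fun v : ℝ => -v) (𝓝 0) (𝓝 0) := by
      have := (continuous_neg (G := ℝ)).tendsto 0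
      rwa [neg_zero] at this
    have h1 : ∀ᶠ v in 𝓝 (0 : ℝ), g (-v) = (-v) ^ n * h (-v) := hneg.eventually hev'
    have h2 : ∀ᶠ v in 𝓝[≠] (0 : ℝ), -h (-v) = h v := by
      have h3 := (hev'.and h1).filter_mono (nhdsWithin_le_nhds (s := {0}ᶜ))
      filter_upwards [h3, self_mem_nhdsWithin] with v hv hv0
      have hv0' : v ^ n ≠ 0 := pow_ne_zero n hv0
      have e := hv.2
      rw [he v, hv.1, hodd.neg_pow] at e
      have : v ^ n * (h v + h (-v)) = 0 := by linarith
      rcases mul_eq_zero.mp this with h5 | h5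
      · exact absurd h5 hv0'
      · linarith
    have hc : Tendsto h (𝓝[≠] 0) (𝓝 (h 0)) := hh.continuousAt.tendsto.mono_left nhdsWithin_le_nhds
    have hc2 : Tendsto (fun v => -h (-v)) (𝓝[≠] 0) (𝓝 (-h 0)) := by
      have h6 : Tendsto (fun v => h (-v)) (𝓝 0) (𝓝 (h 0)) := hh.continuousAt.tendsto.comp hneg
      exact (h6.mono_left nhdsWithin_le_nhds).neg
    have := tendsto_nhds_unique (hc2.congr' h2) hc
    apply h0
    linarith
  obtain ⟨j, hj⟩ := hn
  refine ⟨j, h, hh, h0, ?_⟩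
  rw [show 2 * j = n by omega]
  exact hev'

/-- a function bounded on `S` which vanishes to the order `n` at `a` -/
lemma bound_pow {g h : ℝ → ℝ} {M a : ℝ} {n : ℕ} {S : Set ℝ} (hM0 : 0 ≤ M) (hh : ContinuousAt h a)
    (hM : ∀ v ∈ S, |g v| ≤ M)
    (hev : ∀ᶠ v in 𝓝 a, g v = (v - a) ^ n * h v) :
    ∃ M' : ℝ, 0 ≤ M' ∧ ∀ v ∈ S, |g v| ≤ M' * |v - a| ^ n := by
  have hb : ∀ᶠ v in 𝓝 a, |h v| < |h a| + 1 :=
    hh.abs.tendsto.eventually (gt_mem_nhds (by linarith))
  obtain ⟨ε, hε, hball⟩ := Metric.eventually_nhds_iff.mp (hb.and hev)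
  refine ⟨max (|h a| + 1) (M / ε ^ n), ?_, fun v hv0 => ?_⟩
  · exact le_trans (by positivity) (le_max_left _ _)
  have hvp : 0 ≤ |v - a| ^ n := by positivity
  by_cases hv : |v - a| < ε
  · have hv' := hball (y := v) (by rwa [Real.dist_eq])
    rw [hv'.2, abs_mul, abs_pow, mul_comm]
    exact mul_le_mul_of_nonneg_right (hv'.1.le.trans (le_max_left _ _)) hvp
  · rw [not_lt] at hv
    have h1 : ε ^ n ≤ |v - a| ^ n := by gcongr
    calc |g v| ≤ M := hM v hv0
      _ = M / ε ^ n * ε ^ n := by field_simp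
      _ ≤ M / ε ^ n * |v - a| ^ n := by gcongr
      _ ≤ _ := mul_le_mul_of_nonneg_right (le_max_right _ _) hvp

/-- leading term of `∫ exp(-2 κ d cosh v) g(v) dv` -/
lemma order_cosh {g : ℝ → ℝ} {M d : ℝ} (hd : 0 < d) (hg : AnalyticAt ℝ g 0)
    (hm : Measurable g) (he : ∀ v, g (-v) = g v) (hM : ∀ v, |g v| ≤ M)
    (hne : ¬ ∀ᶠ v in 𝓝 0, g v = 0) :
    ∃ (j : ℕ) (c : ℝ), c ≠ 0 ∧ Tendsto (fun κ : ℝ => (∫ v, rexp (-(2 * κ * d * cosh v)) * g v) *
      (rexp (2 * d * κ) * κ ^ ((j : ℝ) + 1 / 2))) atTop (𝓝 c) := by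
  obtain ⟨j, h, hh, h0, hev⟩ := even_order hg he hne
  obtain ⟨M', -, hM'⟩ := bound_pow (a := 0) (S := univ) ((abs_nonneg _).trans (hM 0))
    hh.continuousAt (fun v _ => hM v) (by simpa using hev)
  refine ⟨j, h 0 * II j * (2 * d) ^ (-((j : ℝ) + 1 / 2)), ?_,
    lead1D (M := M') (c := h 0) j hd hm ?_ ?_⟩
  · have h1 := (II_pos j).ne'
    have h2 : (2 * d) ^ (-((j : ℝ) + 1 / 2)) ≠ 0 := (Real.rpow_pos_of_pos (by positivity) _).ne'
    exact mul_ne_zero (mul_ne_zero h0 h1) h2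
  · intro x
    have := hM' x (mem_univ x)
    rwa [sub_zero, (even_two_mul j).pow_abs] at this
  · intro x
    have hto : Tendsto (fun s : ℝ => s * x) (𝓝[>] 0) (𝓝 0) := by
      have : Tendsto (fun s : ℝ => s * x) (𝓝 0) (𝓝 ((0 : ℝ) * x)) :=
        (continuous_id.mul continuous_const).tendsto 0
      rw [zero_mul] at this
      exact this.mono_left nhdsWithin_le_nhds
    have h1 : Tendsto (fun s : ℝ => h (s * x) * x ^ (2 * j)) (𝓝[>] 0) (𝓝 (h 0 * x ^ (2 * j))) :=
      (hh.continuousAt.tendsto.comp hto).mul_const _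
    refine h1.congr' ?_
    filter_upwards [hto.eventually hev, self_mem_nhdsWithin] with s hs hs0
    rw [hs, mul_pow]
    have : s ^ (2 * j) ≠ 0 := pow_ne_zero _ (Set.mem_Ioi.mp hs0).ne'
    field_simp

/-- LEADB -/
theorem leadB : LeadBStmt := by
  intro L f hL hf he ⟨M, hM⟩
  by_cases hne : ∀ᶠ v in 𝓝 (0 : ℝ), f v = 0
  · left
    have := hf.eqOn_zero_of_preconnected_of_eventuallyEq_zero isPreconnected_univ (mem_univ 0) hne
    ext v
    exact this (mem_univ v)
  · right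
    obtain ⟨j, c, hc, h⟩ := order_cosh (d := L / 2) (by positivity) (hf 0 (mem_univ 0))
      (continuousOn_univ.mp hf.continuousOn).measurable he hM hne
    refine ⟨j, c, hc, ?_⟩
    unfold Lead
    refine h.congr fun κ => ?_
    congr 2
    · ext v
      congr 3
      ring
    · congr 2
      ring
    · rw [add_comm]

/-- leading term of `∫ exp(-κ L s) D(s) ds` -/
lemma order_exp {D h : ℝ → ℝ} {M L : ℝ} {m : ℕ} (hL : 0 < L) (hm : Measurable D) (hM0 : 0 ≤ M)
    (hM : ∀ s, 1 < s → |D s| ≤ M) (hh : ContinuousAt h 1)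
    (hev : ∀ᶠ s in 𝓝 1, D s = (s - 1) ^ m * h s) :
    Tendsto (fun κ : ℝ => (∫ s in Ioi (1 : ℝ), rexp (-(κ * L * s)) * D s) *
      (rexp (L * κ) * κ ^ (m + 1))) atTop
      (𝓝 (h 1 * ∫ u in Ioi (0 : ℝ), rexp (-(L * u)) * u ^ m)) := by
  obtain ⟨M', hM'0, hM'⟩ := bound_pow (a := 1) (S := Ioi 1) hM0 hh (fun s hs => hM s hs) hev
  have e1 : ∀ κ : ℝ, 0 < κ → (∫ s in Ioi (1 : ℝ), rexp (-(κ * L * s)) * D s) *
      (rexp (L * κ) * κ ^ (m + 1))
      = ∫ u in Ioi (0 : ℝ), rexp (-(L * u)) * (κ ^ m * D (u / κ + 1)) := by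
    intro κ hκ
    have h1 : ∫ s in Ioi (1 : ℝ), rexp (-(κ * L * s)) * D s
        = ∫ t in Ioi (0 : ℝ), rexp (-(κ * L * (t + 1))) * D (t + 1) := by
      have := (measurePreserving_add_right volume (1 : ℝ)).setIntegral_preimage_emb
        (measurableEmbedding_addRight 1) (fun s => rexp (-(κ * L * s)) * D s) (Ioi 1)
      rw [← this]
      congr 2
      ext x
      simp
    have h2 : ∫ t in Ioi (0 : ℝ), rexp (-(κ * L * (t + 1))) * D (t + 1)
        = κ⁻¹ * ∫ u in Ioi (0 : ℝ), rexp (-(κ * L * (κ⁻¹ * u + 1))) * D (κ⁻¹ * u + 1) := by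
      have := integral_comp_mul_left_Ioi
        (fun t => rexp (-(κ * L * (t + 1))) * D (t + 1)) 0 (inv_pos.mpr hκ)
      rw [mul_zero, inv_inv, smul_eq_mul] at this
      rw [this, ← mul_assoc, inv_mul_cancel₀ hκ.ne', one_mul]
    rw [h1, h2, ← integral_const_mul, ← integral_mul_const]
    congr 1
    ext u
    have h3 : κ⁻¹ * u + 1 = u / κ + 1 := by field_simp
    have h4 : rexp (-(κ * L * (κ⁻¹ * u + 1))) * rexp (L * κ) = rexp (-(L * u)) := by
      rw [← Real.exp_add]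
      congr 1
      field_simp
      ring
    rw [← h4, h3, pow_succ]
    field_simp
  have e2 : (fun κ : ℝ => (∫ s in Ioi (1 : ℝ), rexp (-(κ * L * s)) * D s) *
      (rexp (L * κ) * κ ^ (m + 1))) =ᶠ[atTop]
      fun κ => ∫ u in Ioi (0 : ℝ), rexp (-(L * u)) * (κ ^ m * D (u / κ + 1)) := by
    filter_upwards [eventually_gt_atTop 0] with κ hκ using e1 κ hκ
  rw [tendsto_congr' e2, ← integral_const_mul]
  -- bound
  set N : ℝ := m.factorial * (2 / L) ^ m with hN
  have hNp : 0 ≤ N := by positivity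
  have hpow : ∀ u : ℝ, 0 ≤ u → u ^ m ≤ N * rexp (L / 2 * u) := by
    intro u hu
    have h2 := Real.pow_div_factorial_le_exp (L / 2 * u) (by positivity) m
    have h3 : u ^ m = N * ((L / 2 * u) ^ m / m.factorial) := by
      rw [hN, mul_pow, div_pow, div_pow]
      field_simp
    rw [h3]
    gcongr
  have hint : IntegrableOn (fun u : ℝ => M' * N * rexp (-(L / 2) * u)) (Ioi 0) :=
    (integrableOn_exp_mul_Ioi (by linarith) 0).const_mul _
  refine tendsto_integral_filter_of_dominated_convergence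
    (fun u : ℝ => M' * N * rexp (-(L / 2) * u)) ?_ ?_ hint ?_
  · refine Eventually.of_forall fun κ => ?_
    refine Measurable.aestronglyMeasurable ?_
    refine Measurable.mul (by fun_prop) ?_
    exact (hm.comp (by fun_prop)).const_mul _
  · filter_upwards [eventually_gt_atTop 0] with κ hκ
    rw [ae_restrict_iff' measurableSet_Ioi]
    refine Eventually.of_forall fun u hu => ?_
    have hu' : (0 : ℝ) < u := hu
    have h1 := hM' (u / κ + 1) (by rw [mem_Ioi]; have : 0 < u / κ := by positivity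
                                   linarith)
    rw [add_sub_cancel_right, abs_of_pos (by positivity : (0 : ℝ) < u / κ)] at h1
    have h2 : κ ^ m * (u / κ) ^ m = u ^ m := by
      rw [← mul_pow]
      congr 1
      field_simp
    rw [norm_mul, Real.norm_eq_abs, Real.norm_eq_abs, abs_of_pos (exp_pos _), abs_mul,
      abs_of_pos (by positivity : (0 : ℝ) < κ ^ m)]
    calc rexp (-(L * u)) * (κ ^ m * |D (u / κ + 1)|)
        ≤ rexp (-(L * u)) * (κ ^ m * (M' * (u / κ) ^ m)) := by gcongr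
      _ = rexp (-(L * u)) * (M' * u ^ m) := by rw [← h2]; ring
      _ ≤ rexp (-(L * u)) * (M' * (N * rexp (L / 2 * u))) :=
          mul_le_mul_of_nonneg_left (mul_le_mul_of_nonneg_left (hpow u hu'.le) hM'0)
            (exp_pos _).le
      _ = M' * N * (rexp (-(L * u)) * rexp (L / 2 * u)) := by ring
      _ = M' * N * rexp (-(L / 2) * u) := by
          rw [← Real.exp_add]
          congr 2
          ring
  · rw [ae_restrict_iff' measurableSet_Ioi]
    refine Eventually.of_forall fun u hu => ?_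
    have hu' : (0 : ℝ) < u := hu
    have hz : Tendsto (fun κ : ℝ => u / κ + 1) atTop (𝓝 1) := by
      have h1 : Tendsto (fun κ : ℝ => u / κ) atTop (𝓝 0) := tendsto_const_nhds.div_atTop tendsto_id
      have h2 := h1.add_const 1
      rwa [zero_add] at h2
    have h1 : Tendsto (fun κ : ℝ => rexp (-(L * u)) * (u ^ m * h (u / κ + 1))) atTop
        (𝓝 (rexp (-(L * u)) * (u ^ m * h 1))) :=
      ((hh.tendsto.comp hz).const_mul _).const_mul _
    have e3 : h 1 * (rexp (-(L * u)) * u ^ m) = rexp (-(L * u)) * (u ^ m * h 1) := by ring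
    rw [e3]
    refine h1.congr' ?_
    filter_upwards [hz.eventually hev, eventually_gt_atTop 0] with κ hκ hκ0
    rw [hκ, add_sub_cancel_right, ← mul_assoc (κ ^ m), ← mul_pow]
    congr 3
    field_simp

lemma order_exp_pos {L : ℝ} (hL : 0 < L) (m : ℕ) :
    0 < ∫ u in Ioi (0 : ℝ), rexp (-(L * u)) * u ^ m := by
  have h := Real.integral_rpow_mul_exp_neg_mul_Ioi (a := (m : ℝ) + 1) (r := L) (by positivity) hL
  have e : ∫ u in Ioi (0 : ℝ), rexp (-(L * u)) * u ^ m
      = ∫ t in Ioi (0 : ℝ), t ^ (((m : ℝ) + 1) - 1) * rexp (-(L * t)) := by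
    refine setIntegral_congr_fun measurableSet_Ioi fun t ht => ?_
    simp only [add_sub_cancel_right, Real.rpow_natCast]
    ring
  rw [e, h]
  have := Real.Gamma_pos_of_pos (s := (m : ℝ) + 1) (by positivity)
  positivity

/-- LEADA -/
theorem leadA : LeadAStmt := by
  intro L M D hL hD hm hM
  by_cases hne : ∀ᶠ s in 𝓝 (1 : ℝ), D s = 0
  · exact Or.inl hne
  · right
    obtain ⟨m, h, hh, h0, hev⟩ := hD.exists_eventuallyEq_pow_smul_nonzero_iff.mpr hne
    have hM0 : 0 ≤ M := (abs_nonneg _).trans (hM 2 (by norm_num))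
    have key := order_exp (m := m) hL hm hM0 hM hh.continuousAt
      (by filter_upwards [hev] with s hs; rw [hs, smul_eq_mul])
    refine ⟨m, _, mul_ne_zero h0 (order_exp_pos hL m).ne', ?_⟩
    unfold Lead
    refine key.congr' ?_
    filter_upwards [eventually_gt_atTop 0] with κ hκ
    congr 2
    rw [← Real.rpow_natCast]
    push_cast
    rfl

end Pool.Agent.XQ.U.H53
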