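import Pool.Agent.Helper16_XQ.StmtG
import Pool.Agent.Helper55_AEU.Ver
import Pool.Agent.Helper69_AEU.Tools

/-!
Squad XQ (MP_5b0138_an), Part G, module VXX: vertices of an arbitrary convex polygon.
-/

set_option autoImplicit false

namespace Pool.Agent.XQ

open MeasureTheory Complex Filter Topology Pool.Agent.H62T
open Pool.Agent.H16F (Sublin)
open Pool.Agent.AEU

namespace H53

open Pool.Agent.AEU.H55 (ip_add ip_sub ip_smul sq_ip_add_sq_dt eq_of_ip ip_vx dep isCompact_Cl)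

/-- parallel unit vectors -/
theorem eq_or_eq_neg_of_dt {s t : ℂ} (hs : ‖s‖ = 1) (ht : ‖t‖ = 1) (h : dt s t = 0) :
    t = s ∨ t = -s := by
  have h1 := sq_ip_add_sq_dt s t
  rw [h, hs, ht] at h1
  have h2 : (ip s t - 1) * (ip s t + 1) = 0 := by linarith
  have hs' : s.re * s.re + s.im * s.im = 1 := by
    rw [← normSq_apply, normSq_eq_norm_sq, hs]; norm_num
  have h' : s.re * t.im - s.im * t.re = 0 := by simpa [dt] using h
  have e1 : t.re = ip s t * s.re := by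
    simp only [ip]
    linear_combination (-t.re) * hs' - s.im * h'
  have e2 : t.im = ip s t * s.im := by
    simp only [ip]
    linear_combination (-t.im) * hs' + s.re * h'
  rcases mul_eq_zero.1 h2 with h3 | h3
  · left
    have h4 : ip s t = 1 := by linarith
    rw [h4] at e1 e2
    apply Complex.ext <;> linarith
  · right
    have h4 : ip s t = -1 := by linarith
    rw [h4] at e1 e2
    apply Complex.ext
    · rw [neg_re]; linarith
    · rw [neg_im]; linarith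

theorem ip_neg_left (z x : ℂ) : ip (-z) x = -ip z x := by
  simp only [ip, neg_re, neg_im]; ring

theorem opp_of_dt {P : Finset HP} (hP : Pg P) {s t : HP} (hs : s ∈ P) (ht : t ∈ P) (hne : s ≠ t)
    (h : dt s.1 t.1 = 0) : t.1 = -s.1 := by
  rcases eq_or_eq_neg_of_dt (hP.unit s hs) (hP.unit t ht) h with h1 | h1
  · exfalso
    obtain ⟨x, hx, hx'⟩ := hP.side t ht
    obtain ⟨y, hy, hy'⟩ := hP.side s hs
    have a1 := hx' s hs hne
    have a2 := hy' t ht hne.symm
    rw [h1] at hx a2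
    linarith
  · exact h1

/-- sides at a common point are not parallel -/
theorem dt_ne_of_pt {P : Finset HP} (hP : Pg P) {s t : HP} (hs : s ∈ P) (ht : t ∈ P) (hne : s ≠ t)
    {v : ℂ} (h1 : ip s.1 v = s.2) (h2 : ip t.1 v = t.2) : dt s.1 t.1 ≠ 0 := by
  intro h
  have h3 := opp_of_dt hP hs ht hne h
  obtain ⟨x, hx, hx'⟩ := hP.side t ht
  have a1 := hx' s hs hne
  rw [h3, ip_neg_left] at h2 hx
  linarith

theorem two_sides {P : Finset HP} (hP : Pg P) {s t r : HP} {v : ℂ} (hs : s ∈ P)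
    (ht : t ∈ P) (hr : r ∈ P) (hst : s ≠ t) (hsr : s ≠ r) (htr : t ≠ r) (h1 : ip s.1 v = s.2)
    (h2 : ip t.1 v = t.2) (h3 : ip r.1 v = r.2) : False := by
  have key : ∀ a b c : HP, a ∈ P → b ∈ P → c ∈ P → a ≠ b → a ≠ c → b ≠ c → ip a.1 v = a.2 →
      ip b.1 v = b.2 → ip c.1 v = c.2 → dt c.1 a.1 * dt a.1 b.1 < 0 := by
    intro a b c ha hb hc hab hac hbc e1 e2 e3
    obtain ⟨x, hx, hx'⟩ := hP.side a ha
    have d := dep a.1 b.1 c.1 (x - v)
    have f1 : ip a.1 (x - v) = 0 := by rw [ip_sub]; linarith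
    have f2 : ip b.1 (x - v) < 0 := by rw [ip_sub]; linarith [hx' b hb hab.symm]
    have f3 : ip c.1 (x - v) < 0 := by rw [ip_sub]; linarith [hx' c hc hac.symm]
    rw [f1, mul_zero, zero_add] at d
    have n1 := dt_ne_of_pt hP hc ha hac.symm e3 e1
    have n2 := dt_ne_of_pt hP ha hb hab e1 e2
    set B := dt c.1 a.1
    set C := dt a.1 b.1
    set p := ip b.1 (x - v)
    set q := ip c.1 (x - v)
    have e : B * C * q = -(B ^ 2 * p) := by linear_combination B * d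
    have hpos : 0 < -(B ^ 2 * p) := by
      have : 0 < B ^ 2 := by positivity
      nlinarith
    rw [← e] at hpos
    by_contra hcon
    push Not at hcon
    nlinarith
  have a1 := key s t r hs ht hr hst hsr htr h1 h2 h3
  have a2 := key t r s ht hr hs htr hst.symm hsr.symm h2 h3 h1
  have a3 := key r s t hr hs ht hsr.symm htr.symm hst h3 h1 h2
  have b1 : 0 < (dt r.1 s.1 * dt s.1 t.1) * (dt s.1 t.1 * dt t.1 r.1) := mul_pos_of_neg_of_neg a1 a2
  have b2 : (dt r.1 s.1 * dt s.1 t.1) * (dt s.1 t.1 * dt t.1 r.1) * (dt t.1 r.1 * dt r.1 s.1) < 0 :=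
    mul_neg_of_pos_of_neg b1 a3
  have b3 : (dt r.1 s.1 * dt s.1 t.1) * (dt s.1 t.1 * dt t.1 r.1) * (dt t.1 r.1 * dt r.1 s.1)
      = (dt r.1 s.1 * dt s.1 t.1 * dt t.1 r.1) ^ 2 := by ring
  rw [b3] at b2
  exact absurd b2 (not_lt.2 (sq_nonneg _))

end H53

open H53 in
open Pool.Agent.AEU.H55 (ip_add ip_sub ip_smul eq_of_ip ip_vx isCompact_Cl) in
/-- VXX -/
theorem vxx : VxxStatement := by
  intro P hP
  have hdt : ∀ s t v, VxOf P s t v → dt s.1 t.1 ≠ 0 := fun s t v hv =>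
    dt_ne_of_pt hP hv.mem₁ hv.mem₂ hv.ne hv.on₁ hv.on₂
  have h1 : ∀ s t v, VxOf P s t v → ∀ r ∈ P, ip r.1 v = r.2 → r = s ∨ r = t := by
    intro s t v hv r hr hrv
    by_contra hcon
    push Not at hcon
    exact two_sides hP hv.mem₁ hv.mem₂ hr hv.ne hcon.1.symm hcon.2.symm hv.on₁ hv.on₂ hrv
  have h7 : ∀ h : ℂ → ℝ, Fits P h → ∀ x, In x h → x ∈ Cl P := by
    intro h hf x hx s hs
    exact (hx s.1).trans (hf s hs)
  refine ⟨h1, ?_, ?_, ?_, ?_, ?_, h7, ?_, isCompact_Cl hP, ?_, ?_⟩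
  · intro s t v hv r hr hrs hrt
    refine lt_of_le_of_ne (hv.cl r hr) fun h => ?_
    rcases h1 s t v hv r hr h with h | h
    · exact hrs h
    · exact hrt h
  · rintro v ⟨s, t, hv⟩ a ha b hb ⟨α, β, hα, hβ, hαβ, rfl⟩
    have key : ∀ r ∈ P, ip r.1 (α • a + β • b) = r.2 → ip r.1 a = r.2 ∧ ip r.1 b = r.2 := by
      intro r hr h
      rw [ip_add, ip_smul, ip_smul] at h
      have ha' := ha r hr
      have hb' := hb r hr
      have e : α * (r.2 - ip r.1 a) + β * (r.2 - ip r.1 b) = 0 := by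
        linear_combination r.2 * hαβ - h
      have p1 : 0 ≤ α * (r.2 - ip r.1 a) := mul_nonneg hα.le (by linarith)
      have p2 : 0 ≤ β * (r.2 - ip r.1 b) := mul_nonneg hβ.le (by linarith)
      have q1 : α * (r.2 - ip r.1 a) = 0 := by linarith
      have q2 : β * (r.2 - ip r.1 b) = 0 := by linarith
      have q1' := (mul_eq_zero.1 q1).resolve_left hα.ne'
      have q2' := (mul_eq_zero.1 q2).resolve_left hβ.ne'
      exact ⟨by linarith, by linarith⟩
    obtain ⟨a1, b1⟩ := key s hv.mem₁ hv.on₁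
    obtain ⟨a2, b2⟩ := key t hv.mem₂ hv.on₂
    have hd := hdt _ _ _ hv
    exact ⟨eq_of_ip hd (a1.trans hv.on₁.symm) (a2.trans hv.on₂.symm),
      eq_of_ip hd (b1.trans hv.on₁.symm) (b2.trans hv.on₂.symm)⟩
  · intro s t v w hv hw
    exact eq_of_ip (hdt _ _ _ hv) (hv.on₁.trans hw.on₁.symm) (hv.on₂.trans hw.on₂.symm)
  · intro s t v hv
    have hd := hdt _ _ _ hv
    obtain ⟨e1, e2⟩ := ip_vx hd
    exact ⟨eq_of_ip hd (hv.on₁.trans e1.symm) (hv.on₂.trans e2.symm),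
      ⟨hv.cl, hv.mem₂, hv.mem₁, hv.ne.symm, hv.on₂, hv.on₁⟩, hd⟩
  · intro x hx s hs hsx hnv t ht hts
    refine lt_of_le_of_ne (hx t ht) fun h => hnv ⟨s, t, hx, hs, ht, hts.symm, hsx, h⟩
  · intro s t v h hv hf hin
    constructor
    · rw [touch, Finset.mem_filter]
      exact ⟨hv.mem₁, le_antisymm (hf s hv.mem₁) (by rw [← hv.on₁]; exact hin s.1)⟩
    · rw [touch, Finset.mem_filter]
      exact ⟨hv.mem₂, le_antisymm (hf t hv.mem₂) (by rw [← hv.on₂]; exact hin t.1)⟩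
  · intro s hs t ht hne h
    exact opp_of_dt hP hs ht hne h
  · intro h hsub hf s hs
    rw [touch, Finset.mem_filter] at hs
    obtain ⟨x, hx, hx'⟩ := (Pool.Agent.AEU.H69.sup h hsub).2.2.2 s.1
    exact ⟨x, hx, h7 h hf x hx, hx'.trans hs.2⟩

end Pool.Agent.XQ
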