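import Pool.Agent.Helper16_XQ.StmtG
import Pool.Agent.Helper25_AEU.LX
import Pool.Agent.Helper69_AEU.Tools
import Pool.Agent.Helper69_AEU.Lam
import Pool.Agent.Helper72_AEU.ACT

/-!
Squad XQ (MP_5b0138_an), Part G, module LXX: Lemma X below the level `L`, and in the limit.
-/

set_option autoImplicit false

namespace Pool.Agent.XQ

open MeasureTheory Complex Filter Topology Pool.Agent.H62T
open Pool.Agent.H16F (Sublin)
open Pool.Agent.AEU

namespace H53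

open Pool.Agent.AEU.H25 (mem_touch touch_sub mat_near closed_fits)

theorem mv_inv_mv (g : Iso2) (s : HP) : mv g⁻¹ (mv g s) = s := by
  rw [← Pool.Agent.AEU.H72.act.1, inv_mul_cancel, Pool.Agent.AEU.H72.act.2.1]

theorem mv_mv_inv (g : Iso2) (s : HP) : mv g (mv g⁻¹ s) = s := by
  rw [← Pool.Agent.AEU.H72.act.1, mul_inv_cancel, Pool.Agent.AEU.H72.act.2.1]

theorem mb_inv_mb (g : Iso2) (h : ℂ → ℝ) : mb g⁻¹ (mb g h) = h := by
  rw [← Pool.Agent.AEU.H72.act.2.2.1, inv_mul_cancel, Pool.Agent.AEU.H72.act.2.2.2.1]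

theorem mv_inj (g : Iso2) : Function.Injective (mv g) := fun s t hst => by
  have := congrArg (mv g⁻¹) hst
  rwa [mv_inv_mv, mv_inv_mv] at this

/-- a placement can be inverted -/
theorem wp_inv {X Y : Finset HP} {g : Iso2} {S : Finset HP} {h : ℂ → ℝ} (w : WP X Y g S h) :
    WP Y X g⁻¹ (S.image (mv g)) (mb g h) := by
  obtain ⟨a1, a2, a3, a4, a5, a6, a7, a8, a9, a10, a11, hmx, _⟩ := Pool.Agent.AEU.H72.act
  refine ⟨?_, a11 g h w.sub, w.fits', ?_, ?_, ?_⟩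
  · rw [Finset.card_image_of_injective _ (mv_inj g), w.card]
  · rw [mb_inv_mb]; exact w.fits
  · intro t ht
    obtain ⟨s, hs, rfl⟩ := Finset.mem_image.1 ht
    rw [mem_touch]
    refine ⟨w.mem s hs, ?_⟩
    have h1 := a5 g h s
    have h2 := (mem_touch.1 (w.tch hs)).2
    linarith
  · intro t ht
    obtain ⟨s, hs, rfl⟩ := Finset.mem_image.1 ht
    rw [mv_inv_mv]; exact touch_sub X h (w.tch hs)

/-- a special body which is placed is matched -/
theorem wpm_special {X Y : Finset HP} {L : ℝ} (all : AllM X Y L) (uq : Uq X Y L) {g : Iso2}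
    {S : Finset HP} {h : ℂ → ℝ} (w : WP X Y g S h) (hl : lam h < L) (hsp : Special X h) :
    Mat X Y g h := by
  obtain ⟨g₁, h1⟩ := all h hsp hl
  have : g = g₁ := uq g g₁ S h w
    ⟨w.card, w.sub, w.fits, h1.fits', w.tch, fun s hs => h1.mem s (w.tch hs)⟩ hl
  rw [this]; exact h1

/-- WPM: a placed body shorter than `L` is matched -/
theorem wpm {X Y : Finset HP} {L : ℝ} (env : Env X Y L) {g : Iso2}
    {S : Finset HP} {h : ℂ → ℝ} (w : WP X Y g S h) (hl : lam h < L) : Mat X Y g h := by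
  by_cases hsp : Special X h
  · exact wpm_special env.all env.uq w hl hsp
  have w' := wp_inv w
  have hT : touch X h = S := by
    have h4 : ¬ 4 ≤ (touch X h).card := fun h4 => hsp ⟨w.sub, w.fits, by omega, Or.inr h4⟩
    exact (Finset.eq_of_subset_of_card_le w.tch (by have := w.card; omega)).symm
  by_cases hsq : Special Y (mb g h)
  · have h2 : Mat Y X g⁻¹ (mb g h) := by
      refine wpm_special env.all' env.uq' w' ?_ hsq
      rw [Pool.Agent.AEU.H69.lamS.2.2.2 g h w.sub]; exact hl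
    have h3 := (Pool.Agent.AEU.H69.msy Pool.Agent.AEU.H72.act Y X g⁻¹ _ h2).1
    rwa [inv_inv, mb_inv_mb] at h3
  · have hT' : touch Y (mb g h) = S.image (mv g) := by
      have h4 : ¬ 4 ≤ (touch Y (mb g h)).card := fun h4 => hsq ⟨w'.sub, w'.fits, by omega, Or.inr h4⟩
      exact (Finset.eq_of_subset_of_card_le w'.tch (by have := w'.card; omega)).symm
    refine ⟨w.fits, w.fits', ?_, ?_⟩
    · rw [hT]; exact w.mem
    · rw [hT']
      intro t ht
      obtain ⟨s, hs, rfl⟩ := Finset.mem_image.1 ht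
      rw [mv_inv_mv]; exact touch_sub X h (w.tch hs)

/-- the path is matched as long as it is shorter than `L` -/
theorem lxx_path {X Y : Finset HP} {L : ℝ} (env : Env X Y L) {S : Finset HP} {g : Iso2}
    {h₀ h : ℂ → ℝ} (hS : S.card = 3) (hS₀ : S ⊆ touch X h₀) (hSh : S ⊆ touch X h)
    (sub₀ : Sublin h₀) (sub : Sublin h) (hm : Mat X Y g h₀) (f : Fits X h) {b : ℝ}
    (b1 : b ≤ 1) (hl : ∀ τ : ℝ, 0 ≤ τ → τ ≤ b → lam (mix τ h₀ h) < L) :
    Set.Icc (0 : ℝ) b ⊆ {τ | Mat X Y g (mix τ h₀ h)} := by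
  have hmx := Pool.Agent.AEU.H72.act.2.2.2.2.2.2.2.2.2.2.2.1
  obtain ⟨hm1, hm2, _⟩ := Pool.Agent.AEU.H69.mixS X
  have key : ∀ τ : ℝ, 0 ≤ τ → τ ≤ b → Sublin (mix τ h₀ h) ∧ Fits X (mix τ h₀ h) ∧
      S ⊆ touch X (mix τ h₀ h) := by
    intro τ h0 h1
    obtain ⟨m1, m2, m3, m4⟩ := hm1 h₀ h sub₀ sub τ h0 (h1.trans b1)
    obtain ⟨m5, m6, _⟩ := m4 hm.fits f
    exact ⟨m1, m5, fun s hs => m6 (Finset.mem_inter.2 ⟨hS₀ hs, hSh hs⟩)⟩
  refine IsClosed.Icc_subset_of_forall_exists_gt ?_ ?_ ?_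
  · rw [← closure_subset_iff_isClosed]
    intro τ hτ
    have hτI : τ ∈ Set.Icc (0 : ℝ) b := by
      have := closure_mono Set.inter_subset_right hτ
      rwa [isClosed_Icc.closure_eq] at this
    refine ⟨?_, hτI⟩
    obtain ⟨k1, k2, k3⟩ := key τ hτI.1 hτI.2
    refine wpm env (S := S) ⟨hS, k1, k2, ?_, k3, fun s hs => hm.mem s (hS₀ hs)⟩
      (hl τ hτI.1 hτI.2)
    have hcl := closed_fits Y (mb g h₀) (mb g h)
    have hsub : {τ | Mat X Y g (mix τ h₀ h)} ∩ Set.Icc (0 : ℝ) b ⊆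
        {τ : ℝ | Fits Y (mix τ (mb g h₀) (mb g h))} := by
      intro τ' hτ'
      have := (hτ'.1 : Mat X Y g (mix τ' h₀ h)).fits'
      rwa [hmx] at this
    have := hcl.closure_subset_iff.2 hsub hτ
    rw [hmx]; exact this
  · show Mat X Y g (mix 0 h₀ h)
    rw [(hm2 h₀ h).1]; exact hm
  · intro τ hτ y hy
    have hnear := mat_near Pool.Agent.AEU.H72.act (Pool.Agent.AEU.H69.opn Pool.Agent.AEU.H72.act) hτ.1
    have h1 : ∀ᶠ τ' in 𝓝[>] τ, Fits X (mix τ' h₀ h) → Mat X Y g (mix τ' h₀ h) :=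
      hnear.filter_mono nhdsWithin_le_nhds
    have h2 : ∀ᶠ τ' in 𝓝[>] τ, τ' ∈ Set.Ioc τ (min y b) :=
      Ioc_mem_nhdsGT (lt_min hy hτ.2.2)
    obtain ⟨τ', k1, k2⟩ := (h1.and h2).exists
    refine ⟨τ', ?_, k2.1, k2.2.trans (min_le_left _ _)⟩
    exact k1 (key τ' (hτ.2.1.trans k2.1.le) (k2.2.trans (min_le_right _ _))).2.1

end H53

open H53 in
/-- LXX -/
theorem lxx : LxxStatement := by
  intro X Y L env S g h₀ h hS hS₀ hSh sub₀ sub hm f l₀
  have hmx := Pool.Agent.AEU.H72.act.2.2.2.2.2.2.2.2.2.2.2.1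
  obtain ⟨hm1, hm2, _⟩ := Pool.Agent.AEU.H69.mixS X
  have hlam : ∀ τ : ℝ, 0 ≤ τ → τ ≤ 1 → lam (mix τ h₀ h) = (1 - τ) * lam h₀ + τ * lam h :=
    fun τ h0 h1 => (hm1 h₀ h sub₀ sub τ h0 h1).2.1
  constructor
  · intro l
    have h1 := lxx_path env hS hS₀ hSh sub₀ sub hm f le_rfl (fun τ h0 h1 => by
      rw [hlam τ h0 h1]
      rcases eq_or_lt_of_le h0 with h2 | h2
      · rw [← h2]; linarith
      · nlinarith)
    have h2 : Mat X Y g (mix 1 h₀ h) := h1 ⟨zero_le_one, le_rfl⟩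
    rwa [(hm2 h₀ h).2] at h2
  · intro l
    have hcl := Pool.Agent.AEU.H25.closed_fits Y (mb g h₀) (mb g h)
    have hsub : Set.Ico (0 : ℝ) 1 ⊆ {τ : ℝ | Fits Y (mix τ (mb g h₀) (mb g h))} := by
      intro τ hτ
      have h1 := lxx_path env hS hS₀ hSh sub₀ sub hm f hτ.2.le (fun τ' h0 h1 => by
        rw [hlam τ' h0 (h1.trans hτ.2.le)]
        have h3 : τ' < 1 := h1.trans_lt hτ.2
        nlinarith)
      have := (h1 ⟨hτ.1, le_rfl⟩ : Mat X Y g (mix τ h₀ h)).fits'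
      rwa [hmx] at this
    have h1 := hcl.closure_subset_iff.2 hsub
    rw [closure_Ico (by norm_num)] at h1
    have h2 : Fits Y (mix 1 (mb g h₀) (mb g h)) := h1 ⟨zero_le_one, le_rfl⟩
    obtain ⟨_, k2, _⟩ := Pool.Agent.AEU.H69.mixS Y
    rwa [(k2 _ _).2] at h2

end Pool.Agent.XQ
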