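import Pool.Agent.Helper53_XQ.DDXa

/-!
Squad XQ (MP_5b0138_an), Part D, module DDX: the death formula for polygons with parallel sides.
-/

set_option autoImplicit false

namespace Pool.Agent.XQ

open MeasureTheory Complex Filter Topology ProbabilityTheory Pool.Agent.H16Iso Pool.Agent.H62T
open Pool.Agent.H16F (Sublin ind)
open Pool.Agent.AEU

namespace H53

variable {X : Finset HP} {r : HP → ℝ} {p : HP → ℂ}

/-! ### Areas -/

open Classical in
theorem Rd.area (R : Rd X r p) {h : ℂ → ℝ} (hh : Continuous h) :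
    Tendsto (fun θ : ℝ => VX (X.image (rt r p θ)) h) (𝓝[>] (0 : ℝ)) (𝓝 (VX X h)) := by
  obtain ⟨c, hc, hcoer⟩ := R.coer
  obtain ⟨M, hM⟩ : ∃ M : ℝ, ∀ s ∈ X, s.2 - h s.1 ≤ M := by
    obtain ⟨M, hM⟩ := (X.finite_toSet.image fun s => s.2 - h s.1).bddAbove
    exact ⟨M, fun s hs => hM ⟨s, hs, rfl⟩⟩
  have hbd : ∀ᶠ θ in 𝓝[>] (0 : ℝ), ∀ s ∈ X, (rt r p θ s).2 - h (rt r p θ s).1 < M + 1 := by
    refine (Finset.eventually_all X).2 fun s hs => ?_
    refine ev_lt ((rt_cont2 r p s).sub (cont_h r p hh s)) continuous_const ?_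
    rw [R.zero hs]
    have := hM s hs
    linarith
  have hset : ∀ θ : ℝ, {x : ℂ | ∀ s' ∈ X.image (rt r p θ), ip s'.1 x ≤ s'.2 - h s'.1}
      = {x : ℂ | ∀ s ∈ X, ip (rt r p θ s).1 x ≤ (rt r p θ s).2 - h (rt r p θ s).1} := by
    intro θ
    ext x
    constructor
    · intro hx s hs
      exact hx _ (Finset.mem_image_of_mem _ hs)
    · intro hx s' hs'
      obtain ⟨s, hs, rfl⟩ := Finset.mem_image.1 hs'
      exact hx s hs
  have hmeas : ∀ Y : Finset HP, MeasurableSet {x : ℂ | ∀ s ∈ Y, ip s.1 x ≤ s.2 - h s.1} := by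
    intro Y
    have e : {x : ℂ | ∀ s ∈ Y, ip s.1 x ≤ s.2 - h s.1}
        = ⋂ s ∈ Y, {x : ℂ | ip s.1 x ≤ s.2 - h s.1} := by
      ext x; simp
    rw [e]
    exact (isClosed_biInter fun s _ => isClosed_le (Pool.Agent.AEU.H55.continuous_ip s.1)
      continuous_const).measurableSet
  have key : Tendsto (fun θ : ℝ => volume {x : ℂ | ∀ s' ∈ X.image (rt r p θ),
      ip s'.1 x ≤ s'.2 - h s'.1}) (𝓝[>] (0 : ℝ))
      (𝓝 (volume {x : ℂ | ∀ s ∈ X, ip s.1 x ≤ s.2 - h s.1})) := by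
    refine tendsto_measure_of_ae_tendsto_indicator (𝓝[>] (0 : ℝ)) (hmeas X) (fun θ => hmeas _)
      (B := Metric.closedBall (0 : ℂ) ((M + 1) / c)) Metric.isClosed_closedBall.measurableSet
      (ne_of_lt (isCompact_closedBall _ _).measure_lt_top) ?_ ?_
    · filter_upwards [hcoer, hbd] with θ h1 h2
      rw [hset]
      intro x hx
      rw [mem_closedBall_zero_iff, le_div_iff₀ hc]
      obtain ⟨s, hs, h3⟩ := h1 x
      have h4 := hx s hs
      have h5 := h2 s hs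
      linarith
    · have hnull : ∀ᵐ x : ℂ, ∀ s ∈ X, ip s.1 x ≠ s.2 - h s.1 := by
        have : ∀ s ∈ X, ∀ᵐ x : ℂ, ip s.1 x ≠ s.2 - h s.1 := by
          intro s hs
          rw [ae_iff]
          simpa using Pool.Agent.H62T.H60.volume_line s.1 (R.pg.unit s hs) (s.2 - h s.1)
        exact (ae_ball_iff X.countable_toSet).2 this
      filter_upwards [hnull] with x hx
      have h1 : ∀ᶠ θ in 𝓝[>] (0 : ℝ), ∀ s ∈ X,
          (ip (rt r p θ s).1 x ≤ (rt r p θ s).2 - h (rt r p θ s).1 ↔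
            ip s.1 x ≤ s.2 - h s.1) := by
        refine (Finset.eventually_all X).2 fun s hs => ?_
        have c1 := cont_ip_fst r p s x
        have c2 : Continuous fun θ : ℝ => (rt r p θ s).2 - h (rt r p θ s).1 :=
          (rt_cont2 r p s).sub (cont_h r p hh s)
        rcases lt_or_gt_of_ne (hx s hs) with h2 | h2
        · have h3 := ev_lt c1 c2 (by rw [R.zero hs]; exact h2)
          filter_upwards [h3] with θ h4
          exact ⟨fun _ => h2.le, fun _ => h4.le⟩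
        · have h3 := ev_lt c2 c1 (by rw [R.zero hs]; exact h2)
          filter_upwards [h3] with θ h4
          exact ⟨fun h5 => absurd h5 (not_le.2 h4), fun h5 => absurd h5 (not_le.2 h2)⟩
      filter_upwards [h1] with θ h2
      constructor
      · intro h3 s hs
        exact (h2 s hs).1 (h3 _ (Finset.mem_image_of_mem _ hs))
      · intro h3 s' hs'
        obtain ⟨s, hs, rfl⟩ := Finset.mem_image.1 hs'
        exact (h2 s hs).2 (h3 s hs)
  have hfin : volume {x : ℂ | ∀ s ∈ X, ip s.1 x ≤ s.2 - h s.1} ≠ ⊤ := by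
    obtain ⟨c', hc', hcoer'⟩ := coercive R.pg
    refine ne_of_lt (lt_of_le_of_lt (measure_mono ?_)
      (isCompact_closedBall (0 : ℂ) (M / c')).measure_lt_top)
    intro x hx
    rw [mem_closedBall_zero_iff, le_div_iff₀ hc']
    obtain ⟨s, hs, h3⟩ := hcoer' x
    have h4 := hx s hs
    have h5 := hM s hs
    linarith
  exact (ENNReal.tendsto_toReal hfin).comp key

/-! ### Events -/

theorem sum_pc_image [DecidableEq HP] {f : HP → HP} (hf : Set.InjOn f X)
    (F : Finset HP → ℝ) :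
    ∑ S ∈ (X.image f).powersetCard 3, F S = ∑ S ∈ X.powersetCard 3, F (S.image f) := by
  have e : (X.image f).powersetCard 3 = (X.powersetCard 3).image fun S => S.image f := by
    ext T
    rw [Finset.mem_powersetCard, Finset.mem_image]
    constructor
    · rintro ⟨h1, h2⟩
      obtain ⟨S, hS, rfl⟩ := Finset.subset_image_iff.1 h1
      refine ⟨S, ?_, rfl⟩
      rw [Finset.mem_powersetCard]
      refine ⟨by exact_mod_cast hS, ?_⟩
      rw [← h2, Finset.card_image_of_injOn (hf.mono hS)]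
    · rintro ⟨S, hS, rfl⟩
      rw [Finset.mem_powersetCard] at hS
      refine ⟨Finset.image_subset_image hS.1, ?_⟩
      rw [Finset.card_image_of_injOn (hf.mono (by exact_mod_cast hS.1)), hS.2]
  rw [e, Finset.sum_image]
  intro S hS T hT hST
  have hS' := (Finset.mem_powersetCard.1 hS).1
  have hT' := (Finset.mem_powersetCard.1 hT).1
  have h1 : ∀ A B : Finset HP, A ⊆ X → B ⊆ X → A.image f = B.image f → A ⊆ B := by
    intro A B hA hB hAB s hs
    have h2 : f s ∈ B.image f := by rw [← hAB]; exact Finset.mem_image_of_mem _ hs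
    obtain ⟨t, ht, h3⟩ := Finset.mem_image.1 h2
    have := hf (hB ht) (hA hs) h3
    rwa [← this]
  exact (h1 S T hS' hT' hST).antisymm (h1 T S hT' hS' hST.symm)

/-- no event for a triple with two parallel sides -/
theorem not_ev_par {h : ℂ → ℝ} (hn : Nc X h) {S : Finset HP} (hS : S ⊆ X) {a a' : HP}
    (ha : a ∈ S) (ha' : a' ∈ S) (hne : a ≠ a') (hd : dt a.1 a'.1 = 0) : ¬ Ev X S h := by
  rintro ⟨σ, x, h0, h1, hf, ht⟩
  have e : ∀ s ∈ S, σ * h s.1 + ip s.1 x = s.2 := by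
    intro s hs
    rw [← ht] at hs
    exact (Pool.Agent.AEU.H35.mem_touch.1 hs).2
  exact hn a (hS ha) a' (hS ha') hne hd σ x h0 h1 hf ⟨e a ha, e a' ha'⟩

open Classical in
/-- no event for a triple with two nearly parallel sides -/
theorem Rd.not_ev (R : Rd X r p) {h : ℂ → ℝ} (hh : Continuous h) (hn : Nc X h) {S : Finset HP}
    (hS : S ⊆ X) {a a' : HP} (ha : a ∈ S) (ha' : a' ∈ S) (hne : a ≠ a') (hd : dt a.1 a'.1 = 0) :
    ∀ᶠ θ in 𝓝[>] (0 : ℝ), ¬ Ev (X.image (rt r p θ)) (S.image (rt r p θ)) h := by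
  obtain ⟨c, hc, hcoer⟩ := R.coer
  obtain ⟨M, hM⟩ : ∃ M : ℝ, ∀ s ∈ X, s.2 + |h s.1| ≤ M := by
    obtain ⟨M, hM⟩ := (X.finite_toSet.image fun s => s.2 + |h s.1|).bddAbove
    exact ⟨M, fun s hs => hM ⟨s, hs, rfl⟩⟩
  have hbd : ∀ᶠ θ in 𝓝[>] (0 : ℝ), ∀ s ∈ X, (rt r p θ s).2 + |h (rt r p θ s).1| < M + 1 := by
    refine (Finset.eventually_all X).2 fun s hs => ?_
    refine ev_lt ((rt_cont2 r p s).add (cont_h r p hh s).abs) continuous_const ?_
    rw [R.zero hs]
    have := hM s hs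
    linarith
  let K : Set (ℝ × ℝ × ℂ) := {q | ∀ s ∈ X, q.2.1 * h (rt r p q.1 s).1 + ip (rt r p q.1 s).1 q.2.2
      ≤ (rt r p q.1 s).2} ∩ {q | q.2.1 * h (rt r p q.1 a).1 + ip (rt r p q.1 a).1 q.2.2
      = (rt r p q.1 a).2} ∩ {q | q.2.1 * h (rt r p q.1 a').1 + ip (rt r p q.1 a').1 q.2.2
      = (rt r p q.1 a').2}
  have c1 : ∀ s : HP, Continuous fun q : ℝ × ℝ × ℂ =>
      q.2.1 * h (rt r p q.1 s).1 + ip (rt r p q.1 s).1 q.2.2 := by
    intro s
    have h1 : Continuous fun q : ℝ × ℝ × ℂ => (rt r p q.1 s).1 :=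
      (rt_cont1 r p s).comp continuous_fst
    have h2 : Continuous fun q : ℝ × ℝ × ℂ => h (rt r p q.1 s).1 := hh.comp h1
    unfold ip
    fun_prop
  have c2 : ∀ s : HP, Continuous fun q : ℝ × ℝ × ℂ => (rt r p q.1 s).2 := fun s =>
    (rt_cont2 r p s).comp continuous_fst
  have hK : IsClosed K := by
    refine (IsClosed.inter ?_ (isClosed_eq (c1 a) (c2 a))).inter (isClosed_eq (c1 a') (c2 a'))
    have e : {q : ℝ × ℝ × ℂ | ∀ s ∈ X, q.2.1 * h (rt r p q.1 s).1 + ip (rt r p q.1 s).1 q.2.2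
        ≤ (rt r p q.1 s).2} = ⋂ s ∈ X, {q : ℝ × ℝ × ℂ | q.2.1 * h (rt r p q.1 s).1
          + ip (rt r p q.1 s).1 q.2.2 ≤ (rt r p q.1 s).2} := by
      ext q; simp
    rw [e]
    exact isClosed_biInter fun s _ => isClosed_le (c1 s) (c2 s)
  let B : Set (ℝ × ℝ × ℂ) := Set.Icc (0 : ℝ) 1 ×ˢ Set.Icc (0 : ℝ) 1 ×ˢ
    Metric.closedBall (0 : ℂ) ((M + 1) / c)
  have hB : IsCompact B := isCompact_Icc.prod (isCompact_Icc.prod (isCompact_closedBall _ _))
  have hKB : IsCompact (Prod.fst '' (B ∩ K)) := (hB.inter_right hK).image continuous_fst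
  have h0 : (0 : ℝ) ∉ Prod.fst '' (B ∩ K) := by
    rintro ⟨⟨θ, σ, x⟩, ⟨⟨_, h1, _⟩, ⟨h3, h4⟩, h5⟩, h6⟩
    simp only at h6
    subst h6
    have e1 : ∀ s ∈ X, σ * h s.1 + ip s.1 x ≤ s.2 := by
      intro s hs
      have := h3 s hs
      simpa only [R.zero hs] using this
    have e2 : σ * h a.1 + ip a.1 x = a.2 := by
      have : σ * h (rt r p 0 a).1 + ip (rt r p 0 a).1 x = (rt r p 0 a).2 := h4
      rwa [R.zero (hS ha)] at this
    have e3 : σ * h a'.1 + ip a'.1 x = a'.2 := by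
      have : σ * h (rt r p 0 a').1 + ip (rt r p 0 a').1 x = (rt r p 0 a').2 := h5
      rwa [R.zero (hS ha')] at this
    rcases h1.1.eq_or_lt with h7 | h7
    · have h7' : σ = 0 := h7.symm
      rw [h7', zero_mul, zero_add] at e2 e3
      exact dt_ne_of_pt R.pg (hS ha) (hS ha') hne e2 e3 hd
    · exact hn a (hS ha) a' (hS ha') hne hd σ x h7 h1.2 e1 ⟨e2, e3⟩
  have h1 : ∀ᶠ θ in 𝓝[>] (0 : ℝ), θ ∉ Prod.fst '' (B ∩ K) :=
    Filter.Eventually.filter_mono nhdsWithin_le_nhds (hKB.isClosed.isOpen_compl.mem_nhds h0)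
  have h2 : ∀ᶠ θ in 𝓝[>] (0 : ℝ), θ < 1 :=
    (gt_mem_nhds one_pos).filter_mono nhdsWithin_le_nhds
  filter_upwards [h1, h2, hcoer, hbd, self_mem_nhdsWithin] with θ k1 k2 k3 k4 k5
  rintro ⟨σ, x, g0, g1, hf, ht⟩
  have e : ∀ s ∈ S, σ * h (rt r p θ s).1 + ip (rt r p θ s).1 x = (rt r p θ s).2 := by
    intro s hs
    have hs' : rt r p θ s ∈ S.image (rt r p θ) := Finset.mem_image_of_mem _ hs
    rw [← ht] at hs'
    exact (Pool.Agent.AEU.H35.mem_touch.1 hs').2
  have hf' : ∀ s ∈ X, σ * h (rt r p θ s).1 + ip (rt r p θ s).1 x ≤ (rt r p θ s).2 := fun s hs =>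
    hf _ (Finset.mem_image_of_mem _ hs)
  refine k1 ⟨(θ, σ, x), ⟨⟨⟨le_of_lt k5, k2.le⟩, ⟨g0.le, g1⟩, ?_⟩, ⟨hf', e a ha⟩, e a' ha'⟩, rfl⟩
  rw [mem_closedBall_zero_iff, le_div_iff₀ hc]
  obtain ⟨s, hs, h3⟩ := k3 x
  have h4 := hf' s hs
  have h5 := k4 s hs
  have h6 : -|h (rt r p θ s).1| ≤ σ * h (rt r p θ s).1 := by
    have h7 := neg_abs_le (h (rt r p θ s).1)
    have h8 := abs_nonneg (h (rt r p θ s).1)
    nlinarith
  linarith

/-- explicit form of the event -/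
theorem ev_iff_lm {Y : Finset HP} {a b c : HP} {h : ℂ → ℝ} (ha : a ∈ Y) (hb : b ∈ Y) (hc : c ∈ Y)
    (hab : dt a.1 b.1 ≠ 0) (hD : 0 < D0 a b c) (hDD : 0 < DD a.1 b.1 c.1 h) :
    Ev Y {a, b, c} h ↔ D0 a b c ≤ DD a.1 b.1 c.1 h ∧ ∀ s ∈ Y, s ≠ a → s ≠ b → s ≠ c →
      Lm a b c s (fun s => h s.1) / (dt a.1 b.1 * DD a.1 b.1 c.1 h) < 0 := by
  rw [Pool.Agent.AEU.H35.ev_iff' ha hb hc hab hD h]
  unfold Pool.Agent.AEU.H35.EvY
  refine and_congr_right fun _ => forall_congr' fun s => forall_congr' fun _ =>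
    forall_congr' fun _ => forall_congr' fun _ => forall_congr' fun _ => ?_
  have e : (dt a.1 s.1 * (b.2 - D0 a b c / DD a.1 b.1 c.1 h * h b.1)
      + dt s.1 b.1 * (a.2 - D0 a b c / DD a.1 b.1 c.1 h * h a.1)) / dt a.1 b.1
      + D0 a b c / DD a.1 b.1 c.1 h * h s.1
      = s.2 + Lm a b c s (fun s => h s.1) / (dt a.1 b.1 * DD a.1 b.1 c.1 h) := by
    have h1 : Lm a b c s (fun s => h s.1) =
        D0 a b c * (dt b.1 s.1 * h a.1 + dt s.1 a.1 * h b.1 + dt a.1 b.1 * h s.1)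
          - D0 a b s * DD a.1 b.1 c.1 h := rfl
    have h2 : D0 a b s = dt b.1 s.1 * a.2 + dt s.1 a.1 * b.2 + dt a.1 b.1 * s.2 := rfl
    have h3 : dt a.1 s.1 = -dt s.1 a.1 := by unfold dt; ring
    have h4 : dt s.1 b.1 = -dt b.1 s.1 := by unfold dt; ring
    rw [h1, h2, h3, h4]
    field_simp
    ring
  rw [e]
  constructor
  · intro h1; linarith
  · intro h1; linarith

theorem cont_ZZ (r : HP → ℝ) (p : HP → ℂ) {h : ℂ → ℝ} (hh : Continuous h) (a b c : HP)
    (hpr : pr (rt r p 0 a).1 (rt r p 0 b).1 (rt r p 0 c).1 ≠ 0) :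
    Tendsto (fun θ : ℝ => ZZ (rt r p θ a).1 (rt r p θ b).1 (rt r p θ c).1
      (D0 (rt r p θ a) (rt r p θ b) (rt r p θ c)) h) (𝓝[>] (0 : ℝ))
      (𝓝 (ZZ (rt r p 0 a).1 (rt r p 0 b).1 (rt r p 0 c).1
        (D0 (rt r p 0 a) (rt r p 0 b) (rt r p 0 c)) h)) := by
  have h1 := cont_D0 r p a b c
  have h2 := cont_DD r p hh a b c
  have h3 : Continuous fun θ : ℝ => pr (rt r p θ a).1 (rt r p θ b).1 (rt r p θ c).1 := by
    have h1 := cont_dt r p a b
    have h2 := cont_dt r p b c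
    have h3 := cont_dt r p c a
    unfold pr
    fun_prop
  unfold ZZ
  refine Tendsto.mono_left ?_ nhdsWithin_le_nhds
  refine Tendsto.div ?_ ((continuous_const.mul h3).tendsto 0) (mul_ne_zero two_ne_zero hpr)
  exact ((((h1.sub h2).min continuous_const).pow 2).neg).tendsto 0

open Classical in
/-- convergence of the contribution of a triple -/
theorem Rd.term (R : Rd X r p) {h : ℂ → ℝ} (hh : Continuous h) (hg : Gn X h) (hn : Nc X h)
    {S : Finset HP} (hS : S ∈ X.powersetCard 3) :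
    Tendsto (fun θ : ℝ => ind (Ev (X.image (rt r p θ)) (S.image (rt r p θ)) h)
      * Zs (S.image (rt r p θ)) h) (𝓝[>] (0 : ℝ)) (𝓝 (ind (Ev X S h) * Zs S h)) := by
  obtain ⟨hSX, hS3⟩ := Finset.mem_powersetCard.1 hS
  have ind0 : ∀ q : Prop, ¬ q → ind q = 0 := fun q hq => by
    unfold Pool.Agent.H16F.ind; rw [if_neg hq]
  have ind_abs : ∀ q : Prop, |ind q| ≤ 1 := fun q => by
    unfold Pool.Agent.H16F.ind
    split <;> simp
  by_cases hpar : ∃ a ∈ S, ∃ a' ∈ S, a ≠ a' ∧ dt a.1 a'.1 = 0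
  · obtain ⟨a, ha, a', ha', hne, hd⟩ := hpar
    rw [ind0 _ (not_ev_par hn hSX ha ha' hne hd), zero_mul]
    refine tendsto_const_nhds.congr' ?_
    filter_upwards [R.not_ev hh hn hSX ha ha' hne hd] with θ h1
    rw [ind0 _ h1, zero_mul]
  push Not at hpar
  obtain ⟨a, b, c, rfl, hab, hac, hbc, hD⟩ := Pool.Agent.AEU.H35.exists_order hS3
  have ha : a ∈ X := hSX (by simp)
  have hb : b ∈ X := hSX (by simp)
  have hc : c ∈ X := hSX (by simp)
  have dab : dt a.1 b.1 ≠ 0 := hpar a (by simp) b (by simp) hab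
  have dbc : dt b.1 c.1 ≠ 0 := hpar b (by simp) c (by simp) hbc
  have dca : dt c.1 a.1 ≠ 0 := hpar c (by simp) a (by simp) hac.symm
  have hD' : 0 < D0 a b c := lt_of_le_of_ne hD (D0_ne R.pg ha hb hc hab hac hbc dab).symm
  have himg : ∀ θ : ℝ, ({a, b, c} : Finset HP).image (rt r p θ)
      = {rt r p θ a, rt r p θ b, rt r p θ c} := by
    intro θ
    rw [Finset.image_insert, Finset.image_insert, Finset.image_singleton]
  have hev1 := ev_lt continuous_const (cont_D0 r p a b c)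
    (by rw [R.zero ha, R.zero hb, R.zero hc]; exact hD')
  -- convergence of `Zs`
  have hZ : Tendsto (fun θ : ℝ => Zs (({a, b, c} : Finset HP).image (rt r p θ)) h)
      (𝓝[>] (0 : ℝ)) (𝓝 (Zs {a, b, c} h)) := by
    rw [Pool.Agent.AEU.H35.Zs_eq hab hac hbc hD']
    have h1 := cont_ZZ r p hh a b c (by
      rw [R.zero ha, R.zero hb, R.zero hc]
      exact mul_ne_zero (mul_ne_zero dab dbc) dca)
    rw [R.zero ha, R.zero hb, R.zero hc] at h1
    refine h1.congr' ?_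
    filter_upwards [hev1, R.pgX] with θ h2 h3
    have hinj := h3.2.2
    rw [himg, Pool.Agent.AEU.H35.Zs_eq (fun e => hab (hinj ha hb e)) (fun e => hac (hinj ha hc e))
      (fun e => hbc (hinj hb hc e)) h2]
  by_cases hle : DD a.1 b.1 c.1 h ≤ D0 a b c
  · have h0 : Zs {a, b, c} h = 0 := by
      rw [Pool.Agent.AEU.H35.Zs_eq hab hac hbc hD', Pool.Agent.AEU.H35.ZZ_eq_zero hle]
    rw [h0, mul_zero]
    rw [h0] at hZ
    refine squeeze_zero_norm (fun θ => ?_) (tendsto_zero_iff_abs_tendsto_zero _ |>.1 hZ)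
    rw [Real.norm_eq_abs, abs_mul]
    exact mul_le_of_le_one_left (abs_nonneg _) (ind_abs _)
  push Not at hle
  have hDD : 0 < DD a.1 b.1 c.1 h := hD'.trans hle
  have hev2 := ev_lt (cont_D0 r p a b c) (cont_DD r p hh a b c)
    (by rw [R.zero ha, R.zero hb, R.zero hc]; exact hle)
  have hev3 := ev_ne (cont_dt r p a b) (by rw [R.zero ha, R.zero hb]; exact dab)
  have hsign : ∀ᶠ θ in 𝓝[>] (0 : ℝ), ∀ s ∈ X, s ≠ a → s ≠ b → s ≠ c →
      (Lm (rt r p θ a) (rt r p θ b) (rt r p θ c) (rt r p θ s) (fun s => h s.1)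
        / (dt (rt r p θ a).1 (rt r p θ b).1 * DD (rt r p θ a).1 (rt r p θ b).1 (rt r p θ c).1 h)
          < 0 ↔ Lm a b c s (fun s => h s.1) / (dt a.1 b.1 * DD a.1 b.1 c.1 h) < 0) := by
    refine (Finset.eventually_all X).2 fun s hs => ?_
    by_cases hsa : s = a
    · exact Filter.Eventually.of_forall fun _ h1 => absurd hsa h1
    by_cases hsb : s = b
    · exact Filter.Eventually.of_forall fun _ _ h1 => absurd hsb h1
    by_cases hsc : s = c
    · exact Filter.Eventually.of_forall fun _ _ _ h1 => absurd hsc h1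
    have hne : Lm a b c s (fun s => h s.1) / (dt a.1 b.1 * DD a.1 b.1 c.1 h) ≠ 0 :=
      div_ne_zero ((gn_iff X h).1 hg a ha b hb c hc s hs ⟨hab, hac, Ne.symm hsa, hbc,
        Ne.symm hsb, Ne.symm hsc⟩ dab) (mul_ne_zero dab hDD.ne')
    have ht : Tendsto (fun θ : ℝ => Lm (rt r p θ a) (rt r p θ b) (rt r p θ c) (rt r p θ s)
        (fun s => h s.1) / (dt (rt r p θ a).1 (rt r p θ b).1
          * DD (rt r p θ a).1 (rt r p θ b).1 (rt r p θ c).1 h)) (𝓝[>] (0 : ℝ))
        (𝓝 (Lm a b c s (fun s => h s.1) / (dt a.1 b.1 * DD a.1 b.1 c.1 h))) := by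
      have c1 := (cont_Lm r p hh a b c s).tendsto' 0 (Lm a b c s (fun s => h s.1))
        (by rw [R.zero ha, R.zero hb, R.zero hc, R.zero hs])
      have c2 := (cont_dt r p a b).tendsto' 0 (dt a.1 b.1) (by rw [R.zero ha, R.zero hb])
      have c3 := (cont_DD r p hh a b c).tendsto' 0 (DD a.1 b.1 c.1 h)
        (by rw [R.zero ha, R.zero hb, R.zero hc])
      exact (c1.div (c2.mul c3) (mul_ne_zero dab hDD.ne')).mono_left nhdsWithin_le_nhds
    rcases lt_or_gt_of_ne hne with h1 | h1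
    · filter_upwards [ht.eventually (gt_mem_nhds h1)] with θ h2 _ _ _
      exact ⟨fun _ => h1, fun _ => h2⟩
    · filter_upwards [ht.eventually (lt_mem_nhds h1)] with θ h2 _ _ _
      exact ⟨fun h3 => absurd h3 (not_lt.2 h2.le), fun h3 => absurd h3 (not_lt.2 h1.le)⟩
  have hind : ∀ᶠ θ in 𝓝[>] (0 : ℝ),
      ind (Ev (X.image (rt r p θ)) (({a, b, c} : Finset HP).image (rt r p θ)) h)
        = ind (Ev X {a, b, c} h) := by
    filter_upwards [hev1, hev2, hev3, hsign, R.pgX] with θ h1 h2 h3 h4 h5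
    have hinj := h5.2.2
    congr 1
    rw [himg, eq_iff_iff, ev_iff_lm ha hb hc dab hD' hDD,
      ev_iff_lm (Finset.mem_image_of_mem _ ha) (Finset.mem_image_of_mem _ hb)
        (Finset.mem_image_of_mem _ hc) h3 h1 (h1.trans h2)]
    constructor
    · rintro ⟨_, k2⟩
      refine ⟨hle.le, fun s hs n1 n2 n3 => (h4 s hs n1 n2 n3).1 ?_⟩
      exact k2 _ (Finset.mem_image_of_mem _ hs) (fun e => n1 (hinj hs ha e))
        (fun e => n2 (hinj hs hb e)) (fun e => n3 (hinj hs hc e))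
    · rintro ⟨_, k2⟩
      refine ⟨h2.le, fun s' hs' n1 n2 n3 => ?_⟩
      obtain ⟨s, hs, rfl⟩ := Finset.mem_image.1 hs'
      have m1 : s ≠ a := fun e => n1 (by rw [e])
      have m2 : s ≠ b := fun e => n2 (by rw [e])
      have m3 : s ≠ c := fun e => n3 (by rw [e])
      exact (h4 s hs m1 m2 m3).2 (k2 s hs m1 m2 m3)
  refine (hZ.const_mul (ind (Ev X {a, b, c} h))).congr' ?_
  filter_upwards [hind] with θ h1
  rw [h1]

/-- the sum of the contributions -/
noncomputable def Zt (X : Finset HP) (h : ℂ → ℝ) : ℝ :=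
  ∑ S ∈ X.powersetCard 3, ind (Ev X S h) * Zs S h

open Classical in
theorem Rd.sum (R : Rd X r p) {h : ℂ → ℝ} (hh : Continuous h) (hg : Gn X h) (hn : Nc X h) :
    Tendsto (fun θ : ℝ => Zt (X.image (rt r p θ)) h) (𝓝[>] (0 : ℝ)) (𝓝 (Zt X h)) := by
  unfold Zt
  refine (tendsto_finsetSum _ fun S hS => R.term hh hg hn hS).congr' ?_
  filter_upwards [R.pgX] with θ h1
  exact (sum_pc_image h1.2.2
    (fun S => ind (Ev (X.image (rt r p θ)) S h) * Zs S h)).symm

/-! ### Quadratic polynomials -/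

/-- interpolation -/
theorem quad_interp {Y : Finset HP} {q : (ℂ → ℝ) → ℝ} (hq : Quad Y q) (h : ℂ → ℝ) (τ N : ℝ) :
    q (fun w => (τ * N) * h w) = (N - 2) * (N - 3) / 2 * q (fun w => (τ * 1) * h w)
      - (N - 1) * (N - 3) * q (fun w => (τ * 2) * h w)
      + (N - 1) * (N - 2) / 2 * q (fun w => (τ * 3) * h w) := by
  obtain ⟨w0, w1, w2, hf⟩ := hq.form
  have key : ∀ c : ℝ, q (fun w => c * h w) = w0 + c * (∑ s ∈ Y, w1 s * h s.1)
      + c ^ 2 * ∑ s ∈ Y, ∑ r ∈ Y, w2 s r * (h s.1 * h r.1) := by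
    intro c
    rw [hf, Finset.mul_sum, Finset.mul_sum]
    congr 1
    · congr 1
      exact Finset.sum_congr rfl fun s _ => by ring
    · refine Finset.sum_congr rfl fun s _ => ?_
      rw [Finset.mul_sum]
      exact Finset.sum_congr rfl fun r _ => by ring
  rw [key, key, key, key]
  ring

/-- no contribution of small bodies -/
theorem zs_small (X : Finset HP) (h : ℂ → ℝ) : ∃ τ0 > 0, ∀ τ : ℝ, 0 ≤ τ → τ ≤ τ0 →
    ∀ S ⊆ X, Zs S (fun w => τ * h w) = 0 := by
  classical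
  have h1 : ∀ᶠ τ in 𝓝[≥] (0 : ℝ), ∀ a ∈ X, ∀ b ∈ X, ∀ c ∈ X, 0 < D0 a b c →
      τ * DD a.1 b.1 c.1 h < D0 a b c := by
    refine (Finset.eventually_all X).2 fun a _ => (Finset.eventually_all X).2 fun b _ =>
      (Finset.eventually_all X).2 fun c _ => ?_
    by_cases hD : 0 < D0 a b c
    · have hc : Continuous fun τ : ℝ => τ * DD a.1 b.1 c.1 h := by fun_prop
      have := (hc.tendsto 0).eventually_lt (tendsto_const_nhds (x := D0 a b c))
        (by simpa using hD)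
      filter_upwards [this.filter_mono nhdsWithin_le_nhds] with τ h2 _
      exact h2
    · exact Filter.Eventually.of_forall fun _ h1 => absurd h1 hD
  obtain ⟨u, hu, hu'⟩ := (mem_nhdsGE_iff_exists_Icc_subset).1 h1
  refine ⟨u, hu, fun τ h0 h2 S hS => ?_⟩
  have h3 := hu' ⟨h0, h2⟩
  unfold Zs
  rw [Finset.sum_eq_zero, mul_zero]
  intro a ha
  refine Finset.sum_eq_zero fun b hb => Finset.sum_eq_zero fun c hc => ?_
  split_ifs with hD
  · refine Pool.Agent.AEU.H35.ZZ_eq_zero ?_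
    have := h3 a (hS ha) b (hS hb) c (hS hc) hD
    have e : DD a.1 b.1 c.1 (fun w => τ * h w) = τ * DD a.1 b.1 c.1 h := by unfold DD; ring
    rw [e]; exact this.le
  · rfl

theorem gn_smul {h : ℂ → ℝ} (hg : Gn X h) {c : ℝ} (hc : 0 < c) : Gn X fun w => c * h w := by
  intro a ha b hb d hd e he hn hdt h1
  refine hg a ha b hb d hd e he hn hdt ?_
  have e1 : DD a.1 b.1 e.1 (fun w => c * h w) = c * DD a.1 b.1 e.1 h := by unfold DD; ring
  have e2 : DD a.1 b.1 d.1 (fun w => c * h w) = c * DD a.1 b.1 d.1 h := by unfold DD; ring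
  rw [e1, e2] at h1
  have h2 : c * (D0 a b d * DD a.1 b.1 e.1 h) = c * (D0 a b e * DD a.1 b.1 d.1 h) := by
    linarith
  exact mul_left_cancel₀ hc.ne' h2

theorem nc_smul {h : ℂ → ℝ} (hn : Nc X h) {c : ℝ} (hc : 0 < c) (hc1 : c ≤ 1) :
    Nc X fun w => c * h w := by
  intro a ha a' ha' hne hd σ x h0 h1 hf
  have h2 := hn a ha a' ha' hne hd (σ * c) x (mul_pos h0 hc)
    (by nlinarith) (fun s hs => by
      have := hf s hs
      show σ * c * h s.1 + ip s.1 x ≤ s.2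
      have e : σ * c * h s.1 = σ * (c * h s.1) := by ring
      rw [e]; exact this)
  rintro ⟨h3, h4⟩
  refine h2 ⟨?_, ?_⟩
  · rw [mul_assoc]; exact h3
  · rw [mul_assoc]; exact h4

theorem sublin_smul {h : ℂ → ℝ} (hh : Sublin h) {c : ℝ} (hc : 0 ≤ c) :
    Sublin fun w => c * h w := by
  refine ⟨fun a b => ?_, fun r a hr => ?_⟩
  · have := mul_le_mul_of_nonneg_left (hh.1 a b) hc
    show c * h (a + b) ≤ c * h a + c * h b
    linarith
  · show c * h ((r : ℂ) * a) = r * (c * h a)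
    rw [hh.2 r a hr]; ring

end H53

open H53 in
/-- DDX -/
theorem ddx (hqua : QuaStatement) (hdpx : DpxStatement) : DdxStatement := by
  classical
  intro X q hX hq
  refine ⟨fun h hg => noTie_of_gn hX hg, ?_⟩
  intro h hs hg hn
  have hh : Continuous h := (Pool.Agent.AEU.H69.sup h hs).2.1
  obtain ⟨r, p, R⟩ := exists_rd hX
  -- small bodies
  obtain ⟨τ1, hτ1, hz⟩ := zs_small X h
  obtain ⟨ρ, hρ, hsm⟩ := hq.small
  obtain ⟨M, hM0, hM⟩ : ∃ M : ℝ, 0 ≤ M ∧ ∀ s ∈ X, |h s.1| ≤ M := by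
    refine ⟨∑ s ∈ X, |h s.1|, Finset.sum_nonneg fun _ _ => abs_nonneg _, fun s hs' => ?_⟩
    exact Finset.single_le_sum (f := fun s : HP => |h s.1|) (fun _ _ => abs_nonneg _) hs'
  obtain ⟨τ, hτ, hτa, hτb, hτc⟩ : ∃ τ : ℝ, 0 < τ ∧ τ * 3 ≤ τ1 ∧ τ * 3 * M ≤ ρ ∧ τ * 3 ≤ 1 := by
    refine ⟨min (min (τ1 / 3) (ρ / (3 * (M + 1)))) (1 / 3), by positivity, ?_, ?_, ?_⟩
    · have : min (min (τ1 / 3) (ρ / (3 * (M + 1)))) (1 / 3) ≤ τ1 / 3 :=
        (min_le_left _ _).trans (min_le_left _ _)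
      linarith
    · have h1 : min (min (τ1 / 3) (ρ / (3 * (M + 1)))) (1 / 3) ≤ ρ / (3 * (M + 1)) :=
        (min_le_left _ _).trans (min_le_right _ _)
      have h2 : ρ / (3 * (M + 1)) * 3 * M ≤ ρ := by
        have h3 : ρ / (3 * (M + 1)) * 3 * M = ρ * (M / (M + 1)) := by field_simp
        rw [h3]
        have h4 : M / (M + 1) ≤ 1 := (div_le_one (by positivity)).2 (by linarith)
        nlinarith
      refine le_trans ?_ h2
      exact mul_le_mul_of_nonneg_right (mul_le_mul_of_nonneg_right h1 (by norm_num)) hM0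
    · have : min (min (τ1 / 3) (ρ / (3 * (M + 1)))) (1 / 3) ≤ 1 / 3 := min_le_right _ _
      linarith
  -- the formula for the bodies `c * h`
  have hlim : ∀ c : ℝ, 0 < c → c ≤ 1 → Tendsto (fun θ : ℝ =>
      VX (X.image (rt r p θ)) (fun w => c * h w) - Zt (X.image (rt r p θ)) (fun w => c * h w))
      (𝓝[>] (0 : ℝ)) (𝓝 (VX X (fun w => c * h w) - Zt X (fun w => c * h w))) := by
    intro c h0 h1
    have hc : Continuous fun w => c * h w := continuous_const.mul hh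
    exact (R.area hc).sub (R.sum hc (gn_smul hg h0) (nc_smul hn h0 h1))
  have hsmall : ∀ c : ℝ, 0 < c → c ≤ τ * 3 →
      VX X (fun w => c * h w) - Zt X (fun w => c * h w) = q fun w => c * h w := by
    intro c h0 h1
    have e1 : Zt X (fun w => c * h w) = 0 := by
      unfold Zt
      refine Finset.sum_eq_zero fun S hS => ?_
      rw [hz c h0.le (h1.trans hτa) S (Finset.mem_powersetCard.1 hS).1, mul_zero]
    rw [e1, sub_zero]
    refine hsm _ (sublin_smul hs h0.le) fun s hs' => ?_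
    rw [abs_mul, abs_of_pos h0]
    have := hM s hs'
    calc c * |h s.1| ≤ τ * 3 * M := mul_le_mul h1 this (abs_nonneg _) (by positivity)
      _ ≤ ρ := hτb
  -- interpolation for the rotated polygons
  obtain ⟨N, hN⟩ : ∃ N : ℝ, N = 1 / τ := ⟨_, rfl⟩
  have hτN : τ * N = 1 := by rw [hN]; field_simp
  have hev : ∀ᶠ θ in 𝓝[>] (0 : ℝ),
      (VX (X.image (rt r p θ)) (fun w => 1 * h w) - Zt (X.image (rt r p θ)) (fun w => 1 * h w))
      - ((N - 2) * (N - 3) / 2 * (VX (X.image (rt r p θ)) (fun w => (τ * 1) * h w)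
          - Zt (X.image (rt r p θ)) (fun w => (τ * 1) * h w))
        - (N - 1) * (N - 3) * (VX (X.image (rt r p θ)) (fun w => (τ * 2) * h w)
          - Zt (X.image (rt r p θ)) (fun w => (τ * 2) * h w))
        + (N - 1) * (N - 2) / 2 * (VX (X.image (rt r p θ)) (fun w => (τ * 3) * h w)
          - Zt (X.image (rt r p θ)) (fun w => (τ * 3) * h w))) = 0 := by
    have hnt : ∀ c : ℝ, 0 < c → ∀ᶠ θ in 𝓝[>] (0 : ℝ), NoTie (X.image (rt r p θ))
        (fun w => c * h w) := fun c hc =>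
      R.noTie (continuous_const.mul hh) (gn_smul hg hc)
    filter_upwards [R.pgX, hnt 1 one_pos, hnt (τ * 1) (by positivity), hnt (τ * 2) (by positivity),
      hnt (τ * 3) (by positivity)] with θ h1 k0 k1 k2 k3
    obtain ⟨q', hq'⟩ := hqua _ h1.1
    have hf : ∀ c : ℝ, 0 < c → NoTie (X.image (rt r p θ)) (fun w => c * h w) →
        VX (X.image (rt r p θ)) (fun w => c * h w) - Zt (X.image (rt r p θ)) (fun w => c * h w)
          = q' fun w => c * h w := by
      intro c hc hnt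
      have := hdpx _ q' h1.1 h1.2.1 hq' _ (sublin_smul hs hc.le) hnt
      rw [this]
      unfold Zt
      ring
    rw [hf 1 one_pos k0, hf _ (by positivity) k1, hf _ (by positivity) k2,
      hf _ (by positivity) k3]
    have := quad_interp hq' h τ N
    rw [hτN] at this
    rw [this]
    ring
  have hL : Tendsto (fun θ : ℝ =>
      (VX (X.image (rt r p θ)) (fun w => 1 * h w) - Zt (X.image (rt r p θ)) (fun w => 1 * h w))
      - ((N - 2) * (N - 3) / 2 * (VX (X.image (rt r p θ)) (fun w => (τ * 1) * h w)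
          - Zt (X.image (rt r p θ)) (fun w => (τ * 1) * h w))
        - (N - 1) * (N - 3) * (VX (X.image (rt r p θ)) (fun w => (τ * 2) * h w)
          - Zt (X.image (rt r p θ)) (fun w => (τ * 2) * h w))
        + (N - 1) * (N - 2) / 2 * (VX (X.image (rt r p θ)) (fun w => (τ * 3) * h w)
          - Zt (X.image (rt r p θ)) (fun w => (τ * 3) * h w)))) (𝓝[>] (0 : ℝ))
      (𝓝 ((VX X (fun w => 1 * h w) - Zt X (fun w => 1 * h w))
      - ((N - 2) * (N - 3) / 2 * (VX X (fun w => (τ * 1) * h w) - Zt X (fun w => (τ * 1) * h w))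
        - (N - 1) * (N - 3) * (VX X (fun w => (τ * 2) * h w) - Zt X (fun w => (τ * 2) * h w))
        + (N - 1) * (N - 2) / 2 * (VX X (fun w => (τ * 3) * h w)
          - Zt X (fun w => (τ * 3) * h w))))) := by
    refine (hlim 1 one_pos le_rfl).sub (((((hlim (τ * 1) (by positivity) (by linarith)).const_mul
      _).sub ((hlim (τ * 2) (by positivity) (by linarith)).const_mul _))).add
      ((hlim (τ * 3) (by positivity) hτc).const_mul _))
  have h0 := tendsto_nhds_unique (hL.congr' hev) tendsto_const_nhds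
  rw [hsmall (τ * 1) (by positivity) (by linarith), hsmall (τ * 2) (by positivity) (by linarith),
    hsmall (τ * 3) (by positivity) le_rfl] at h0
  have h1 := quad_interp hq h τ N
  rw [hτN] at h1
  rw [← h1] at h0
  simp only [one_mul] at h0
  have h2 : VX X h = q h + Zt X h := by linarith
  exact h2

end Pool.Agent.XQ
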