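import Pool.Agent.Helper16_XQ.StmtD
import Pool.Agent.Helper53_XQ.VXX
import Pool.Agent.Helper69_AEU.Lam

/-!
Squad XQ (MP_5b0138_an), Part D, module GNX: generic perturbations.
-/

set_option autoImplicit false

namespace Pool.Agent.XQ

open MeasureTheory Complex Filter Topology ProbabilityTheory Pool.Agent.H16Iso Pool.Agent.H62T
open Pool.Agent.H16F (Sublin ind)
open Pool.Agent.AEU

namespace H53

/-- three side lines of a polygon, two of them not parallel, are never concurrent -/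
theorem D0_ne {P : Finset HP} (hP : Pg P) {a b c : HP} (ha : a ∈ P) (hb : b ∈ P) (hc : c ∈ P)
    (hab : a ≠ b) (hac : a ≠ c) (hbc : b ≠ c) (hd : dt a.1 b.1 ≠ 0) : D0 a b c ≠ 0 := by
  intro h0
  have key : ∀ x : ℂ, dt b.1 c.1 * (a.2 - ip a.1 x) + dt c.1 a.1 * (b.2 - ip b.1 x)
      + dt a.1 b.1 * (c.2 - ip c.1 x) = 0 := by
    intro x
    have h1 : dt b.1 c.1 * ip a.1 x + dt c.1 a.1 * ip b.1 x + dt a.1 b.1 * ip c.1 x = 0 := by
      unfold dt ip; ring
    unfold D0 at h0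
    linear_combination h0 - h1
  obtain ⟨x, hx, hx'⟩ := hP.side a ha
  obtain ⟨y, hy, hy'⟩ := hP.side b hb
  obtain ⟨z, hz, hz'⟩ := hP.side c hc
  have k1 := key x
  have k2 := key y
  have k3 := key z
  rw [hx, sub_self, mul_zero, zero_add] at k1
  rw [hy, sub_self, mul_zero, add_zero] at k2
  rw [hz, sub_self, mul_zero, add_zero] at k3
  have x1 := hx' b hb hab.symm
  have x2 := hx' c hc hac.symm
  have y1 := hy' a ha hab
  have y2 := hy' c hc hbc.symm
  have z1 := hz' a ha hac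
  have z2 := hz' b hb hbc
  obtain ⟨A, hA⟩ : ∃ A, A = dt b.1 c.1 := ⟨_, rfl⟩
  obtain ⟨B, hB⟩ : ∃ B, B = dt c.1 a.1 := ⟨_, rfl⟩
  obtain ⟨C, hC⟩ : ∃ C, C = dt a.1 b.1 := ⟨_, rfl⟩
  rw [← hA] at k2 k3
  rw [← hB] at k1 k3
  rw [← hC] at k1 k2 hd
  obtain ⟨b1, hb1⟩ : ∃ b1, b1 = b.2 - ip b.1 x := ⟨_, rfl⟩
  obtain ⟨c1, hc1⟩ : ∃ c1, c1 = c.2 - ip c.1 x := ⟨_, rfl⟩
  obtain ⟨a2, ha2⟩ : ∃ a2, a2 = a.2 - ip a.1 y := ⟨_, rfl⟩
  obtain ⟨c2, hc2⟩ : ∃ c2, c2 = c.2 - ip c.1 y := ⟨_, rfl⟩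
  obtain ⟨a3, ha3⟩ : ∃ a3, a3 = a.2 - ip a.1 z := ⟨_, rfl⟩
  obtain ⟨b3, hb3⟩ : ∃ b3, b3 = b.2 - ip b.1 z := ⟨_, rfl⟩
  rw [← hb1, ← hc1] at k1
  rw [← ha2, ← hc2] at k2
  rw [← ha3, ← hb3] at k3
  have p1 : 0 < b1 := by rw [hb1]; linarith
  have p2 : 0 < c1 := by rw [hc1]; linarith
  have p3 : 0 < a2 := by rw [ha2]; linarith
  have p4 : 0 < c2 := by rw [hc2]; linarith
  have p5 : 0 < a3 := by rw [ha3]; linarith
  have p6 : 0 < b3 := by rw [hb3]; linarith
  rcases lt_or_gt_of_ne hd with hC0 | hC0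
  · have hB0 : 0 < B := by
      by_contra hcon
      push Not at hcon
      have := mul_nonpos_of_nonpos_of_nonneg hcon p1.le
      have := mul_neg_of_neg_of_pos hC0 p2
      linarith
    have hA0 : 0 < A := by
      by_contra hcon
      push Not at hcon
      have := mul_nonpos_of_nonpos_of_nonneg hcon p3.le
      have := mul_neg_of_neg_of_pos hC0 p4
      linarith
    have := mul_pos hA0 p5
    have := mul_pos hB0 p6
    linarith
  · have hB0 : B < 0 := by
      by_contra hcon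
      push Not at hcon
      have := mul_nonneg hcon p1.le
      have := mul_pos hC0 p2
      linarith
    have hA0 : A < 0 := by
      by_contra hcon
      push Not at hcon
      have := mul_nonneg hcon p3.le
      have := mul_pos hC0 p4
      linarith
    have := mul_neg_of_neg_of_pos hA0 p5
    have := mul_neg_of_neg_of_pos hB0 p6
    linarith

/-- finitely many nonzero linear functionals do not vanish at a positive vector -/
theorem exists_pos_generic {ι κ : Type} (X : Finset ι) (Q : Finset κ) (Λ : κ → (ι → ℝ) → ℝ)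
    (lin : ∀ (j : κ) (u v : ι → ℝ) (ε : ℝ), Λ j (fun s => u s + ε * v s) = Λ j u + ε * Λ j v)
    (hne : ∀ j ∈ Q, ∃ v, Λ j v ≠ 0) :
    ∃ r : ι → ℝ, (∀ s ∈ X, 0 < r s) ∧ ∀ j ∈ Q, Λ j r ≠ 0 := by
  classical
  induction Q using Finset.induction_on with
  | empty => exact ⟨fun _ => 1, fun _ _ => one_pos, fun j hj => absurd hj (Finset.notMem_empty j)⟩
  | insert j Q hj ih =>
    obtain ⟨r, hr, hr'⟩ := ih fun i hi => hne i (Finset.mem_insert_of_mem hi)
    by_cases h0 : Λ j r = 0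
    · obtain ⟨v, hv⟩ := hne j (Finset.mem_insert_self _ _)
      have e1 : ∀ᶠ ε in 𝓝 (0 : ℝ), ∀ s ∈ X, 0 < r s + ε * v s := by
        refine (Finset.eventually_all X).2 fun s hs => ?_
        have hc : Continuous fun ε : ℝ => r s + ε * v s := by fun_prop
        exact (hc.tendsto 0).eventually (lt_mem_nhds (by simpa using hr s hs))
      have e2 : ∀ᶠ ε in 𝓝 (0 : ℝ), ∀ i ∈ Q, Λ i (fun s => r s + ε * v s) ≠ 0 := by
        refine (Finset.eventually_all Q).2 fun i hi => ?_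
        simp only [lin]
        have hc : Continuous fun ε : ℝ => Λ i r + ε * Λ i v := by fun_prop
        exact (hc.tendsto 0).eventually (isOpen_ne.mem_nhds (by simpa using hr' i hi))
      have e3 : ∀ᶠ ε in 𝓝[>] (0 : ℝ), (∀ s ∈ X, 0 < r s + ε * v s) ∧
          (∀ i ∈ Q, Λ i (fun s => r s + ε * v s) ≠ 0) ∧ 0 < ε := by
        filter_upwards [e1.filter_mono nhdsWithin_le_nhds, e2.filter_mono nhdsWithin_le_nhds,
          self_mem_nhdsWithin] with ε h1 h2 h3
        exact ⟨h1, h2, h3⟩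
      obtain ⟨ε, h1, h2, h3⟩ := e3.exists
      refine ⟨fun s => r s + ε * v s, h1, fun i hi => ?_⟩
      rcases Finset.mem_insert.1 hi with rfl | hi
      · rw [lin, h0, zero_add]
        exact mul_ne_zero h3.ne' hv
      · exact h2 i hi
    · refine ⟨r, hr, fun i hi => ?_⟩
      rcases Finset.mem_insert.1 hi with rfl | hi
      · exact h0
      · exact hr' i hi

/-- the perturbation -/
noncomputable def kf (X : Finset HP) (ρ : ℝ) (r : HP → ℝ) (w : ℂ) : ℝ :=
  ∑ s ∈ X, r s * max (ip w s.1) (ρ * ‖w‖)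

theorem ip_self {w : ℂ} (h : ‖w‖ = 1) : ip w w = 1 := by
  have : ip w w = ‖w‖ ^ 2 := by
    rw [← normSq_eq_norm_sq, normSq_apply, ip]
  rw [this, h]; norm_num

theorem ip_le_norm (w z : ℂ) : ip w z ≤ ‖w‖ * ‖z‖ := by
  have h1 := Pool.Agent.AEU.H55.sq_ip_add_sq_dt w z
  have h2 : ip w z ^ 2 ≤ (‖w‖ * ‖z‖) ^ 2 := by nlinarith [sq_nonneg (dt w z)]
  exact (le_abs_self _).trans (abs_le_of_sq_le_sq h2 (by positivity))

theorem ip_lt_one {s t : ℂ} (hs : ‖s‖ = 1) (ht : ‖t‖ = 1) (hne : s ≠ t) : ip t s < 1 := by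
  have h1 := ip_le_norm t s
  rw [hs, ht, one_mul] at h1
  refine lt_of_le_of_ne h1 fun h2 => hne ?_
  have h3 := Pool.Agent.AEU.H55.sq_ip_add_sq_dt s t
  have h4 : ip s t = ip t s := by unfold ip; ring
  rw [h4, h2, hs, ht] at h3
  have h5 : dt s t = 0 := by nlinarith
  rcases eq_or_eq_neg_of_dt hs ht h5 with h6 | h6
  · exact h6.symm
  · exfalso
    rw [h6, ip_neg_left, ip_self hs] at h2
    linarith

theorem sublin_kf (X : Finset HP) {ρ : ℝ} (hρ : 0 ≤ ρ) {r : HP → ℝ} (hr : ∀ s ∈ X, 0 ≤ r s) :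
    Sublin (kf X ρ r) := by
  constructor
  · intro a b
    unfold kf
    rw [← Finset.sum_add_distrib]
    refine Finset.sum_le_sum fun s hs => ?_
    rw [← mul_add]
    refine mul_le_mul_of_nonneg_left ?_ (hr s hs)
    have h1 : ip (a + b) s.1 = ip a s.1 + ip b s.1 := by
      simp only [ip, add_re, add_im]; ring
    have h2 : ρ * ‖a + b‖ ≤ ρ * ‖a‖ + ρ * ‖b‖ := by
      rw [← mul_add]; exact mul_le_mul_of_nonneg_left (norm_add_le a b) hρ
    rw [h1]
    exact max_le (add_le_add (le_max_left _ _) (le_max_left _ _))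
      (h2.trans (add_le_add (le_max_right _ _) (le_max_right _ _)))
  · intro c a hc
    unfold kf
    rw [Finset.mul_sum]
    refine Finset.sum_congr rfl fun s _ => ?_
    have h1 : ip ((c : ℂ) * a) s.1 = c * ip a s.1 := by
      simp only [ip, re_ofReal_mul, im_ofReal_mul]; ring
    have h2 : ρ * ‖(c : ℂ) * a‖ = c * (ρ * ‖a‖) := by
      rw [norm_mul, norm_real, Real.norm_of_nonneg hc]; ring
    rw [h1, h2, ← mul_max_of_nonneg _ _ hc]
    ring

theorem kf_val {X : Finset HP} {ρ : ℝ} (hρ : ρ < 1) (hu : ∀ s ∈ X, ‖s.1‖ = 1)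
    (hρX : ∀ s ∈ X, ∀ t ∈ X, s ≠ t → ip t.1 s.1 ≤ ρ) (r : HP → ℝ) {t : HP} (ht : t ∈ X) :
    kf X ρ r t.1 = (1 - ρ) * r t + ρ * ∑ s ∈ X, r s := by
  classical
  unfold kf
  rw [Finset.mul_sum, ← Finset.add_sum_erase _ _ ht, ← Finset.add_sum_erase _ _ ht]
  have h1 : max (ip t.1 t.1) (ρ * ‖t.1‖) = 1 := by
    rw [hu t ht, ip_self (hu t ht), mul_one]
    exact max_eq_left hρ.le
  have h2 : ∑ s ∈ X.erase t, r s * max (ip t.1 s.1) (ρ * ‖t.1‖) = ∑ s ∈ X.erase t, ρ * r s := by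
    refine Finset.sum_congr rfl fun s hs => ?_
    have hs' := Finset.mem_erase.1 hs
    rw [hu t ht, mul_one, max_eq_right (hρX s hs'.2 t ht hs'.1)]
    ring
  rw [h1, h2]
  ring

theorem kf_le {X : Finset HP} {ρ : ℝ} (hρ0 : 0 ≤ ρ) (hρ : ρ < 1) (hu : ∀ s ∈ X, ‖s.1‖ = 1)
    {r : HP → ℝ} (hr : ∀ s ∈ X, 0 ≤ r s) (w : ℂ) :
    0 ≤ kf X ρ r w ∧ kf X ρ r w ≤ (∑ s ∈ X, r s) * ‖w‖ := by
  constructor
  · unfold kf
    refine Finset.sum_nonneg fun s hs => mul_nonneg (hr s hs) ?_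
    exact le_max_of_le_right (by positivity)
  · unfold kf
    rw [Finset.sum_mul]
    refine Finset.sum_le_sum fun s hs => mul_le_mul_of_nonneg_left ?_ (hr s hs)
    refine max_le ?_ ?_
    · have := ip_le_norm w s.1
      rwa [hu s hs, mul_one] at this
    · have := norm_nonneg w
      nlinarith

/-- the functional of `Gn` -/
def Lm (a b c d : HP) (f : HP → ℝ) : ℝ :=
  D0 a b c * (dt b.1 d.1 * f a + dt d.1 a.1 * f b + dt a.1 b.1 * f d)
    - D0 a b d * (dt b.1 c.1 * f a + dt c.1 a.1 * f b + dt a.1 b.1 * f c)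

theorem gn_iff (X : Finset HP) (h : ℂ → ℝ) : Gn X h ↔
    ∀ a ∈ X, ∀ b ∈ X, ∀ c ∈ X, ∀ d ∈ X, Ne4 a b c d → dt a.1 b.1 ≠ 0 →
      Lm a b c d (fun s => h s.1) ≠ 0 := by
  unfold Gn Lm DD
  refine forall_congr' fun a => forall_congr' fun _ => forall_congr' fun b => forall_congr' fun _ =>
    forall_congr' fun c => forall_congr' fun _ => forall_congr' fun d => forall_congr' fun _ =>
    forall_congr' fun _ => forall_congr' fun _ => ?_
  rw [ne_eq, ne_eq, sub_eq_zero]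

end H53

open H53 in
/-- GNX -/
theorem gnx : GnxStatement := by
  classical
  intro X hX ε hε
  have hu := hX.unit
  -- the constant `ρ`
  obtain ⟨ρ, hρ0, hρ1, hρX⟩ : ∃ ρ : ℝ, 0 ≤ ρ ∧ ρ < 1 ∧
      ∀ s ∈ X, ∀ t ∈ X, s ≠ t → ip t.1 s.1 ≤ ρ := by
    let A : Finset ℝ := insert 0 (((X ×ˢ X).filter fun q => q.1 ≠ q.2).image
      fun q => ip q.2.1 q.1.1)
    have hA : A.Nonempty := ⟨0, Finset.mem_insert_self _ _⟩
    have hne : ∀ s ∈ X, ∀ t ∈ X, s ≠ t → s.1 ≠ t.1 := by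
      intro s hs t ht hst h1
      obtain ⟨x, hx, hx'⟩ := hX.side s hs
      obtain ⟨y, hy, hy'⟩ := hX.side t ht
      have a1 := hx' t ht hst.symm
      have a2 := hy' s hs hst
      rw [h1] at hx a2
      linarith
    refine ⟨A.max' hA, A.le_max' 0 (Finset.mem_insert_self _ _), ?_, ?_⟩
    · have h1 := A.max'_mem hA
      rcases Finset.mem_insert.1 h1 with h2 | h2
      · rw [h2]; exact one_pos
      · obtain ⟨q, hq, hq'⟩ := Finset.mem_image.1 h2
        rw [Finset.mem_filter, Finset.mem_product] at hq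
        rw [← hq']
        exact ip_lt_one (hu _ hq.1.1) (hu _ hq.1.2) (hne _ hq.1.1 _ hq.1.2 hq.2)
    · intro s hs t ht hst
      refine A.le_max' _ (Finset.mem_insert_of_mem (Finset.mem_image.2 ⟨(s, t), ?_, rfl⟩))
      rw [Finset.mem_filter, Finset.mem_product]
      exact ⟨⟨hs, ht⟩, hst⟩
  -- values
  let val : (HP → ℝ) → HP → ℝ := fun r t => (1 - ρ) * r t + ρ * ∑ s ∈ X, r s
  let Q : Finset (HP × HP × HP × HP) := (X ×ˢ X ×ˢ X ×ˢ X).filter fun q =>
    Ne4 q.1 q.2.1 q.2.2.1 q.2.2.2 ∧ dt q.1.1 q.2.1.1 ≠ 0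
  have hQ : ∀ a b c d, (a, b, c, d) ∈ Q ↔
      (a ∈ X ∧ b ∈ X ∧ c ∈ X ∧ d ∈ X) ∧ Ne4 a b c d ∧ dt a.1 b.1 ≠ 0 := by
    intro a b c d
    simp only [Q, Finset.mem_filter, Finset.mem_product]
  obtain ⟨r, hr, hr'⟩ := exists_pos_generic X Q
    (fun q r => Lm q.1 q.2.1 q.2.2.1 q.2.2.2 (val r)) (by
      intro j u v e
      have h1 : ∑ s ∈ X, (u s + e * v s) = ∑ s ∈ X, u s + e * ∑ s ∈ X, v s := by
        rw [Finset.sum_add_distrib, Finset.mul_sum]
      simp only [Lm, val, h1]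
      ring) (by
      rintro ⟨a, b, c, d⟩ hq
      obtain ⟨⟨ha, hb, hc, hd⟩, hn, hdt⟩ := (hQ a b c d).1 hq
      obtain ⟨n1, n2, n3, n4, n5, n6⟩ := hn
      have hM : 0 < 1 - ρ + ρ * (X.card : ℝ) := by
        have : 0 ≤ ρ * (X.card : ℝ) := by positivity
        linarith
      obtain ⟨V, hV⟩ : ∃ V : ℝ, V = 1 / (1 - ρ + ρ * (X.card : ℝ)) := ⟨_, rfl⟩
      have hV' : (1 - ρ) * V + ρ * (X.card : ℝ) * V = 1 := by
        rw [hV]; field_simp
      have h1ρ : (1 - ρ) ≠ 0 := by linarith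
      refine ⟨fun t => ((if t = d then 1 else 0) - ρ * V) / (1 - ρ), ?_⟩
      have hsum : ∑ s ∈ X, ((if s = d then (1 : ℝ) else 0) - ρ * V) / (1 - ρ) = V := by
        rw [← Finset.sum_div, Finset.sum_sub_distrib, Finset.sum_ite_eq' X d, if_pos hd,
          Finset.sum_const, nsmul_eq_mul, div_eq_iff h1ρ]
        linarith
      have hval : ∀ t, val (fun t => ((if t = d then 1 else 0) - ρ * V) / (1 - ρ)) t
          = if t = d then 1 else 0 := by
        intro t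
        simp only [val]
        rw [hsum, mul_div_cancel₀ _ h1ρ]
        ring
      simp only [Lm, hval]
      rw [if_neg n3, if_neg n5, if_neg n6, if_pos trivial]
      have h0 := D0_ne hX ha hb hc n1 n2 n4 hdt
      have : D0 a b c * (dt b.1 d.1 * 0 + dt d.1 a.1 * 0 + dt a.1 b.1 * 1)
          - D0 a b d * (dt b.1 c.1 * 0 + dt c.1 a.1 * 0 + dt a.1 b.1 * 0)
          = D0 a b c * dt a.1 b.1 := by ring
      rw [this]
      exact mul_ne_zero h0 hdt)
  -- scaling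
  obtain ⟨R, hR⟩ : ∃ R : ℝ, R = ∑ s ∈ X, r s := ⟨_, rfl⟩
  have hR0 : 0 ≤ R := by rw [hR]; exact Finset.sum_nonneg fun s hs => (hr s hs).le
  obtain ⟨δ, hδ⟩ : ∃ δ : ℝ, δ = ε / (2 * (2 * Real.pi + 1) * (R + 1)) := ⟨_, rfl⟩
  have hpi := Real.pi_pos
  have hδ0 : 0 < δ := by rw [hδ]; positivity
  have hδR : δ * R * (2 * Real.pi + 1) < ε := by
    have h1 : δ * (2 * (2 * Real.pi + 1) * (R + 1)) = ε := by
      rw [hδ]; field_simp
    nlinarith [mul_nonneg (mul_nonneg hδ0.le hR0) (by positivity : (0 : ℝ) ≤ 2 * Real.pi + 1),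
      mul_pos hδ0 (by positivity : (0 : ℝ) < 2 * Real.pi + 1)]
  obtain ⟨r', hr'd⟩ : ∃ r' : HP → ℝ, r' = fun s => δ * r s := ⟨_, rfl⟩
  have hr'0 : ∀ s ∈ X, 0 ≤ r' s := fun s hs => by
    rw [hr'd]; exact mul_nonneg hδ0.le (hr s hs).le
  have hsum : ∑ s ∈ X, r' s = δ * R := by rw [hr'd, hR, Finset.mul_sum]
  have hsub := sublin_kf X hρ0 hr'0
  have hle := fun w => kf_le hρ0 hρ1 hu hr'0 w
  refine ⟨kf X ρ r', hsub, ?_, ?_, ?_⟩
  · have hcont := (Pool.Agent.AEU.H69.sup _ hsub).2.1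
    have h1 : lam (kf X ρ r') ≤ ∫ _θ in (0 : ℝ)..(2 * Real.pi), δ * R := by
      unfold lam
      refine intervalIntegral.integral_mono_on (by positivity) ?_ ?_ ?_
      · exact (hcont.comp (by fun_prop)).intervalIntegrable _ _
      · exact intervalIntegrable_const
      · intro θ _
        have := (hle (Complex.exp (θ * I))).2
        rwa [norm_exp_ofReal_mul_I, mul_one, hsum] at this
    rw [intervalIntegral.integral_const, smul_eq_mul, sub_zero] at h1
    refine h1.trans_lt ?_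
    nlinarith [mul_nonneg hδ0.le hR0]
  · intro s hs
    rw [abs_of_nonneg (hle s.1).1]
    have := (hle s.1).2
    rw [hu s hs, mul_one, hsum] at this
    refine this.trans_lt ?_
    nlinarith [mul_nonneg hδ0.le hR0]
  · intro h
    simp only [gn_iff]
    have hk : ∀ a ∈ X, ∀ b ∈ X, ∀ c ∈ X, ∀ d ∈ X, Ne4 a b c d → dt a.1 b.1 ≠ 0 →
        Lm a b c d (fun s => kf X ρ r' s.1) ≠ 0 := by
      intro a ha b hb c hc d hd hn hdt
      have h1 := hr' (a, b, c, d) ((hQ a b c d).2 ⟨⟨ha, hb, hc, hd⟩, hn, hdt⟩)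
      have h2 : ∀ t ∈ X, kf X ρ r' t.1 = δ * val r t := by
        intro t ht
        rw [kf_val hρ1 hu hρX r' ht, hsum, hr'd]
        simp only [val]
        rw [← hR]
        ring
      have h3 : Lm a b c d (fun s => kf X ρ r' s.1) = δ * Lm a b c d (val r) := by
        simp only [Lm]
        rw [h2 a ha, h2 b hb, h2 c hc, h2 d hd]
        ring
      rw [h3]
      exact mul_ne_zero hδ0.ne' h1
    have hlin : ∀ (a b c d : HP) (η : ℝ),
        Lm a b c d (fun s => (1 - η) * h s.1 + η * kf X ρ r' s.1)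
          = (1 - η) * Lm a b c d (fun s => h s.1) + η * Lm a b c d (fun s => kf X ρ r' s.1) := by
      intro a b c d η
      simp only [Lm]
      ring
    refine (Finset.eventually_all X).2 fun a ha => (Finset.eventually_all X).2 fun b hb =>
      (Finset.eventually_all X).2 fun c hc => (Finset.eventually_all X).2 fun d hd => ?_
    by_cases hn : Ne4 a b c d
    swap
    · exact Filter.Eventually.of_forall fun _ h1 => absurd h1 hn
    by_cases hdt : dt a.1 b.1 ≠ 0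
    swap
    · exact Filter.Eventually.of_forall fun _ _ h1 => absurd h1 hdt
    have hk' := hk a ha b hb c hc d hd hn hdt
    simp only [hlin]
    by_cases h0 : Lm a b c d (fun s => h s.1) = 0
    · filter_upwards [self_mem_nhdsWithin] with η hη _ _
      rw [h0, mul_zero, zero_add]
      exact mul_ne_zero (ne_of_gt hη) hk'
    · have hc : Continuous fun η : ℝ => (1 - η) * Lm a b c d (fun s => h s.1)
          + η * Lm a b c d (fun s => kf X ρ r' s.1) := by fun_prop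
      have : ∀ᶠ η in 𝓝 (0 : ℝ), (1 - η) * Lm a b c d (fun s => h s.1)
          + η * Lm a b c d (fun s => kf X ρ r' s.1) ≠ 0 :=
        (hc.tendsto 0).eventually (isOpen_ne.mem_nhds (by simpa using h0))
      filter_upwards [this.filter_mono nhdsWithin_le_nhds] with η hη _ _
      exact hη

end Pool.Agent.XQ
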