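import Pool.Agent.Helper36_XQ.Stmt5

/-!
Squad XQ, part E4, module GEO (helper53): the geometric input of the block argument.
-/

set_option autoImplicit false

namespace Pool.Agent.XQ.K4.H53

open MeasureTheory Complex Filter Topology ProbabilityTheory Pool.Agent.H16Iso Pool.Agent.H62T
  Pool.Agent.H16F Pool.Agent.H38KL Pool.Agent.AEU
open scoped ENNReal NNReal

theorem sq_norm (z : ℂ) : ‖z‖ ^ 2 = z.re ^ 2 + z.im ^ 2 := by
  rw [← Complex.normSq_eq_norm_sq, Complex.normSq_apply]; ring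

theorem ip_mul_ge (u a w : ℂ) (hu : ‖u‖ = 1) (ha : ‖a‖ = 1) :
    w.re * ip u a - |w.im| ≤ ip u (a * w) := by
  have h1 : ip u (a * w) = w.re * ip u a + w.im * (u.im * a.re - u.re * a.im) := by
    simp only [ip, mul_re, mul_im]; ring
  have h2 : |u.im * a.re - u.re * a.im| ≤ 1 := by
    have hu2 := sq_norm u
    have ha2 := sq_norm a
    rw [hu] at hu2
    rw [ha] at ha2
    rw [abs_le]
    constructor
    · linarith only [hu2, ha2, sq_nonneg (u.im + a.re), sq_nonneg (u.re - a.im)]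
    · linarith only [hu2, ha2, sq_nonneg (u.im - a.re), sq_nonneg (u.re + a.im)]
  have h3 : |w.im * (u.im * a.re - u.re * a.im)| ≤ |w.im| := by
    rw [abs_mul]
    calc |w.im| * |u.im * a.re - u.re * a.im| ≤ |w.im| * 1 :=
          mul_le_mul_of_nonneg_left h2 (abs_nonneg _)
      _ = |w.im| := mul_one _
  have h4 := (abs_le.mp h3).1
  rw [h1]; linarith

theorem ip_rf (u : Fin 4 → ℂ) (h : Fin 4 → ℝ) (s : Fin 4) (x : ℂ) (hu : ‖u s‖ = 1) :
    ip (u s) (rf u h s x) = 2 * h s - ip (u s) x := by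
  have hu2 := sq_norm (u s)
  rw [hu] at hu2
  have h1 : ip (u s) (rf u h s x)
      = ip (u s) x - 2 * (ip (u s) x - h s) * ((u s).re ^ 2 + (u s).im ^ 2) := by
    simp only [rf, ip, sub_re, sub_im, mul_re, mul_im, ofReal_re, ofReal_im]; ring
  rw [h1, ← hu2]; ring

theorem ip_add' (u x y : ℂ) : ip u (x + y) = ip u x + ip u y := by
  simp only [ip, add_re, add_im]; ring

/-- the width of the window -/
noncomputable def mE (δ1 δ2 ρ : ℝ) : ℝ := (LE δ1 δ2 ρ - sr δ1 δ2 ρ - sq δ1 δ2 ρ) / 2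

theorem ip_real (δ ρ : ℝ) : ip (exp (δ * I)) ρ = ρ * Real.cos δ := by
  simp only [ip, exp_ofReal_mul_I_re, exp_ofReal_mul_I_im, ofReal_re, ofReal_im]; ring

/-- the window is between the lines, and its images are apart -/
theorem win (hP : PteStatement) (δ1 δ2 ρ : ℝ) (hy : HyL δ1 δ2 ρ) :
    ∃ ζ1 : ℝ, 0 < ζ1 ∧ ∀ δ ζ : ℝ, 0 < δ → δ < ζ1 → 0 < ζ → ζ < ζ1 → ∀ η1 η2 : ℝ,
      (∀ x ∈ WE δ1 δ2 ρ δ ζ, ‖x‖ ≤ ‖mi δ1 δ2 ρ 0‖ + |xiE δ1 δ2 ρ| + 2 * ζ1) ∧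
      (∀ x ∈ WE δ1 δ2 ρ δ ζ, ip (uE η1 η2 δ1 δ2 2) x < hE δ1 δ2 ρ 2 ∧
        ip (uE η1 η2 δ1 δ2 3) x < hE δ1 δ2 ρ 3) ∧
      ∀ x ∈ WE δ1 δ2 ρ δ ζ, ∀ y ∈ WE δ1 δ2 ρ δ ζ,
        δ ≤ ‖rf (uE η1 η2 δ1 δ2) (hE δ1 δ2 ρ) 3 y - rf (uE η1 η2 δ1 δ2) (hE δ1 δ2 ρ) 2 x‖ := by
  obtain ⟨p1, p2, p3, p4, p5, p6, p7, p8, p9, p10, p11, p12, p13, p14⟩ := hP δ1 δ2 ρ hy
  set γ := gE δ1 δ2 with hγ
  set L := LE δ1 δ2 ρ with hL
  set sQ := sq δ1 δ2 ρ with hsQ
  set sR := sr δ1 δ2 ρ with hsR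
  set ξ := xiE δ1 δ2 ρ with hξ
  have hLpos : 0 < L := by linarith only [p3, p4, p5]
  have ha : ‖exp (-(γ * I))‖ = 1 := by
    have : (-(γ * I) : ℂ) = ((-γ : ℝ) : ℂ) * I := by push_cast; ring
    rw [this]; exact norm_exp_ofReal_mul_I _
  have hb : ‖exp (γ * I)‖ = 1 := norm_exp_ofReal_mul_I _
  have hu2 : ‖exp (δ1 * I)‖ = 1 := norm_exp_ofReal_mul_I _
  have hu3 : ‖exp (δ2 * I)‖ = 1 := norm_exp_ofReal_mul_I _
  have hc2' : sQ * ip (exp (δ1 * I)) (exp (-(γ * I))) = ρ * Real.cos δ1 := by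
    rw [← ip_real, ← p7]
    simp only [Qp, ip, mul_re, mul_im, ofReal_re, ofReal_im]; ring
  have hc3' : sR * ip (exp (δ2 * I)) (exp (γ * I)) = ρ * Real.cos δ2 := by
    rw [← ip_real, ← p8]
    simp only [Rp, ip, mul_re, mul_im, ofReal_re, ofReal_im]; ring
  have hcos1 : 0 < Real.cos δ1 := Real.cos_pos_of_mem_Ioo ⟨hy.b1, by linarith only [hy.b2, Real.pi_pos]⟩
  have hcos2 : 0 < Real.cos δ2 := Real.cos_pos_of_mem_Ioo ⟨by linarith [hy.b3, Real.pi_pos], hy.b4⟩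
  set c2 := ip (exp (δ1 * I)) (exp (-(γ * I))) with hc2
  set c3 := ip (exp (δ2 * I)) (exp (γ * I)) with hc3
  have hc2pos : 0 < c2 := by
    have : 0 < sQ * c2 := by rw [hc2']; exact mul_pos hy.r hcos1
    exact (mul_pos_iff_of_pos_left p3).mp this
  have hc3pos : 0 < c3 := by
    have : 0 < sR * c3 := by rw [hc3']; exact mul_pos hy.r hcos2
    exact (mul_pos_iff_of_pos_left p4).mp this
  have hsin : 0 < Real.sin γ := Real.sin_pos_of_pos_of_lt_pi p1 (by linarith [Real.pi_pos])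
  set m := (L - sR - sQ) / 2 with hm
  have hmpos : 0 < m := by rw [hm]; linarith only [p5]
  have hξ1 : ξ = sQ + m := by rw [hξ, hm]; simp only [xiE]; ring
  have hξ2 : ξ = L - sR - m := by rw [hξ, hm]; simp only [xiE]; ring
  obtain ⟨ζ1, hζ1, hz1, hz2, hz3, hz4, hz5, hz6⟩ : ∃ ζ1 : ℝ, 0 < ζ1 ∧ ζ1 ≤ m / 2 ∧
      ζ1 ≤ m / 2 * c2 ∧ ζ1 ≤ m / 2 * c3 ∧ ζ1 ≤ L / 4 ∧ ζ1 ≤ Real.sin γ * L / 8 ∧ ζ1 ≤ 1 := by
    refine ⟨min (m / 2) (min (m / 2 * c2) (min (m / 2 * c3) (min (L / 4)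
      (min (Real.sin γ * L / 8) 1)))), by positivity, ?_, ?_, ?_, ?_, ?_, ?_⟩
    · exact min_le_left _ _
    · exact (min_le_right _ _).trans (min_le_left _ _)
    · exact (min_le_right _ _).trans ((min_le_right _ _).trans (min_le_left _ _))
    · exact (min_le_right _ _).trans ((min_le_right _ _).trans ((min_le_right _ _).trans
        (min_le_left _ _)))
    · exact (min_le_right _ _).trans ((min_le_right _ _).trans ((min_le_right _ _).trans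
        ((min_le_right _ _).trans (min_le_left _ _))))
    · exact (min_le_right _ _).trans ((min_le_right _ _).trans ((min_le_right _ _).trans
        ((min_le_right _ _).trans (min_le_right _ _))))
  refine ⟨ζ1, hζ1, ?_⟩
  intro δ ζ hδ hδ1 hζ hζ1' η1 η2
  have hu2' : ‖uE η1 η2 δ1 δ2 2‖ = 1 := by simp [uE]
  have hu3' : ‖uE η1 η2 δ1 δ2 3‖ = 1 := by simp [uE]
  refine ⟨?_, ?_, ?_⟩
  · intro x hx
    obtain ⟨h1, h2, h3⟩ := hx
    have h4 : ‖x‖ = ‖mi δ1 δ2 ρ x - mi δ1 δ2 ρ 0‖ := by rw [p13]; simp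
    have h5 : ‖mi δ1 δ2 ρ x‖ ≤ |(mi δ1 δ2 ρ x).re| + |(mi δ1 δ2 ρ x).im| :=
      Complex.norm_le_abs_re_add_abs_im _
    have h6 : |(mi δ1 δ2 ρ x).re| ≤ |ξ| + ζ1 := by
      have h7 : |(mi δ1 δ2 ρ x).re| ≤ |(mi δ1 δ2 ρ x).re - ξ| + |ξ| := by
        have := abs_add_le ((mi δ1 δ2 ρ x).re - ξ) ξ
        simpa using this
      linarith
    have h8 : |(mi δ1 δ2 ρ x).im| ≤ ζ1 := by
      rw [abs_le]; constructor <;> linarith
    have h9 : ‖mi δ1 δ2 ρ x - mi δ1 δ2 ρ 0‖ ≤ ‖mi δ1 δ2 ρ x‖ + ‖mi δ1 δ2 ρ 0‖ := norm_sub_le _ _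
    rw [h4]; linarith
  · intro x hx
    obtain ⟨h1, h2, h3⟩ := hx
    have him : |(mi δ1 δ2 ρ x).im| < ζ1 := by
      rw [abs_lt]; constructor <;> linarith
    have hre := abs_lt.mp h1
    constructor
    · have h4 := ip_rf (uE η1 η2 δ1 δ2) (hE δ1 δ2 ρ) 2 x hu2'
      rw [(p14 η1 η2 x).1] at h4
      have h5 : exp (-(γ * I)) * mi δ1 δ2 ρ x
          = Qp δ1 δ2 ρ + exp (-(γ * I)) * (mi δ1 δ2 ρ x - (sQ : ℂ)) := by
        simp only [Qp]; ring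
      have e2 : uE η1 η2 δ1 δ2 2 = exp (δ1 * I) := by simp [uE]
      have e2' : hE δ1 δ2 ρ 2 = ip (exp (δ1 * I)) ρ := by simp [hE]
      rw [h5, e2, ip_add', p7] at h4
      have h6 := ip_mul_ge (exp (δ1 * I)) (exp (-(γ * I))) (mi δ1 δ2 ρ x - (sQ : ℂ)) hu2 ha
      have h7 : (mi δ1 δ2 ρ x - (sQ : ℂ)).re = (mi δ1 δ2 ρ x).re - sQ := by simp
      have h8 : (mi δ1 δ2 ρ x - (sQ : ℂ)).im = (mi δ1 δ2 ρ x).im := by simp
      rw [h7, h8] at h6
      have h9 : m / 2 * c2 ≤ ((mi δ1 δ2 ρ x).re - sQ) * c2 := by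
        refine mul_le_mul_of_nonneg_right ?_ hc2pos.le
        linarith only [hξ1, hz1, hδ1, hre.1]
      rw [e2, e2']
      rw [e2'] at h4
      linarith only [hz2, him, h4, h6, h9]
    · have h4 := ip_rf (uE η1 η2 δ1 δ2) (hE δ1 δ2 ρ) 3 x hu3'
      rw [(p14 η1 η2 x).2.1] at h4
      have h5 : exp (γ * I) * (L - mi δ1 δ2 ρ x)
          = Rp δ1 δ2 ρ + exp (γ * I) * ((L - sR : ℝ) - mi δ1 δ2 ρ x) := by
        simp only [Rp]; push_cast; ring
      have e2 : uE η1 η2 δ1 δ2 3 = exp (δ2 * I) := by simp [uE]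
      have e2' : hE δ1 δ2 ρ 3 = ip (exp (δ2 * I)) ρ := by simp [hE]
      rw [h5, e2, ip_add', p8] at h4
      have h6 := ip_mul_ge (exp (δ2 * I)) (exp (γ * I)) ((L - sR : ℝ) - mi δ1 δ2 ρ x) hu3 hb
      have h7 : (((L - sR : ℝ) : ℂ) - mi δ1 δ2 ρ x).re = (L - sR) - (mi δ1 δ2 ρ x).re := by simp
      have h8 : (((L - sR : ℝ) : ℂ) - mi δ1 δ2 ρ x).im = -(mi δ1 δ2 ρ x).im := by simp
      rw [h7, h8, abs_neg] at h6
      have h9 : m / 2 * c3 ≤ ((L - sR) - (mi δ1 δ2 ρ x).re) * c3 := by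
        refine mul_le_mul_of_nonneg_right ?_ hc3pos.le
        linarith only [hm, hξ1, hz1, hδ1, hre.2]
      rw [e2, e2']
      rw [e2'] at h4
      linarith only [hz3, him, h4, h6, h9]
  · intro x hx y hy'
    obtain ⟨h1, h2, h3⟩ := hx
    obtain ⟨k1, k2, k3⟩ := hy'
    rw [(p14 η1 η2 x).1, (p14 η1 η2 y).2.1]
    refine le_trans ?_ (Complex.abs_im_le_norm _)
    refine le_trans ?_ (le_abs_self _)
    have e1 : (exp (-(γ * I))).re = Real.cos γ := by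
      have : (-(γ * I) : ℂ) = ((-γ : ℝ) : ℂ) * I := by push_cast; ring
      rw [this, exp_ofReal_mul_I_re, Real.cos_neg]
    have e2 : (exp (-(γ * I))).im = -Real.sin γ := by
      have : (-(γ * I) : ℂ) = ((-γ : ℝ) : ℂ) * I := by push_cast; ring
      rw [this, exp_ofReal_mul_I_im, Real.sin_neg]
    simp only [sub_im, mul_im, exp_ofReal_mul_I_re, exp_ofReal_mul_I_im, sub_re, ofReal_re,
      ofReal_im, e1, e2]
    have hre := abs_lt.mp h1
    have kre := abs_lt.mp k1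
    have hcl : Real.cos γ ≤ 1 := Real.cos_le_one _
    have hcp : 0 < Real.cos γ := Real.cos_pos_of_mem_Ioo ⟨by linarith [Real.pi_pos], p2⟩
    have q1 : Real.cos γ * (mi δ1 δ2 ρ y).im ≤ ζ1 :=
      calc Real.cos γ * (mi δ1 δ2 ρ y).im ≤ Real.cos γ * ζ1 :=
            mul_le_mul_of_nonneg_left (by linarith) hcp.le
        _ ≤ 1 * ζ1 := mul_le_mul_of_nonneg_right hcl hζ1.le
        _ = ζ1 := one_mul _
    have q2 : Real.cos γ * (mi δ1 δ2 ρ x).im ≤ ζ1 :=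
      calc Real.cos γ * (mi δ1 δ2 ρ x).im ≤ Real.cos γ * ζ1 :=
            mul_le_mul_of_nonneg_left (by linarith) hcp.le
        _ ≤ 1 * ζ1 := mul_le_mul_of_nonneg_right hcl hζ1.le
        _ = ζ1 := one_mul _
    have q3 : Real.sin γ * (L / 2) ≤ Real.sin γ * (L - (mi δ1 δ2 ρ y).re + (mi δ1 δ2 ρ x).re) := by
      refine mul_le_mul_of_nonneg_left ?_ hsin.le
      linarith only [p3, p4, hm, hz1, hδ1, hre.1, kre.2]
    have q4 : Real.cos γ * (0 - (mi δ1 δ2 ρ y).im) + Real.sin γ * (L - (mi δ1 δ2 ρ y).re)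
        - (Real.cos γ * (mi δ1 δ2 ρ x).im + -Real.sin γ * (mi δ1 δ2 ρ x).re)
        = Real.sin γ * (L - (mi δ1 δ2 ρ y).re + (mi δ1 δ2 ρ x).re)
          - Real.cos γ * (mi δ1 δ2 ρ y).im - Real.cos γ * (mi δ1 δ2 ρ x).im := by ring
    rw [q4]
    linarith only [hz5, hδ, hδ1, q1, q2, q3]

theorem mi_cont (δ1 δ2 ρ : ℝ) : Continuous (mi δ1 δ2 ρ) := by
  unfold mi rfq ip
  fun_prop

theorem hC_meas (δ1 δ2 ρ : ℝ) : MeasurableSet (CE δ1 δ2 ρ) :=
  measurableSet_le measurable_const (Complex.measurable_re.comp (mi_cont δ1 δ2 ρ).measurable)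

theorem hW_meas (δ1 δ2 ρ δ ζ : ℝ) : MeasurableSet (WE δ1 δ2 ρ δ ζ) := by
  have h : MeasurableSet (H60K.Rw (xiE δ1 δ2 ρ) δ ζ ζ) := by
    unfold H60K.Rw
    refine MeasurableSet.inter ?_ (MeasurableSet.inter ?_ ?_)
    · exact measurableSet_lt ((Complex.measurable_re.sub_const _).abs) measurable_const
    · exact measurableSet_lt measurable_const Complex.measurable_im
    · exact measurableSet_lt Complex.measurable_im measurable_const
  exact (mi_cont δ1 δ2 ρ).measurable h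

theorem uE_norm (η1 η2 δ1 δ2 : ℝ) (s : Fin 4) : ‖uE η1 η2 δ1 δ2 s‖ = 1 := by
  have h2 : ‖exp (-(η2 * I))‖ = 1 := by
    have : (-(η2 * I) : ℂ) = ((-η2 : ℝ) : ℂ) * I := by push_cast; ring
    rw [this]; exact norm_exp_ofReal_mul_I _
  fin_cases s
  · simp [uE, norm_exp_ofReal_mul_I]
  · simp [uE, h2]
  · simp [uE, norm_exp_ofReal_mul_I]
  · simp [uE, norm_exp_ofReal_mul_I]

theorem loc_mono {u : Fin 4 → ℂ} {h : Fin 4 → ℝ} {M E : Finset (Fin 4)} {R R' : ℝ} (hR : 0 < R)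
    (hRR : R ≤ R') (hl : LcG u h M E R) : LcG u h M E R' := by
  intro n _ x A hV hC
  obtain ⟨h1, h2⟩ := hl n x A hV hC
  have h3 : 0 ≤ Ln u h x A := le_trans (by positivity) h2
  refine ⟨h1.trans (mul_le_mul_of_nonneg_right hRR (by linarith)), le_trans ?_ h2⟩
  exact one_div_le_one_div_of_le hR hRR

theorem geo (hA2 : Ga2Statement) (hC2 : Gc2Statement) (hA1 : Ga1Statement) (hB1 : Gb1Statement)
    (hC1 : Gc1Statement) (hL : Le2Statement) (hP : PteStatement) : GeoStatement := by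
  constructor
  · intro η1 η2 δ1 δ2 ρ hy
    have hyL : HyL δ1 δ2 ρ := hy.toHyL
    obtain ⟨ζ1, hζ1, hwin⟩ := win hP δ1 δ2 ρ hyL
    obtain ⟨ζ2, hζ2, hc2⟩ := hC2 η1 η2 δ1 δ2 ρ hy
    obtain ⟨R, hR, hloc⟩ := hL.1 η1 η2 δ1 δ2 ρ hy
    refine ⟨min ζ1 ζ2, lt_min hζ1 hζ2, ?_⟩
    intro ζ hζ hζ'
    have hζa : ζ < ζ1 := hζ'.trans_le (min_le_left _ _)
    have hζb : ζ < ζ2 := hζ'.trans_le (min_le_right _ _)
    obtain ⟨e1, d1, he1, hd1, hg1⟩ := hA2 η1 η2 δ1 δ2 ρ ζ hy hζ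
    obtain ⟨e2, d2, he2, hd2, hg2⟩ := hc2 ζ hζ hζb
    have hLE : 0 < LE δ1 δ2 ρ := by
      obtain ⟨p1, p2, p3, p4, p5, _⟩ := hP δ1 δ2 ρ hyL
      linarith only [p3, p4, p5]
    set R' := R + (‖mi δ1 δ2 ρ 0‖ + |xiE δ1 δ2 ρ| + 2 * ζ1) with hR'
    have hnn : 0 ≤ ‖mi δ1 δ2 ρ 0‖ + |xiE δ1 δ2 ρ| + 2 * ζ1 := by positivity
    refine ⟨min e1 e2, min ζ1 (min d1 d2), R', lt_min he1 he2, by positivity, ?_⟩
    intro δ hδ hδ'
    have hda : δ < ζ1 := hδ'.trans_le (min_le_left _ _)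
    have hdb : δ < d1 := hδ'.trans_le ((min_le_right _ _).trans (min_le_left _ _))
    have hdc : δ < d2 := hδ'.trans_le ((min_le_right _ _).trans (min_le_right _ _))
    obtain ⟨w1, w2, w3⟩ := hwin δ ζ hδ hda hζ hζa η1 η2
    exact
      { hu := uE_norm η1 η2 δ1 δ2
        hOn := ⟨0, by simp⟩
        hO := le_rfl
        hE := Finset.empty_subset _
        hOE := Finset.disjoint_empty_right _
        hδ := hδ
        hl := by have := lt_min he1 he2; linarith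
        hR := by linarith
        hC := hC_meas δ1 δ2 ρ
        hW := hW_meas δ1 δ2 ρ δ ζ
        hWR := fun x hx => (w1 x hx).trans (by linarith)
        hWi := w2
        hWd := w3
        loc := loc_mono hR (by linarith) hloc
        g1 := fun n _ x A _ hV hCn hS hLn =>
          hg1 δ hδ hdb n x A hV hCn hS (hLn.trans_le (by linarith [min_le_left e1 e2]))
        g2 := fun n _ x A _ hB => by
          obtain ⟨_, j, hj⟩ := hB
          exact absurd (Finset.disjoint_empty_right _) hj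
        g3 := fun n _ x A hn _ hB hCn hS hx0 hx1 =>
          le_trans (by linarith [min_le_right e1 e2]) (hg2 δ hδ hdc n x A hn hB hCn hS hx0 hx1) }
  · intro η1 η2 δ1 δ2 ρ hy
    have hyL : HyL δ1 δ2 ρ := hy.toHyL
    obtain ⟨ζ1, hζ1, hwin⟩ := win hP δ1 δ2 ρ hyL
    obtain ⟨ζ2, hζ2, hc2⟩ := hC1 η1 η2 δ1 δ2 ρ hy
    obtain ⟨ζ3, hζ3, hb1⟩ := hB1 η1 η2 δ1 δ2 ρ hy
    obtain ⟨R, hR, hloc⟩ := hL.2 η1 η2 δ1 δ2 ρ hy
    refine ⟨min ζ1 (min ζ2 ζ3), lt_min hζ1 (lt_min hζ2 hζ3), ?_⟩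
    intro ζ hζ hζ'
    have hζa : ζ < ζ1 := hζ'.trans_le (min_le_left _ _)
    have hζb : ζ < ζ2 := hζ'.trans_le ((min_le_right _ _).trans (min_le_left _ _))
    have hζc : ζ < ζ3 := hζ'.trans_le ((min_le_right _ _).trans (min_le_right _ _))
    obtain ⟨e1, d1, he1, hd1, hg1⟩ := hA1 η1 η2 δ1 δ2 ρ ζ hy hζ
    obtain ⟨e2, d2, he2, hd2, hg2⟩ := hc2 ζ hζ hζb
    obtain ⟨e3, d3, he3, hd3, hg3⟩ := hb1 ζ hζ hζc
    have hLE : 0 < LE δ1 δ2 ρ := by
      obtain ⟨p1, p2, p3, p4, p5, _⟩ := hP δ1 δ2 ρ hyL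
      linarith
    set R' := R + (‖mi δ1 δ2 ρ 0‖ + |xiE δ1 δ2 ρ| + 2 * ζ1) with hR'
    have hnn : 0 ≤ ‖mi δ1 δ2 ρ 0‖ + |xiE δ1 δ2 ρ| + 2 * ζ1 := by positivity
    refine ⟨min e1 (min e2 e3), min ζ1 (min d1 (min d2 d3)), R',
      lt_min he1 (lt_min he2 he3), by positivity, ?_⟩
    intro δ hδ hδ'
    have hda : δ < ζ1 := hδ'.trans_le (min_le_left _ _)
    have hdb : δ < d1 := hδ'.trans_le ((min_le_right _ _).trans (min_le_left _ _))
    have hdc : δ < d2 := hδ'.trans_le ((min_le_right _ _).trans ((min_le_right _ _).trans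
      (min_le_left _ _)))
    have hdd : δ < d3 := hδ'.trans_le ((min_le_right _ _).trans ((min_le_right _ _).trans
      (min_le_right _ _)))
    have hm1 : min e1 (min e2 e3) ≤ e1 := min_le_left _ _
    have hm2 : min e1 (min e2 e3) ≤ e2 := (min_le_right _ _).trans (min_le_left _ _)
    have hm3 : min e1 (min e2 e3) ≤ e3 := (min_le_right _ _).trans (min_le_right _ _)
    obtain ⟨w1, w2, w3⟩ := hwin δ ζ hδ hda hζ hζa η1 η2
    exact
      { hu := uE_norm η1 η2 δ1 δ2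
        hOn := ⟨0, by simp⟩
        hO := by simp
        hE := by simp
        hOE := by simp
        hδ := hδ
        hl := by have := lt_min he1 (lt_min he2 he3); linarith
        hR := by linarith
        hC := hC_meas δ1 δ2 ρ
        hW := hW_meas δ1 δ2 ρ δ ζ
        hWR := fun x hx => (w1 x hx).trans (by linarith)
        hWi := w2
        hWd := w3
        loc := loc_mono hR (by linarith) hloc
        g1 := fun n _ x A _ hV hCn hS hLn =>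
          hg1 δ hδ hdb n x A hV hCn hS (hLn.trans_le (by linarith))
        g2 := fun n _ x A hn hB hCn hS hx0 hx1 =>
          le_trans (by linarith) (hg3 δ hδ hdd n x A hn hB hCn hS hx0 hx1)
        g3 := fun n _ x A hn _ hB hCn hS hx0 hx1 =>
          le_trans (by linarith) (hg2 δ hδ hdc n x A hn hB hCn hS hx0 hx1) }

end Pool.Agent.XQ.K4.H53
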