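import Pool.Agent.Helper53_XQ.GNX
import Pool.Agent.Helper35_AEU.ZsB
import Pool.Agent.Helper60_TRI.Heat

/-!
Squad XQ (MP_5b0138_an), Part D, module DDX, first file: rotation of the sides.
-/

set_option autoImplicit false

namespace Pool.Agent.XQ

open MeasureTheory Complex Filter Topology ProbabilityTheory Pool.Agent.H16Iso Pool.Agent.H62T
open Pool.Agent.H16F (Sublin ind)
open Pool.Agent.AEU

namespace H53

/-! ### Algebra of ties -/

/-- four touched sides are a tie -/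
theorem lm_zero_of_touch {a b c d : HP} {h : ℂ → ℝ} {σ : ℝ} {x : ℂ}
    (ha : σ * h a.1 + ip a.1 x = a.2) (hb : σ * h b.1 + ip b.1 x = b.2)
    (hc : σ * h c.1 + ip c.1 x = c.2) (hd : σ * h d.1 + ip d.1 x = d.2) :
    Lm a b c d (fun s => h s.1) = 0 := by
  have e1 : D0 a b c = σ * (dt b.1 c.1 * h a.1 + dt c.1 a.1 * h b.1 + dt a.1 b.1 * h c.1) := by
    have h1 : dt b.1 c.1 * ip a.1 x + dt c.1 a.1 * ip b.1 x + dt a.1 b.1 * ip c.1 x = 0 := by
      unfold dt ip; ring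
    unfold D0
    rw [← ha, ← hb, ← hc]
    linear_combination h1
  have e2 : D0 a b d = σ * (dt b.1 d.1 * h a.1 + dt d.1 a.1 * h b.1 + dt a.1 b.1 * h d.1) := by
    have h1 : dt b.1 d.1 * ip a.1 x + dt d.1 a.1 * ip b.1 x + dt a.1 b.1 * ip d.1 x = 0 := by
      unfold dt ip; ring
    unfold D0
    rw [← ha, ← hb, ← hd]
    linear_combination h1
  unfold Lm
  rw [e1, e2]
  ring

/-- four sides in an order such that the first two are not parallel -/
theorem exists_ne4 {X : Finset HP} (hX : Pg X) {T : Finset HP} (hT : T ⊆ X) (h4 : T.card = 4) :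
    ∃ a b c d, a ∈ X ∧ b ∈ X ∧ c ∈ X ∧ d ∈ X ∧ Ne4 a b c d ∧ dt a.1 b.1 ≠ 0 ∧
      T = {a, b, c, d} := by
  classical
  obtain ⟨a, b, c, d, hab, hac, had, hbc, hbd, hcd, rfl⟩ := Finset.card_eq_four.1 h4
  have ha : a ∈ X := hT (by simp)
  have hb : b ∈ X := hT (by simp)
  have hc : c ∈ X := hT (by simp)
  have hd : d ∈ X := hT (by simp)
  by_cases h : dt a.1 b.1 = 0
  · refine ⟨a, c, b, d, ha, hc, hb, hd, ⟨hac, hab, had, hbc.symm, hcd, hbd⟩, ?_, ?_⟩
    · intro h'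
      have e1 := opp_of_dt hX ha hb hab h
      have e2 := opp_of_dt hX ha hc hac h'
      obtain ⟨x, hx, hx'⟩ := hX.side b hb
      obtain ⟨y, hy, hy'⟩ := hX.side c hc
      have a1 := hx' c hc hbc.symm
      have a2 := hy' b hb hbc
      rw [e2] at a1 hy
      rw [e1] at a2 hx
      linarith
    · rw [Finset.insert_comm b c]
  · exact ⟨a, b, c, d, ha, hb, hc, hd, ⟨hab, hac, had, hbc, hbd, hcd⟩, h, rfl⟩

theorem noTie_of_gn {X : Finset HP} (hX : Pg X) {h : ℂ → ℝ} (hg : Gn X h) : NoTie X h := by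
  classical
  intro σ x _ T hT h4
  by_contra hcon
  push Not at hcon
  obtain ⟨a, b, c, d, ha, hb, hc, hd, hn, hdt, rfl⟩ := exists_ne4 hX hT h4
  exact (gn_iff X h).1 hg a ha b hb c hc d hd hn hdt
    (lm_zero_of_touch (hcon a (by simp)) (hcon b (by simp)) (hcon c (by simp)) (hcon d (by simp)))

/-! ### Coercivity -/

theorem coercive {X : Finset HP} (hX : Pg X) : ∃ c > 0, ∀ v : ℂ, ∃ s ∈ X, c * ‖v‖ ≤ ip s.1 v := by
  have hne : X.Nonempty := Finset.card_pos.1 (by have := hX.card; omega)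
  let φ : ℂ → ℝ := fun v => X.sup' hne fun s => ip s.1 v
  have hφ : Continuous φ := by
    refine Continuous.finset_sup'_apply hne fun s _ => ?_
    exact Pool.Agent.AEU.H55.continuous_ip s.1
  obtain ⟨v0, hv0, hmin⟩ := (isCompact_sphere (0 : ℂ) 1).exists_isMinOn
    ⟨1, by simp⟩ hφ.continuousOn
  have hv0' : ‖v0‖ = 1 := by simpa using hv0
  have hpos : 0 < φ v0 := by
    by_contra hcon
    push Not at hcon
    have hle : ∀ s ∈ X, ip s.1 v0 ≤ 0 := fun s hs =>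
      (Finset.le_sup' (fun s : HP => ip s.1 v0) hs).trans hcon
    obtain ⟨s0, hs0⟩ := hne
    obtain ⟨x0, hx0, hx0'⟩ := hX.side s0 hs0
    have hcl : ∀ t : ℝ, 0 ≤ t → x0 + (t : ℂ) * v0 ∈ Cl X := by
      intro t ht s hs
      have h1 : ip s.1 (x0 + (t : ℂ) * v0) = ip s.1 x0 + t * ip s.1 v0 := by
        rw [Pool.Agent.AEU.H55.ip_add, Pool.Agent.AEU.H55.ip_mul_ofReal]
      have h2 : ip s.1 x0 ≤ s.2 := by
        by_cases h3 : s = s0
        · rw [h3, hx0]
        · exact (hx0' s hs h3).le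
      have h3 := mul_nonpos_of_nonneg_of_nonpos ht (hle s hs)
      show ip s.1 (x0 + (t : ℂ) * v0) ≤ s.2
      rw [h1]; linarith
    obtain ⟨M, hM⟩ := hX.bdd.exists_norm_le
    have h1 := hM _ (hcl (M + ‖x0‖ + 1) (by
      have h2 := hM _ (hcl 0 le_rfl)
      simp only [ofReal_zero, zero_mul, add_zero] at h2
      have := norm_nonneg x0
      linarith))
    have h2 : ‖((M + ‖x0‖ + 1 : ℝ) : ℂ) * v0‖ ≤ ‖x0 + ((M + ‖x0‖ + 1 : ℝ) : ℂ) * v0‖ + ‖x0‖ := by
      have := norm_sub_le (x0 + ((M + ‖x0‖ + 1 : ℝ) : ℂ) * v0) x0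
      simpa using this
    rw [norm_mul, hv0', mul_one, norm_real, Real.norm_eq_abs] at h2
    have h3 := le_abs_self (M + ‖x0‖ + 1)
    linarith
  refine ⟨φ v0, hpos, fun v => ?_⟩
  by_cases hv : v = 0
  · obtain ⟨s0, hs0⟩ := hne
    refine ⟨s0, hs0, ?_⟩
    rw [hv, norm_zero, mul_zero]
    simp [ip]
  · have hn : 0 < ‖v‖ := norm_pos_iff.2 hv
    have hmem : ((‖v‖⁻¹ : ℝ) : ℂ) * v ∈ Metric.sphere (0 : ℂ) 1 := by
      rw [mem_sphere_zero_iff_norm, norm_mul, norm_real, norm_inv, norm_norm,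
        inv_mul_cancel₀ hn.ne']
    have h1 : φ v0 ≤ φ (((‖v‖⁻¹ : ℝ) : ℂ) * v) := hmin hmem
    obtain ⟨s, hs, hs'⟩ := X.exists_mem_eq_sup' hne
      (fun s => ip s.1 (((‖v‖⁻¹ : ℝ) : ℂ) * v))
    refine ⟨s, hs, ?_⟩
    have h2 : φ v0 ≤ ip s.1 (((‖v‖⁻¹ : ℝ) : ℂ) * v) := h1.trans_eq hs'
    rw [Pool.Agent.AEU.H55.ip_mul_ofReal] at h2
    have h3 := mul_le_mul_of_nonneg_right h2 hn.le
    have h4 : ‖v‖⁻¹ * ip s.1 v * ‖v‖ = ip s.1 v := by field_simp
    rw [h4] at h3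
    exact h3

/-! ### Rotated sides -/

/-- rotation of the side `s` about its point `p s` by the angle `θ * r s` -/
noncomputable def rt (r : HP → ℝ) (p : HP → ℂ) (θ : ℝ) (s : HP) : HP :=
  (exp ((θ * r s : ℝ) * I) * s.1, ip (exp ((θ * r s : ℝ) * I) * s.1) (p s))

theorem rt_cont1 (r : HP → ℝ) (p : HP → ℂ) (s : HP) : Continuous fun θ : ℝ => (rt r p θ s).1 := by
  unfold rt
  fun_prop

theorem rt_cont2 (r : HP → ℝ) (p : HP → ℂ) (s : HP) : Continuous fun θ : ℝ => (rt r p θ s).2 := by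
  unfold rt ip
  fun_prop

theorem rt_norm (r : HP → ℝ) (p : HP → ℂ) (θ : ℝ) (s : HP) : ‖(rt r p θ s).1‖ = ‖s.1‖ := by
  unfold rt
  rw [norm_mul, norm_exp_ofReal_mul_I, one_mul]

theorem rt_zero {r : HP → ℝ} {p : HP → ℂ} {s : HP} (h : ip s.1 (p s) = s.2) :
    rt r p 0 s = s := by
  unfold rt
  simp [h]

theorem rt_pt (r : HP → ℝ) (p : HP → ℂ) (θ : ℝ) (s : HP) :
    ip (rt r p θ s).1 (p s) = (rt r p θ s).2 := rfl

/-- an inequality which holds in the limit holds eventually -/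
theorem ev_lt {f g : ℝ → ℝ} (hf : Continuous f) (hg : Continuous g) (h : f 0 < g 0) :
    ∀ᶠ θ in 𝓝[>] (0 : ℝ), f θ < g θ :=
  ((hf.tendsto 0).eventually_lt (hg.tendsto 0) h).filter_mono nhdsWithin_le_nhds

theorem ev_ne {f : ℝ → ℝ} (hf : Continuous f) (h : f 0 ≠ 0) :
    ∀ᶠ θ in 𝓝[>] (0 : ℝ), f θ ≠ 0 :=
  ((hf.tendsto 0).eventually (isOpen_ne.mem_nhds h)).filter_mono nhdsWithin_le_nhds

theorem cont_ip_fst (r : HP → ℝ) (p : HP → ℂ) (s : HP) (x : ℂ) :
    Continuous fun θ : ℝ => ip (rt r p θ s).1 x := by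
  have := rt_cont1 r p s
  unfold ip
  fun_prop

theorem cont_dt (r : HP → ℝ) (p : HP → ℂ) (s t : HP) :
    Continuous fun θ : ℝ => dt (rt r p θ s).1 (rt r p θ t).1 := by
  have h1 := rt_cont1 r p s
  have h2 := rt_cont1 r p t
  unfold dt
  fun_prop

theorem cont_D0 (r : HP → ℝ) (p : HP → ℂ) (a b c : HP) :
    Continuous fun θ : ℝ => D0 (rt r p θ a) (rt r p θ b) (rt r p θ c) := by
  have h1 := cont_dt r p a b
  have h2 := cont_dt r p b c
  have h3 := cont_dt r p c a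
  have h4 := rt_cont2 r p a
  have h5 := rt_cont2 r p b
  have h6 := rt_cont2 r p c
  unfold D0
  fun_prop

theorem cont_h (r : HP → ℝ) (p : HP → ℂ) {h : ℂ → ℝ} (hh : Continuous h) (a : HP) :
    Continuous fun θ : ℝ => h (rt r p θ a).1 := hh.comp (rt_cont1 r p a)

theorem cont_DD (r : HP → ℝ) (p : HP → ℂ) {h : ℂ → ℝ} (hh : Continuous h) (a b c : HP) :
    Continuous fun θ : ℝ => DD (rt r p θ a).1 (rt r p θ b).1 (rt r p θ c).1 h := by
  have h1 := cont_dt r p a b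
  have h2 := cont_dt r p b c
  have h3 := cont_dt r p c a
  have h4 := cont_h r p hh a
  have h5 := cont_h r p hh b
  have h6 := cont_h r p hh c
  unfold DD
  fun_prop

theorem cont_Lm (r : HP → ℝ) (p : HP → ℂ) {h : ℂ → ℝ} (hh : Continuous h) (a b c d : HP) :
    Continuous fun θ : ℝ => Lm (rt r p θ a) (rt r p θ b) (rt r p θ c) (rt r p θ d)
      (fun s => h s.1) := by
  have h1 := cont_D0 r p a b c
  have h2 := cont_D0 r p a b d
  have h3 := cont_DD r p hh a b c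
  have h4 := cont_DD r p hh a b d
  unfold DD at h3 h4
  unfold Lm
  fun_prop

/-- the assumptions on the data of the rotations -/
structure Rd (X : Finset HP) (r : HP → ℝ) (p : HP → ℂ) : Prop where
  pg : Pg X
  on : ∀ s ∈ X, ip s.1 (p s) = s.2
  ins : ∀ s ∈ X, ∀ t ∈ X, t ≠ s → ip t.1 (p s) < t.2
  inj : ∀ s ∈ X, ∀ t ∈ X, r s = r t → s = t

theorem exists_rd {X : Finset HP} (hX : Pg X) : ∃ r p, Rd X r p := by
  classical
  choose! p hp hp' using hX.side
  obtain ⟨f, hf⟩ := Set.countable_iff_exists_injOn.1 X.countable_toSet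
  refine ⟨fun s => f s, p, hX, hp, hp', fun s hs t ht h => ?_⟩
  exact hf hs ht (by exact_mod_cast h)

variable {X : Finset HP} {r : HP → ℝ} {p : HP → ℂ}

theorem Rd.zero (R : Rd X r p) {s : HP} (hs : s ∈ X) : rt r p 0 s = s := rt_zero (R.on s hs)

/-- the rotated sides are pairwise nonparallel -/
theorem Rd.nonpar (R : Rd X r p) : ∀ᶠ θ in 𝓝[>] (0 : ℝ), ∀ s ∈ X, ∀ t ∈ X, s ≠ t →
    dt (rt r p θ s).1 (rt r p θ t).1 ≠ 0 := by
  refine (Finset.eventually_all X).2 fun s hs => (Finset.eventually_all X).2 fun t ht => ?_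
  by_cases hst : s = t
  · exact Filter.Eventually.of_forall fun _ h => absurd hst h
  by_cases h0 : dt s.1 t.1 = 0
  · have h1 := opp_of_dt R.pg hs ht hst h0
    have hr : r t - r s ≠ 0 := fun h2 => hst (R.inj s hs t ht (by linarith))
    obtain ⟨d, hd⟩ : ∃ d, d = r t - r s := ⟨_, rfl⟩
    rw [← hd] at hr
    have hpi := Real.pi_pos
    have key : ∀ θ : ℝ, dt (rt r p θ s).1 (rt r p θ t).1 = -Real.sin (θ * d) := by
      intro θ
      have hn : s.1.re * s.1.re + s.1.im * s.1.im = 1 := by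
        rw [← normSq_apply, normSq_eq_norm_sq, R.pg.unit s hs]; norm_num
      have e1 : θ * d = θ * r t - θ * r s := by rw [hd]; ring
      rw [e1, Real.sin_sub]
      unfold rt dt
      simp only [h1, mul_re, mul_im, exp_ofReal_mul_I_re, exp_ofReal_mul_I_im, neg_re, neg_im]
      linear_combination (Real.cos (θ * r t) * Real.sin (θ * r s)
        - Real.sin (θ * r t) * Real.cos (θ * r s)) * hn
    have h2 : ∀ᶠ θ in 𝓝[>] (0 : ℝ), θ < Real.pi / |d| := by
      refine Filter.Eventually.filter_mono nhdsWithin_le_nhds ?_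
      exact gt_mem_nhds (by positivity)
    filter_upwards [h2, self_mem_nhdsWithin] with θ h3 h4 _
    have h4' : 0 < θ := h4
    rw [key, neg_ne_zero]
    have h5 : |θ * d| < Real.pi := by
      rw [abs_mul, abs_of_pos h4']
      rwa [lt_div_iff₀ (by positivity)] at h3
    have h6 : θ * d ≠ 0 := mul_ne_zero h4'.ne' hr
    intro h7
    have h8 := abs_lt.1 h5
    rcases lt_or_gt_of_ne h6 with h9 | h9
    · exact absurd h7 (Real.sin_neg_of_neg_of_neg_pi_lt h9 h8.1).ne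
    · exact absurd h7 (Real.sin_pos_of_pos_of_lt_pi h9 h8.2).ne'
  · have h1 := ev_ne (cont_dt r p s t) (by rw [R.zero hs, R.zero ht]; exact h0)
    filter_upwards [h1] with θ h2 _
    exact h2

/-- the points of the sides -/
theorem Rd.inside (R : Rd X r p) : ∀ᶠ θ in 𝓝[>] (0 : ℝ), ∀ s ∈ X, ∀ t ∈ X, t ≠ s →
    ip (rt r p θ t).1 (p s) < (rt r p θ t).2 := by
  refine (Finset.eventually_all X).2 fun s hs => (Finset.eventually_all X).2 fun t ht => ?_
  by_cases hst : t = s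
  · exact Filter.Eventually.of_forall fun _ h => absurd hst h
  · have h1 := ev_lt (cont_ip_fst r p t (p s)) (rt_cont2 r p t)
      (by rw [R.zero ht]; exact R.ins s hs t ht hst)
    filter_upwards [h1] with θ h2 _
    exact h2

theorem Rd.coer (R : Rd X r p) : ∃ c > 0, ∀ᶠ θ in 𝓝[>] (0 : ℝ), ∀ v : ℂ, ∃ s ∈ X,
    c * ‖v‖ ≤ ip (rt r p θ s).1 v := by
  obtain ⟨c, hc, h⟩ := coercive R.pg
  refine ⟨c / 2, by positivity, ?_⟩
  have h1 : ∀ᶠ θ in 𝓝[>] (0 : ℝ), ∀ s ∈ X, ‖(rt r p θ s).1 - s.1‖ < c / 2 := by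
    refine (Finset.eventually_all X).2 fun s hs => ?_
    have hcont : Continuous fun θ : ℝ => ‖(rt r p θ s).1 - s.1‖ := by
      have := rt_cont1 r p s
      fun_prop
    refine ev_lt hcont continuous_const ?_
    rw [R.zero hs, sub_self, norm_zero]
    positivity
  filter_upwards [h1] with θ h2 v
  obtain ⟨s, hs, h3⟩ := h v
  refine ⟨s, hs, ?_⟩
  have h4 : ip (rt r p θ s).1 v = ip s.1 v - ip (s.1 - (rt r p θ s).1) v := by
    simp only [ip, sub_re, sub_im]; ring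
  have h5 := ip_le_norm (s.1 - (rt r p θ s).1) v
  have h6 := h2 s hs
  rw [norm_sub_rev] at h6
  have h7 := norm_nonneg v
  rw [h4]
  nlinarith

theorem injOn_of_inside {θ : ℝ} (h : ∀ s ∈ X, ∀ t ∈ X, t ≠ s →
    ip (rt r p θ t).1 (p s) < (rt r p θ t).2) : Set.InjOn (rt r p θ) X := by
  intro s hs t ht hst
  by_contra hne
  have h1 := h s hs t ht (Ne.symm hne)
  rw [← hst, rt_pt] at h1
  exact lt_irrefl _ h1

open Classical in
/-- the rotated polygon is a polygon without parallel sides -/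
theorem Rd.pgX (R : Rd X r p) : ∀ᶠ θ in 𝓝[>] (0 : ℝ), Pg (X.image (rt r p θ)) ∧
    Nonpar (X.image (rt r p θ)) ∧ Set.InjOn (rt r p θ) X := by
  obtain ⟨c, hc, hcoer⟩ := R.coer
  filter_upwards [R.nonpar, R.inside, hcoer] with θ h1 h2 h3
  have hinj := injOn_of_inside h2
  refine ⟨⟨?_, ?_, ?_, ?_⟩, ?_, hinj⟩
  · intro s' hs'
    obtain ⟨s, hs, rfl⟩ := Finset.mem_image.1 hs'
    rw [rt_norm]; exact R.pg.unit s hs
  · intro s' hs'
    obtain ⟨s, hs, rfl⟩ := Finset.mem_image.1 hs'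
    refine ⟨p s, rt_pt r p θ s, ?_⟩
    intro t' ht' hne
    obtain ⟨t, ht, rfl⟩ := Finset.mem_image.1 ht'
    exact h2 s hs t ht fun h => hne (by rw [h])
  · obtain ⟨M, hM⟩ : ∃ M : ℝ, ∀ s ∈ X, (rt r p θ s).2 ≤ M := by
      obtain ⟨M, hM⟩ := (X.finite_toSet.image fun s => (rt r p θ s).2).bddAbove
      exact ⟨M, fun s hs => hM ⟨s, hs, rfl⟩⟩
    refine (Metric.isBounded_closedBall (x := (0 : ℂ)) (r := M / c)).subset ?_
    intro x hx
    rw [mem_closedBall_zero_iff, le_div_iff₀ hc]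
    obtain ⟨s, hs, h4⟩ := h3 x
    have h5 := hx (rt r p θ s) (Finset.mem_image_of_mem _ hs)
    have h6 := hM s hs
    linarith
  · rw [Finset.card_image_of_injOn hinj]; exact R.pg.card
  · intro s' hs' t' ht' hne
    obtain ⟨s, hs, rfl⟩ := Finset.mem_image.1 hs'
    obtain ⟨t, ht, rfl⟩ := Finset.mem_image.1 ht'
    exact h1 s hs t ht fun h => hne (by rw [h])

open Classical in
/-- the rotated polygon has no ties -/
theorem Rd.noTie (R : Rd X r p) {h : ℂ → ℝ} (hh : Continuous h) (hg : Gn X h) :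
    ∀ᶠ θ in 𝓝[>] (0 : ℝ), NoTie (X.image (rt r p θ)) h := by
  have h1 : ∀ᶠ θ in 𝓝[>] (0 : ℝ), ∀ a ∈ X, ∀ b ∈ X, ∀ c ∈ X, ∀ d ∈ X, Ne4 a b c d →
      dt a.1 b.1 ≠ 0 → Lm (rt r p θ a) (rt r p θ b) (rt r p θ c) (rt r p θ d)
        (fun s => h s.1) ≠ 0 := by
    refine (Finset.eventually_all X).2 fun a ha => (Finset.eventually_all X).2 fun b hb =>
      (Finset.eventually_all X).2 fun c hc => (Finset.eventually_all X).2 fun d hd => ?_
    by_cases hn : Ne4 a b c d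
    swap
    · exact Filter.Eventually.of_forall fun _ h1 => absurd h1 hn
    by_cases hdt : dt a.1 b.1 ≠ 0
    swap
    · exact Filter.Eventually.of_forall fun _ _ h1 => absurd h1 hdt
    have h2 := ev_ne (cont_Lm r p hh a b c d) (by
      rw [R.zero ha, R.zero hb, R.zero hc, R.zero hd]
      exact (gn_iff X h).1 hg a ha b hb c hc d hd hn hdt)
    filter_upwards [h2] with θ h3 _ _
    exact h3
  filter_upwards [h1, R.pgX] with θ h2 h3
  intro σ x _ T hT h4
  by_contra hcon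
  push Not at hcon
  obtain ⟨T', hT', rfl⟩ := Finset.subset_image_iff.1 hT
  have h5 : T'.card = 4 := by
    rw [← h4, Finset.card_image_of_injOn (h3.2.2.mono hT')]
  obtain ⟨a, b, c, d, ha, hb, hc, hd, hn, hdt, rfl⟩ := exists_ne4 R.pg (by exact_mod_cast hT') h5
  have hm : ∀ s ∈ ({a, b, c, d} : Finset HP),
      σ * h (rt r p θ s).1 + ip (rt r p θ s).1 x = (rt r p θ s).2 := fun s hs =>
    hcon _ (Finset.mem_image_of_mem _ hs)
  exact h2 a ha b hb c hc d hd hn hdt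
    (lm_zero_of_touch (hm a (by simp)) (hm b (by simp)) (hm c (by simp)) (hm d (by simp)))

end H53

end Pool.Agent.XQ
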