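import Pool.Agent.Helper53_XQ.GEO
import Pool.Agent.Helper84_XQ.Pol4

/-!
Squad XQ, part E4, module GB1 (helper53): actual loops with the pattern `P2` which visit the
avoided label are long.
-/

set_option autoImplicit false

namespace Pool.Agent.XQ.K4.H53

open MeasureTheory Complex Filter Topology ProbabilityTheory Pool.Agent.H16Iso Pool.Agent.H62T
  Pool.Agent.H16F Pool.Agent.H38KL Pool.Agent.AEU
open scoped ENNReal NNReal

/-- reflection -/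
noncomputable def rr (u : ℂ) (h : ℝ) (x : ℂ) : ℂ := x - ((2 * (ip u x - h) : ℝ) : ℂ) * u

theorem norm_le_of_sq {a b : ℂ} {t : ℝ} (ht : 0 ≤ t) (h : ‖a‖ ^ 2 ≤ (‖b‖ + t) ^ 2) :
    ‖a‖ ≤ ‖b‖ + t := by
  have h1 : 0 ≤ ‖b‖ + t := by positivity
  exact (abs_le_of_sq_le_sq' h h1).2

theorem ip_le_norm (u z : ℂ) (hu : ‖u‖ = 1) : |ip u z| ≤ ‖z‖ := by
  have hu2 := sq_norm u
  rw [hu] at hu2
  have h1 : ip u z ^ 2 ≤ ‖z‖ ^ 2 := by
    rw [sq_norm z]
    simp only [ip]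
    nlinarith [sq_nonneg (u.re * z.im - u.im * z.re), sq_nonneg z.re, sq_nonneg z.im]
  exact abs_le_of_sq_le_sq h1 (norm_nonneg _)

theorem rr_sub_sq (u a b : ℂ) (h : ℝ) (hu : ‖u‖ = 1) :
    ‖rr u h a - b‖ ^ 2 = ‖a - b‖ ^ 2 - 4 * (ip u a - h) * (h - ip u b) := by
  have hu2 := sq_norm u
  rw [hu] at hu2
  rw [sq_norm, sq_norm]
  simp only [rr, ip, sub_re, sub_im, mul_re, mul_im, ofReal_re, ofReal_im]
  have h3 : u.im ^ 2 = 1 - u.re ^ 2 := by linarith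
  ring_nf
  simp only [h3, show u.im ^ 3 = u.im * u.im ^ 2 by ring, show u.im ^ 4 = u.im ^ 2 * u.im ^ 2 by ring]
  ring

theorem rr_rr_sub (u a b : ℂ) (h : ℝ) (hu : ‖u‖ = 1) : ‖rr u h a - rr u h b‖ = ‖a - b‖ := by
  have hu2 := sq_norm u
  rw [hu] at hu2
  have h1 : ‖rr u h a - rr u h b‖ ^ 2 = ‖a - b‖ ^ 2 := by
    rw [sq_norm, sq_norm]
    simp only [rr, ip, sub_re, sub_im, mul_re, mul_im, ofReal_re, ofReal_im]
    have h3 : u.im ^ 2 = 1 - u.re ^ 2 := by linarith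
    ring_nf
    simp only [h3, show u.im ^ 3 = u.im * u.im ^ 2 by ring,
      show u.im ^ 4 = u.im ^ 2 * u.im ^ 2 by ring]
    ring
  exact (sq_eq_sq₀ (norm_nonneg _) (norm_nonneg _)).mp h1

theorem rr_ip (u : ℂ) (h : ℝ) (x : ℂ) (hu : ‖u‖ = 1) : ip u (rr u h x) = 2 * h - ip u x := by
  have hu2 := sq_norm u
  rw [hu] at hu2
  have h1 : ip u (rr u h x) = ip u x - 2 * (ip u x - h) * (u.re ^ 2 + u.im ^ 2) := by
    simp only [rr, ip, sub_re, sub_im, mul_re, mul_im, ofReal_re, ofReal_im]; ring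
  rw [h1, ← hu2]; ring

/-- a path which visits the line is reflected -/
theorem leg (u : ℂ) (h δ T : ℝ) (a b z p : ℂ) (hu : ‖u‖ = 1) (hδ : 0 ≤ δ) (ha : ip u a < h)
    (hb : h - δ ≤ ip u b) (hT : ‖a - z‖ + ‖z - b‖ + ‖b - p‖ ≤ T) :
    ∃ z' : ℂ, (z' = z ∨ z' = rr u h z) ∧ h ≤ ip u z' ∧
      ‖rr u h a - z'‖ + ‖z' - p‖ ≤ T + 2 * δ := by
  by_cases hz : h ≤ ip u z
  · refine ⟨z, Or.inl rfl, hz, ?_⟩
    have h1 : ‖rr u h a - z‖ ≤ ‖a - z‖ + 0 := by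
      apply norm_le_of_sq le_rfl
      rw [rr_sub_sq _ _ _ _ hu]
      nlinarith only [ha, hz]
    have h2 : ‖z - p‖ ≤ ‖z - b‖ + ‖b - p‖ := by
      have := norm_add_le (z - b) (b - p)
      simpa using this
    linarith
  · push Not at hz
    refine ⟨rr u h z, Or.inr rfl, ?_, ?_⟩
    · rw [rr_ip _ _ _ hu]; linarith
    · have h1 := rr_rr_sub u a z h hu
      have h2 : ‖rr u h z - b‖ ≤ ‖z - b‖ + 2 * δ := by
        apply norm_le_of_sq (by positivity)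
        rw [rr_sub_sq _ _ _ _ hu]
        have h3 : |ip u (z - b)| ≤ ‖z - b‖ := ip_le_norm _ _ hu
        have h4 : ip u (z - b) = ip u z - ip u b := by
          simp only [ip, sub_re, sub_im]; ring
        rw [h4] at h3
        have h5 := (abs_le.mp h3).1
        have h6 := norm_nonneg (z - b)
        by_cases hh : h ≤ ip u b
        · nlinarith only [hδ, hb, h5, hz]
        · push Not at hh
          have h7 : h - ip u z ≤ ‖z - b‖ + δ := by linarith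
          have h8 : (h - ip u z) * (h - ip u b) ≤ (‖z - b‖ + δ) * δ :=
            mul_le_mul h7 (by linarith) (by linarith) (by positivity)
          linarith only [h8]
      have h3 : ‖rr u h z - p‖ ≤ ‖rr u h z - b‖ + ‖b - p‖ := by
        have := norm_add_le (rr u h z - b) (b - p)
        simpa using this
      rw [h1]; linarith

/-- thin ellipses -/
theorem thin (e a z p : ℂ) (ℓ κ μ : ℝ) (he : ‖e‖ = 1) (hκ : 0 < κ) (hμ : 0 < μ)
    (h8 : μ ≤ κ / 8) (h9 : μ ≤ 1) (h10 : 8 * μ * (ℓ + 1) ≤ κ ^ 2 / 4) (ha1 : ℓ - μ ≤ ip e a)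
    (ha2 : ip e a ≤ ℓ + μ) (hp : ‖p‖ ≤ μ) (hs : ‖a - z‖ + ‖z - p‖ ≤ ℓ + μ) :
    ∃ s τ : ℝ, z = e * (s + τ * I) ∧ s ≤ ℓ + κ ∧ |τ| ≤ κ := by
  have he2 := sq_norm e
  rw [he] at he2
  refine ⟨ip e z, ip (I * e) z, ?_, ?_, ?_⟩
  · apply Complex.ext
    · simp only [ip, mul_re, mul_im, add_re, add_im, ofReal_re, ofReal_im, I_re, I_im]
      linear_combination z.re * he2
    · simp only [ip, mul_re, mul_im, add_re, add_im, ofReal_re, ofReal_im, I_re, I_im]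
      linear_combination z.im * he2
  · have h1 : |ip e (a - z)| ≤ ‖a - z‖ := ip_le_norm _ _ he
    have h2 : ip e (a - z) = ip e a - ip e z := by simp only [ip, sub_re, sub_im]; ring
    have h3 : |ip e (z - p)| ≤ ‖z - p‖ := ip_le_norm _ _ he
    have h4 : ip e (z - p) = ip e z - ip e p := by simp only [ip, sub_re, sub_im]; ring
    have h5 : |ip e p| ≤ ‖p‖ := ip_le_norm _ _ he
    have h6 := abs_le.mp h1
    have h7 := abs_le.mp h3
    have h11 := abs_le.mp h5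
    rw [h4] at h7
    have := norm_nonneg (a - z)
    linarith only [h8, hp, hs, h6, h11, h7.2, h11.2]
  · have h1 : |ip e (a - z)| ≤ ‖a - z‖ := ip_le_norm _ _ he
    have h2 : ip e (a - z) = ip e a - ip e z := by simp only [ip, sub_re, sub_im]; ring
    have h3 : |ip e (z - p)| ≤ ‖z - p‖ := ip_le_norm _ _ he
    have h4 : ip e (z - p) = ip e z - ip e p := by simp only [ip, sub_re, sub_im]; ring
    have h5 : |ip e p| ≤ ‖p‖ := ip_le_norm _ _ he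
    have h6 := abs_le.mp h1
    have h7 := abs_le.mp h3
    have h11 := abs_le.mp h5
    have hIe : ‖I * e‖ = 1 := by rw [norm_mul, he]; simp
    have h12 : |ip (I * e) p| ≤ ‖p‖ := ip_le_norm _ _ hIe
    have h13 : ‖z - p‖ ^ 2 = ip e (z - p) ^ 2 + ip (I * e) (z - p) ^ 2 := by
      rw [sq_norm]
      simp only [ip, mul_re, mul_im, I_re, I_im, sub_re, sub_im]
      linear_combination ((z.re - p.re) ^ 2 + (z.im - p.im) ^ 2) * he2
    have h14 : ‖z - p‖ - ip e (z - p) ≤ 3 * μ := by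
      have h15 : ip e a - ip e z ≤ ‖a - z‖ := by rw [← h2]; exact h6.2
      rw [h4]
      linarith only [ha1, hp, hs, h2, h6, h11.1, h11.2]
    have h16 : ‖z - p‖ ≤ ℓ + 1 := by have := norm_nonneg (a - z); linarith
    have h17 : ip (I * e) (z - p) ^ 2 ≤ (κ / 2) ^ 2 := by
      have h18 : ip (I * e) (z - p) ^ 2 = (‖z - p‖ - ip e (z - p)) * (‖z - p‖ + ip e (z - p)) := by
        linear_combination (-1 : ℝ) * h13
      have h19 : 0 ≤ ‖z - p‖ + ip e (z - p) := by linarith [h7.1]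
      have h20 : ‖z - p‖ + ip e (z - p) ≤ 2 * (ℓ + 1) := by linarith only [h9, hs, h6, h7.2]
      have h21 : 0 ≤ ‖z - p‖ - ip e (z - p) := by linarith [h7.2]
      rw [h18]
      calc (‖z - p‖ - ip e (z - p)) * (‖z - p‖ + ip e (z - p)) ≤ (3 * μ) * (2 * (ℓ + 1)) :=
            mul_le_mul h14 h20 h19 (by positivity)
        _ ≤ (κ / 2) ^ 2 := by nlinarith only [h10]
    have h22 : |ip (I * e) (z - p)| ≤ κ / 2 := abs_le_of_sq_le_sq h17 (by positivity)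
    have h23 : ip (I * e) (z - p) = ip (I * e) z - ip (I * e) p := by
      simp only [ip, sub_re, sub_im]; ring
    rw [h23] at h22
    have h24 := abs_le.mp h22
    have h25 := abs_le.mp h12
    rw [abs_le]
    constructor <;> linarith [h24.1, h24.2, h25.1, h25.2]

/-- six points of a closed polygon -/
theorem chain6 {n : ℕ} [NeZero n] (x : Fin n → ℂ) (a b c d : ℕ) (h1 : 1 ≤ a) (h2 : a ≤ b)
    (h3 : b ≤ c) (h4 : c ≤ d) (h5 : d < n) :
    ‖x 0 - x 1‖ + ‖x 1 - x (Fin.ofNat n a)‖ + ‖x (Fin.ofNat n a) - x (Fin.ofNat n b)‖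
      + ‖x (Fin.ofNat n b) - x (Fin.ofNat n c)‖ + ‖x (Fin.ofNat n c) - x (Fin.ofNat n d)‖
      + ‖x (Fin.ofNat n d) - x 0‖ ≤ Pl x := by
  have hm : Monotone (![0, 1, a, b, c, d] : Fin (5 + 1) → ℕ) := by
    rw [Fin.monotone_iff_le_succ]
    intro l
    fin_cases l
    · exact Nat.zero_le _
    · exact h1
    · exact h2
    · exact h3
    · exact h4
  have := H84.pol1' x 5 ![0, 1, a, b, c, d] hm h5
  rw [Fin.sum_univ_five] at this
  exact this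

theorem mi_aff (δ1 δ2 ρ r : ℝ) (x y : ℂ) :
    mi δ1 δ2 ρ (((1 - r : ℝ) : ℂ) * x + (r : ℂ) * y)
      = ((1 - r : ℝ) : ℂ) * mi δ1 δ2 ρ x + (r : ℂ) * mi δ1 δ2 ρ y := by
  have h1 : ip (exp (δ1 * I)) (((1 - r : ℝ) : ℂ) * x + (r : ℂ) * y)
      = (1 - r) * ip (exp (δ1 * I)) x + r * ip (exp (δ1 * I)) y := by
    simp only [ip, add_re, add_im, mul_re, mul_im, ofReal_re, ofReal_im]; ring
  unfold mi rfq
  rw [h1]
  push_cast
  ring

/-- points near the middle leg -/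
theorem affb (hP : PteStatement) (δ1 δ2 ρ : ℝ) (hy : HyL δ1 δ2 ρ) (v : ℂ) (c t1 t2 : ℝ)
    (hv : ‖v‖ = 1) (ht2 : 0 ≤ t2) (hQ : ip v (Qp δ1 δ2 ρ) ≤ -c) (hR : ip v (Rp δ1 δ2 ρ) ≤ -c)
    (z : ℂ) (h1 : |(mi δ1 δ2 ρ z).im| ≤ t1) (h2 : sq δ1 δ2 ρ - t2 ≤ (mi δ1 δ2 ρ z).re)
    (h3 : (mi δ1 δ2 ρ z).re ≤ LE δ1 δ2 ρ - sr δ1 δ2 ρ + t2) : ip v z ≤ -c + t1 + t2 := by
  obtain ⟨p1, p2, p3, p4, p5, p6, p7, p8, p9, p10, p11, p12, p13, p14⟩ := hP δ1 δ2 ρ hy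
  obtain ⟨r, hr1, hr2, hr3⟩ : ∃ r : ℝ, sq δ1 δ2 ρ ≤ r ∧ r ≤ LE δ1 δ2 ρ - sr δ1 δ2 ρ ∧
      |(mi δ1 δ2 ρ z).re - r| ≤ t2 := by
    by_cases ha : (mi δ1 δ2 ρ z).re < sq δ1 δ2 ρ
    · exact ⟨sq δ1 δ2 ρ, le_rfl, p5.le, by rw [abs_le]; constructor <;> linarith⟩
    · push Not at ha
      by_cases hb : LE δ1 δ2 ρ - sr δ1 δ2 ρ < (mi δ1 δ2 ρ z).re
      · exact ⟨_, p5.le, le_rfl, by rw [abs_le]; constructor <;> linarith⟩
      · push Not at hb
        exact ⟨_, ha, hb, by simpa using ht2⟩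
  set D := LE δ1 δ2 ρ - sr δ1 δ2 ρ - sq δ1 δ2 ρ with hD
  have hDpos : 0 < D := by linarith
  set l := (r - sq δ1 δ2 ρ) / D with hl
  have hl0 : 0 ≤ l := div_nonneg (by linarith) hDpos.le
  have hl1 : l ≤ 1 := by rw [hl, div_le_one hDpos]; linarith
  set z' : ℂ := ((1 - l : ℝ) : ℂ) * Qp δ1 δ2 ρ + (l : ℂ) * Rp δ1 δ2 ρ with hz'
  have hm : mi δ1 δ2 ρ z' = (r : ℂ) := by
    rw [hz', mi_aff, p11, p12]
    have h4 : (1 - l) * sq δ1 δ2 ρ + l * (LE δ1 δ2 ρ - sr δ1 δ2 ρ) = r := by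
      have h5 : l * D = r - sq δ1 δ2 ρ := by rw [hl]; field_simp
      have h6 : (1 - l) * sq δ1 δ2 ρ + l * (LE δ1 δ2 ρ - sr δ1 δ2 ρ)
        = sq δ1 δ2 ρ + l * D := by rw [hD]; ring
      rw [h6, h5]; ring
    rw [← h4]; push_cast; ring
  have h5 : ‖z - z'‖ ≤ t1 + t2 := by
    rw [← p13, hm]
    have h6 := Complex.norm_le_abs_re_add_abs_im (mi δ1 δ2 ρ z - (r : ℂ))
    have h7 : (mi δ1 δ2 ρ z - (r : ℂ)).re = (mi δ1 δ2 ρ z).re - r := by simp
    have h8 : (mi δ1 δ2 ρ z - (r : ℂ)).im = (mi δ1 δ2 ρ z).im := by simp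
    rw [h7, h8] at h6
    linarith only [h1, hr3, h6]
  have h6 : ip v z = ip v z' + ip v (z - z') := by simp only [ip, sub_re, sub_im]; ring
  have h7 := (abs_le.mp (ip_le_norm v (z - z') hv)).2
  have h8 : ip v z' = (1 - l) * ip v (Qp δ1 δ2 ρ) + l * ip v (Rp δ1 δ2 ρ) := by
    rw [hz']
    simp only [ip, add_re, add_im, mul_re, mul_im, ofReal_re, ofReal_im]; ring
  have h9 : (1 - l) * ip v (Qp δ1 δ2 ρ) ≤ (1 - l) * -c :=
    mul_le_mul_of_nonneg_left hQ (by linarith only [hl1])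
  have h10 : l * ip v (Rp δ1 δ2 ρ) ≤ l * -c := mul_le_mul_of_nonneg_left hR hl0
  rw [h6, h8]
  linarith only [h5, h7, h9, h10]

/-- points near a leg at the vertex, beyond the line -/
theorem legb (e u v : ℂ) (s0 σ κ τ s cu : ℝ) (he : ‖e‖ = 1) (hu : ‖u‖ = 1) (hv : ‖v‖ = 1)
    (hcu : cu = ip u e) (hcu0 : 0 < cu) (hσ : ip v e = -σ) (hσ0 : 0 < σ)
    (hτ : |τ| ≤ κ) (hs : s0 * cu ≤ ip u (e * (s + τ * I))) :
    s0 - κ / cu ≤ s ∧ ip v (e * (s + τ * I)) ≤ -(s0 * σ) + κ * (σ / cu + 1) := by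
  have hIe : ‖I * e‖ = 1 := by rw [norm_mul, he]; simp
  have h1 : ∀ w : ℂ, ip w (e * (s + τ * I)) = s * ip w e + τ * ip w (I * e) := by
    intro w
    simp only [ip, mul_re, mul_im, add_re, add_im, ofReal_re, ofReal_im, I_re, I_im]; ring
  have h2 : ∀ w : ℂ, ‖w‖ = 1 → τ * ip w (I * e) ≤ κ := by
    intro w hw
    have h3 := ip_le_norm w (I * e) hw
    rw [hIe] at h3
    calc τ * ip w (I * e) ≤ |τ * ip w (I * e)| := le_abs_self _
      _ = |τ| * |ip w (I * e)| := abs_mul _ _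
      _ ≤ κ * 1 := mul_le_mul hτ h3 (abs_nonneg _) ((abs_nonneg _).trans hτ)
      _ = κ := mul_one _
  have h4 : s0 * cu ≤ s * cu + κ := by
    rw [h1 u, ← hcu] at hs
    have := h2 u hu
    linarith
  have h5 : s0 - κ / cu ≤ s := by
    have h6 : (s0 - κ / cu) * cu ≤ s * cu := by
      have : (s0 - κ / cu) * cu = s0 * cu - κ := by field_simp
      rw [this]; linarith
    exact le_of_mul_le_mul_right h6 hcu0
  refine ⟨h5, ?_⟩
  rw [h1 v, hσ]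
  have h6 := h2 v hv
  have h7 : (s0 - κ / cu) * σ ≤ s * σ := mul_le_mul_of_nonneg_right h5 hσ0.le
  have h8 : (s0 - κ / cu) * σ = s0 * σ - κ * (σ / cu) := by ring
  rw [h8] at h7
  linarith only [h6, h7]

theorem ip_self_mul (e w : ℂ) (he : ‖e‖ = 1) : ip e (e * w) = w.re := by
  have he2 := sq_norm e
  rw [he] at he2
  simp only [ip, mul_re, mul_im]
  linear_combination (-w.re) * he2

theorem gb1 (hV : VchStatement) (hP : PteStatement) : Gb1Statement := by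
  intro η1 η2 δ1 δ2 ρ hy
  have hyL : HyL δ1 δ2 ρ := hy.toHyL
  obtain ⟨ζ1, hζ1, hwin⟩ := win hP δ1 δ2 ρ hyL
  obtain ⟨p1, p2, p3, p4, p5, p6, p7, p8, p9, p10, p11, p12, p13, p14⟩ := hP δ1 δ2 ρ hyL
  set γ := gE δ1 δ2 with hγ
  set L := LE δ1 δ2 ρ with hL
  set sQ := sq δ1 δ2 ρ with hsQ
  set sR := sr δ1 δ2 ρ with hsR
  set ξ := xiE δ1 δ2 ρ with hξ
  have hLpos : 0 < L := by linarith
  have ha : ‖exp (-(γ * I))‖ = 1 := by
    have : (-(γ * I) : ℂ) = ((-γ : ℝ) : ℂ) * I := by push_cast; ring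
    rw [this]; exact norm_exp_ofReal_mul_I _
  have hb : ‖exp (γ * I)‖ = 1 := norm_exp_ofReal_mul_I _
  have hu2 : ‖exp (δ1 * I)‖ = 1 := norm_exp_ofReal_mul_I _
  have hu3 : ‖exp (δ2 * I)‖ = 1 := norm_exp_ofReal_mul_I _
  have hcos1 : 0 < Real.cos δ1 :=
    Real.cos_pos_of_mem_Ioo ⟨hyL.b1, by linarith [hyL.b2, Real.pi_pos]⟩
  have hcos2 : 0 < Real.cos δ2 :=
    Real.cos_pos_of_mem_Ioo ⟨by linarith [hyL.b3, Real.pi_pos], hyL.b4⟩
  obtain ⟨c2, hc2⟩ : ∃ c2, c2 = ip (exp (δ1 * I)) (exp (-(γ * I))) := ⟨_, rfl⟩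
  obtain ⟨c3, hc3⟩ : ∃ c3, c3 = ip (exp (δ2 * I)) (exp (γ * I)) := ⟨_, rfl⟩
  have hc2' : sQ * c2 = ip (exp (δ1 * I)) ρ := by
    rw [← p7, hc2]
    simp only [Qp, ip, mul_re, mul_im, ofReal_re, ofReal_im]; ring
  have hc3' : sR * c3 = ip (exp (δ2 * I)) ρ := by
    rw [← p8, hc3]
    simp only [Rp, ip, mul_re, mul_im, ofReal_re, ofReal_im]; ring
  have hc2pos : 0 < c2 := by
    have : 0 < sQ * c2 := by rw [hc2', ip_real]; exact mul_pos hyL.r hcos1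
    exact (mul_pos_iff_of_pos_left p3).mp this
  have hc3pos : 0 < c3 := by
    have : 0 < sR * c3 := by rw [hc3', ip_real]; exact mul_pos hyL.r hcos2
    exact (mul_pos_iff_of_pos_left p4).mp this
  obtain ⟨v, hv⟩ : ∃ v, v = uE η1 η2 δ1 δ2 1 := ⟨_, rfl⟩
  have hvn : ‖v‖ = 1 := by rw [hv]; exact uE_norm _ _ _ _ _
  have e1 : (exp (-(γ * I))).re = Real.cos γ ∧ (exp (-(γ * I))).im = -Real.sin γ := by
    have : (-(γ * I) : ℂ) = ((-γ : ℝ) : ℂ) * I := by push_cast; ring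
    rw [this, exp_ofReal_mul_I_re, exp_ofReal_mul_I_im, Real.cos_neg, Real.sin_neg]
    exact ⟨rfl, rfl⟩
  have e2 : v.re = -Real.sin η2 ∧ v.im = -Real.cos η2 := by
    have : (-(η2 * I) : ℂ) = ((-η2 : ℝ) : ℂ) * I := by push_cast; ring
    rw [hv]
    simp only [uE, this, Matrix.cons_val_one, Matrix.cons_val_zero, neg_re, neg_im, mul_re, mul_im,
      I_re, I_im, exp_ofReal_mul_I_re, exp_ofReal_mul_I_im, Real.cos_neg, Real.sin_neg]
    constructor <;> ring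
  have hη2 : η2 < Real.pi / 2 := by linarith [hy.a1, hy.a3]
  have hγη : γ < η2 := hy.c
  have hsq' : ip v (exp (-(γ * I))) = -Real.sin (η2 - γ) := by
    simp only [ip, e1.1, e1.2, e2.1, e2.2, Real.sin_sub]; ring
  have hsr' : ip v (exp (γ * I)) = -Real.sin (η2 + γ) := by
    simp only [ip, exp_ofReal_mul_I_re, exp_ofReal_mul_I_im, e2.1, e2.2, Real.sin_add]; ring
  obtain ⟨σq, hσq⟩ : ∃ σq, σq = Real.sin (η2 - γ) := ⟨_, rfl⟩
  obtain ⟨σr, hσr⟩ : ∃ σr, σr = Real.sin (η2 + γ) := ⟨_, rfl⟩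
  have hσqpos : 0 < σq := by
    rw [hσq]; exact Real.sin_pos_of_pos_of_lt_pi (by linarith) (by linarith [Real.pi_pos])
  have hσrpos : 0 < σr := by
    rw [hσr]; exact Real.sin_pos_of_pos_of_lt_pi (by linarith) (by linarith [Real.pi_pos])
  rw [← hσq] at hsq'
  rw [← hσr] at hsr'
  obtain ⟨c, hcpos, hcq, hcr⟩ : ∃ c : ℝ, 0 < c ∧ c ≤ sQ * σq ∧ c ≤ sR * σr :=
    ⟨min (sQ * σq) (sR * σr), by positivity, min_le_left _ _, min_le_right _ _⟩
  have hvQ : ip v (Qp δ1 δ2 ρ) ≤ -c := by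
    have : ip v (Qp δ1 δ2 ρ) = sQ * ip v (exp (-(γ * I))) := by
      simp only [Qp, ip, mul_re, mul_im, ofReal_re, ofReal_im]; ring
    rw [this, hsq']; linarith only [hcq]
  have hvR : ip v (Rp δ1 δ2 ρ) ≤ -c := by
    have : ip v (Rp δ1 δ2 ρ) = sR * ip v (exp (γ * I)) := by
      simp only [Rp, ip, mul_re, mul_im, ofReal_re, ofReal_im]; ring
    rw [this, hsr']; linarith only [hcr]
  obtain ⟨m, hm⟩ : ∃ m, m = (L - sR - sQ) / 2 := ⟨_, rfl⟩
  have hmpos : 0 < m := by rw [hm]; linarith only [p5]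
  have hξ1 : ξ = sQ + m := by rw [hξ, hm]; simp only [xiE]; ring
  have hξ2 : ξ = L - sR - m := by rw [hξ, hm]; simp only [xiE]; ring
  obtain ⟨κ, hκ, hκm, hκr, hκq, hκ3, hκ2⟩ : ∃ κ : ℝ, 0 < κ ∧ κ ≤ m ∧
      κ * (σr / c3 + 1) ≤ sR * σr / 2 ∧ κ * (σq / c2 + 1) ≤ sQ * σq / 2 ∧
      κ + κ / c3 ≤ c / 2 ∧ κ + κ / c2 ≤ c / 2 := by
    refine ⟨min m (min (sR * σr / 2 / (σr / c3 + 1)) (min (sQ * σq / 2 / (σq / c2 + 1))
      (min (c / 2 / (1 + 1 / c3)) (c / 2 / (1 + 1 / c2))))), by positivity, min_le_left _ _,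
      ?_, ?_, ?_, ?_⟩
    · rw [← le_div_iff₀ (by positivity)]
      exact (min_le_right _ _).trans (min_le_left _ _)
    · rw [← le_div_iff₀ (by positivity)]
      exact (min_le_right _ _).trans ((min_le_right _ _).trans (min_le_left _ _))
    · have h1 : ∀ t : ℝ, t + t / c3 = t * (1 + 1 / c3) := fun t => by ring
      rw [h1, ← le_div_iff₀ (by positivity)]
      exact (min_le_right _ _).trans ((min_le_right _ _).trans ((min_le_right _ _).trans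
        (min_le_left _ _)))
    · have h1 : ∀ t : ℝ, t + t / c2 = t * (1 + 1 / c2) := fun t => by ring
      rw [h1, ← le_div_iff₀ (by positivity)]
      exact (min_le_right _ _).trans ((min_le_right _ _).trans ((min_le_right _ _).trans
        (min_le_right _ _)))
  have hκc : κ ≤ c / 2 := by
    have : 0 < κ / c3 := by positivity
    linarith only [hκ3, this]
  obtain ⟨μ, hμ, hμ1, hμ2, hμ3⟩ : ∃ μ : ℝ, 0 < μ ∧ μ ≤ κ / 8 ∧ μ ≤ 1 ∧
      8 * μ * (L + 1) ≤ κ ^ 2 / 4 := by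
    refine ⟨min (κ / 8) (min 1 (κ ^ 2 / 4 / (8 * (L + 1)))), by positivity, min_le_left _ _,
      (min_le_right _ _).trans (min_le_left _ _), ?_⟩
    have h1 : min (κ / 8) (min 1 (κ ^ 2 / 4 / (8 * (L + 1)))) ≤ κ ^ 2 / 4 / (8 * (L + 1)) :=
      (min_le_right _ _).trans (min_le_right _ _)
    rw [le_div_iff₀ (by positivity)] at h1
    linarith only [h1]
  obtain ⟨δv, hδv, hvch⟩ := hV δ1 δ2 ρ (μ / 4) hyL (by positivity)
  have hsin : 0 < Real.sin (η1 + η2) :=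
    Real.sin_pos_of_pos_of_lt_pi (by linarith only [hy.a1, hy.a2, Real.pi_pos]) hy.a3
  refine ⟨min ζ1 (min δv κ), by positivity, ?_⟩
  intro ζ hζ hζ'
  have hζa : ζ < ζ1 := hζ'.trans_le (min_le_left _ _)
  have hζb : ζ < δv := hζ'.trans_le ((min_le_right _ _).trans (min_le_left _ _))
  have hζc : ζ < κ := hζ'.trans_le ((min_le_right _ _).trans (min_le_right _ _))
  refine ⟨min (μ / 4) (δv / 2), min ζ1 (min (μ / 20) (min (δv / 8) (min (c / 4) (min m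
    (δv * Real.sin (η1 + η2)))))), by positivity, by positivity, ?_⟩
  intro δ hδ hδ' n _ x A hn hB hC hS hx0 hx1
  have hd1 : δ < ζ1 := hδ'.trans_le (min_le_left _ _)
  have hd2 : δ < μ / 20 := hδ'.trans_le ((min_le_right _ _).trans (min_le_left _ _))
  have hd3 : δ < δv / 8 := hδ'.trans_le ((min_le_right _ _).trans ((min_le_right _ _).trans
    (min_le_left _ _)))
  have hd4 : δ < c / 4 := hδ'.trans_le ((min_le_right _ _).trans ((min_le_right _ _).trans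
    ((min_le_right _ _).trans (min_le_left _ _))))
  have hd5 : δ < m := hδ'.trans_le ((min_le_right _ _).trans ((min_le_right _ _).trans
    ((min_le_right _ _).trans ((min_le_right _ _).trans (min_le_left _ _)))))
  have hd6 : δ < δv * Real.sin (η1 + η2) := hδ'.trans_le ((min_le_right _ _).trans
    ((min_le_right _ _).trans ((min_le_right _ _).trans ((min_le_right _ _).trans
    (min_le_right _ _)))))
  obtain ⟨e0, he0⟩ : ∃ e0, e0 = min (μ / 4) (δv / 2) := ⟨_, rfl⟩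
  have he1 : e0 ≤ μ / 4 := by rw [he0]; exact min_le_left _ _
  have he2 : e0 ≤ δv / 2 := by rw [he0]; exact min_le_right _ _
  rw [← he0]
  by_contra hlt
  push Not at hlt
  obtain ⟨⟨k, m', hk, hm', hkm, hO, hEd⟩, j, hj⟩ := hB
  have hj1 : (1 : Fin 4) ∈ A j := by simpa using hj
  obtain ⟨l0, hkl, hlm, hl0⟩ := hO 0 (by simp)
  have hl1 : (1 : Fin 4) ∉ A (Fin.ofNat n l0) := by
    have := hEd l0 hkl hlm
    simpa using this
  obtain ⟨hk0, hkn, hk3, _⟩ := hk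
  obtain ⟨hm0, hmn, hm2, _⟩ := hm'
  obtain ⟨q1, _, q3⟩ := H84.pol.2.2.2.2 (uE η1 η2 δ1 δ2) (hE δ1 δ2 ρ) n x A
    (uE_norm η1 η2 δ1 δ2)
  obtain ⟨_, q4⟩ := q3 δ hS
  have hPl : Pl x < L + e0 := q1.trans_lt hlt
  obtain ⟨w1, w2, w3⟩ := hwin δ ζ hδ hd1 hζ hζa η1 η2
  obtain ⟨P, hPd⟩ : ∃ P, P = x (Fin.ofNat n l0) := ⟨_, rfl⟩
  obtain ⟨Xk, hXk⟩ : ∃ P, P = x (Fin.ofNat n k) := ⟨_, rfl⟩
  obtain ⟨Xm, hXm⟩ : ∃ P, P = x (Fin.ofNat n m') := ⟨_, rfl⟩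
  have r0 : ip (uE η1 η2 δ1 δ2 0) P > -δ := by
    have := q4 (Fin.ofNat n l0) 0 hl0
    rw [hPd]
    simpa [hE] using this
  have r1 : ip (uE η1 η2 δ1 δ2 1) P < 0 := by
    have := (hC (Fin.ofNat n l0) 1 hl1).1
    rw [hPd]
    simpa [hE] using this
  have r2 : hE δ1 δ2 ρ 2 - δ ≤ ip (exp (δ1 * I)) Xm := by
    have := q4 (Fin.ofNat n m') 2 hm2
    rw [hXm]
    simpa [uE] using this.le
  have r3 : hE δ1 δ2 ρ 3 - δ ≤ ip (exp (δ2 * I)) Xk := by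
    have := q4 (Fin.ofNat n k) 3 hk3
    rw [hXk]
    simpa [uE] using this.le
  have rj : -δ < ip v (x j) := by
    have := q4 j 1 hj1
    rw [hv]
    simpa [hE] using this
  have hPre : P.re ≤ δv := by
    have h1 : Real.cos η2 * ip (uE η1 η2 δ1 δ2 0) P + Real.cos η1 * ip (uE η1 η2 δ1 δ2 1) P
        = -(Real.sin (η1 + η2) * P.re) := by
      have e3 : (uE η1 η2 δ1 δ2 0).re = -Real.sin η1 ∧ (uE η1 η2 δ1 δ2 0).im = Real.cos η1 := by
        simp only [uE, Matrix.cons_val_zero, mul_re, mul_im, I_re, I_im, exp_ofReal_mul_I_re,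
          exp_ofReal_mul_I_im]
        constructor <;> ring
      rw [← hv]
      simp only [ip, e3.1, e3.2, e2.1, e2.2, Real.sin_add]
      ring
    have hcη2 : 0 < Real.cos η2 :=
      Real.cos_pos_of_mem_Ioo ⟨by linarith only [hy.a2, Real.pi_pos], hη2⟩
    have hcη1 : Real.cos η1 < 0 := by
      apply Real.cos_neg_of_pi_div_two_lt_of_lt hy.a1
      linarith only [hy.a2, hy.a3, Real.pi_pos]
    have h2 : -δ ≤ Real.cos η2 * ip (uE η1 η2 δ1 δ2 0) P := by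
      have h3 : Real.cos η2 * -δ ≤ Real.cos η2 * ip (uE η1 η2 δ1 δ2 0) P :=
        mul_le_mul_of_nonneg_left r0.le hcη2.le
      have h4 : Real.cos η2 * δ ≤ 1 * δ :=
        mul_le_mul_of_nonneg_right (Real.cos_le_one _) hδ.le
      linarith only [h3, h4]
    have h3 : 0 ≤ Real.cos η1 * ip (uE η1 η2 δ1 δ2 1) P :=
      mul_nonneg_of_nonpos_of_nonpos hcη1.le r1.le
    have h4 : Real.sin (η1 + η2) * P.re ≤ Real.sin (η1 + η2) * δv := by linarith only [hd6, h1, h2, h3]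
    exact le_of_mul_le_mul_left h4 hsin
  -- the points on the middle leg
  obtain ⟨g1, g2, g3⟩ := hx0
  obtain ⟨g4, g5, g6⟩ := hx1
  have g1' := abs_lt.mp g1
  have g4' := abs_lt.mp g4
  obtain ⟨y2, hy2⟩ : ∃ y, y = rr (exp (δ1 * I)) (hE δ1 δ2 ρ 2) (x 0) := ⟨_, rfl⟩
  obtain ⟨y3, hy3⟩ : ∃ y, y = rr (exp (δ2 * I)) (hE δ1 δ2 ρ 3) (x 1) := ⟨_, rfl⟩
  have rf2 : ∀ z : ℂ, rr (exp (δ1 * I)) (hE δ1 δ2 ρ 2) z
      = exp (-(γ * I)) * mi δ1 δ2 ρ z := by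
    intro z
    rw [← (p14 η1 η2 z).1]
    simp [rr, rf, uE]
  have rf3 : ∀ z : ℂ, rr (exp (δ2 * I)) (hE δ1 δ2 ρ 3) z
      = exp (γ * I) * (L - mi δ1 δ2 ρ z) := by
    intro z
    rw [← (p14 η1 η2 z).2.1]
    simp [rr, rf, uE]
  have hx0' : ip (exp (δ1 * I)) (x 0) < hE δ1 δ2 ρ 2 := by
    have := (w2 (x 0) ⟨g1, g2, g3⟩).1
    simpa [uE] using this
  have hx1' : ip (exp (δ2 * I)) (x 1) < hE δ1 δ2 ρ 3 := by
    have := (w2 (x 1) ⟨g4, g5, g6⟩).2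
    simpa [uE] using this
  have A1 : ‖y2 - P‖ ≤ ‖x 0 - Xm‖ + ‖Xm - P‖ + 2 * δ := by
    obtain ⟨z', _, _, h3⟩ := leg (exp (δ1 * I)) (hE δ1 δ2 ρ 2) δ (‖x 0 - Xm‖ + ‖Xm - P‖)
      (x 0) Xm Xm P hu2 hδ.le hx0' r2 (by simp)
    rw [← hy2] at h3
    have := norm_add_le (y2 - z') (z' - P)
    simp only [sub_add_sub_cancel] at this
    linarith only [h3, this]
  have A2 : ‖y3 - P‖ ≤ ‖x 1 - Xk‖ + ‖Xk - P‖ + 2 * δ := by
    obtain ⟨z', _, _, h3⟩ := leg (exp (δ2 * I)) (hE δ1 δ2 ρ 3) δ (‖x 1 - Xk‖ + ‖Xk - P‖)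
      (x 1) Xk Xk P hu3 hδ.le hx1' r3 (by simp)
    rw [← hy3] at h3
    have := norm_add_le (y3 - z') (z' - P)
    simp only [sub_add_sub_cancel] at this
    linarith only [h3, this]
  have hPn : ‖P‖ < μ / 4 := by
    apply hvch (mi δ1 δ2 ρ (x 0)) (mi δ1 δ2 ρ (x 1)) P
    · exact g1.trans (by linarith only [hζ, hζb, hd3])
    · rw [abs_lt]; constructor <;> linarith only [hζb, g2, g3]
    · exact g4.trans (by linarith only [hζ, hζb, hd3])
    · rw [abs_lt]; constructor <;> linarith only [hζb, g5, g6]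
    · exact hPre
    · rw [← rf2, ← rf3, ← hy2, ← hy3, norm_sub_rev P y2]
      have h1 := chain6 x k l0 m' m' hk0 hkl.le hlm.le le_rfl hmn
      rw [← hXk, ← hXm, ← hPd, sub_self, norm_zero, norm_sub_rev Xm (x 0),
        norm_sub_rev P Xm] at h1
      have h2 := norm_nonneg (x 0 - x 1)
      linarith only [hd3, he2, hlt, q1, A1, A2, h1, h2]
  have hy2n : ξ - δ ≤ ‖y2‖ := by
    rw [hy2, rf2, norm_mul, ha, one_mul]
    have h1 := Complex.abs_re_le_norm (mi δ1 δ2 ρ (x 0))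
    have h2 := le_abs_self (mi δ1 δ2 ρ (x 0)).re
    linarith only [h1, h2, g1'.1]
  have hy3n : L - ξ - δ ≤ ‖y3‖ := by
    rw [hy3, rf3, norm_mul, hb, one_mul]
    have h1 := Complex.abs_re_le_norm ((L : ℂ) - mi δ1 δ2 ρ (x 1))
    have h2 := le_abs_self ((L : ℂ) - mi δ1 δ2 ρ (x 1)).re
    have h3 : ((L : ℂ) - mi δ1 δ2 ρ (x 1)).re = L - (mi δ1 δ2 ρ (x 1)).re := by simp
    rw [h3] at h1 h2
    linarith only [h1, h2, g4'.2]
  have B1' : ξ - δ - ‖P‖ ≤ ‖y2 - P‖ := by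
    have := norm_sub_norm_le y2 P
    linarith only [hy2n, this]
  have B2' : L - ξ - δ - ‖P‖ ≤ ‖y3 - P‖ := by
    have := norm_sub_norm_le y3 P
    linarith only [hy3n, this]
  have hjn := j.isLt
  have hjj : x (Fin.ofNat n j.val) = x j := by
    congr 1
    apply Fin.ext
    simp [Fin.ofNat, Nat.mod_eq_of_lt hjn]
  have hξ0 : 0 ≤ ξ := by rw [hξ1]; linarith only [p3, hκm, hμ1, hδ, hd2]
  have hξL : ξ ≤ L := by rw [hξ2]; linarith only [p4, hκm, hμ1, hδ, hd2]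
  rcases Nat.eq_zero_or_pos j.val with hj0 | hj0
  · -- `j = 0`
    have hj0' : j = 0 := Fin.ext (by simpa using hj0)
    have h1 := affb hP δ1 δ2 ρ hyL v c κ 0 hvn le_rfl hvQ hvR (x 0)
      (by rw [abs_le]; constructor <;> linarith only [hζc, g2, g3])
      (by rw [← hsQ]; linarith only [hξ1, hκm, hμ1, hd2, g1', g1'.1])
      (by rw [← hsR, ← hL]; linarith only [hm, hξ1, hκm, hμ1, hd2, g1', g1'.2])
    rw [hj0'] at rj
    linarith only [hκc, hμ1, hδ, hd2, rj, h1]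
  by_cases hjk : j.val ≤ k
  · -- line 3
    have h1 := chain6 x j.val k l0 m' hj0 hjk hkl.le hlm.le hmn
    rw [hjj, ← hXk, ← hXm, ← hPd, norm_sub_rev Xm (x 0), norm_sub_rev P Xm] at h1
    have h2 := norm_nonneg (x 0 - x 1)
    obtain ⟨z', hz1, hz2, hz3⟩ := leg (exp (δ2 * I)) (hE δ1 δ2 ρ 3) δ
      (‖x 1 - x j‖ + ‖x j - Xk‖ + ‖Xk - P‖) (x 1) Xk (x j) P hu3 hδ.le hx1' r3 le_rfl
    rw [← hy3] at hz3
    obtain ⟨s, τ, ht1, ht2, ht3⟩ := thin (exp (γ * I)) y3 z' P (L - ξ) κ μ hb hκ hμ hμ1 hμ2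
      (by
        have h3 : 8 * μ * (L - ξ + 1) ≤ 8 * μ * (L + 1) :=
          mul_le_mul_of_nonneg_left (by linarith only [p3, hξ1, hκm, hμ1, hδ, hd2]) (by positivity)
        linarith only [hμ3, h3])
      (by
        rw [hy3, rf3, ip_self_mul _ _ hb]
        have h3 : ((L : ℂ) - mi δ1 δ2 ρ (x 1)).re = L - (mi δ1 δ2 ρ (x 1)).re := by simp
        rw [h3]; linarith only [hd2, g4', g4'.2])
      (by
        rw [hy3, rf3, ip_self_mul _ _ hb]
        have h3 : ((L : ℂ) - mi δ1 δ2 ρ (x 1)).re = L - (mi δ1 δ2 ρ (x 1)).re := by simp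
        rw [h3]; linarith only [hd2, g4', g4'.1])
      (by linarith only [hδ, hd2, hPn]) (by linarith only [hδ, hd2, he1, hlt, q1, A1, hPn, B1', h1, h2, hz3])
    have hh3 : hE δ1 δ2 ρ 3 = sR * c3 := by rw [hc3']; simp [hE]
    rw [ht1, hh3] at hz2
    obtain ⟨ht4, ht5⟩ := legb (exp (γ * I)) (exp (δ2 * I)) v sR σr κ τ s c3 hb hu3 hvn hc3
      hc3pos hsr' hσrpos ht3 hz2
    rcases hz1 with hz1 | hz1
    · rw [← ht1, hz1] at ht5
      linarith only [hcr, hκr, hκc, hμ1, hδ, hd2, rj, ht5]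
    · rw [rf3, ht1] at hz1
      have h3 : ((s : ℂ) + τ * I) = (L : ℂ) - mi δ1 δ2 ρ (x j) :=
        mul_left_cancel₀ (Complex.exp_ne_zero _) hz1
      have h4 : mi δ1 δ2 ρ (x j) = (L : ℂ) - (s + τ * I) := by rw [h3]; ring
      have h5 : (mi δ1 δ2 ρ (x j)).re = L - s := by rw [h4]; simp
      have h6 : (mi δ1 δ2 ρ (x j)).im = -τ := by rw [h4]; simp
      have h7 : 0 < κ / c3 := by positivity
      have h8 := affb hP δ1 δ2 ρ hyL v c κ (κ / c3) hvn h7.le hvQ hvR (x j)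
        (by rw [h6, abs_neg]; exact ht3)
        (by rw [← hsQ, h5]; linarith only [hξ1, hκm, ht2, h7])
        (by rw [← hsR, ← hL, h5]; linarith only [ht4])
      linarith only [hκ3, hμ1, hδ, hd2, rj, h7, h8]
  push Not at hjk
  by_cases hjm : j.val < m'
  · have h1 := hEd j.val hjk hjm
    have h2 : Fin.ofNat n j.val = j := by
      apply Fin.ext
      simp [Fin.ofNat, Nat.mod_eq_of_lt hjn]
    rw [h2] at h1
    exact hj h1
  · -- line 2
    push Not at hjm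
    have h1 := chain6 x k l0 m' j.val hk0 hkl.le hlm.le hjm hjn
    rw [hjj, ← hXk, ← hXm, ← hPd, norm_sub_rev (x j) (x 0), norm_sub_rev P Xm,
      norm_sub_rev Xm (x j)] at h1
    have h2 := norm_nonneg (x 0 - x 1)
    obtain ⟨z', hz1, hz2, hz3⟩ := leg (exp (δ1 * I)) (hE δ1 δ2 ρ 2) δ
      (‖x 0 - x j‖ + ‖x j - Xm‖ + ‖Xm - P‖) (x 0) Xm (x j) P hu2 hδ.le hx0' r2 le_rfl
    rw [← hy2] at hz3
    obtain ⟨s, τ, ht1, ht2, ht3⟩ := thin (exp (-(γ * I))) y2 z' P ξ κ μ ha hκ hμ hμ1 hμ2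
      (by
        have h3 : 8 * μ * (ξ + 1) ≤ 8 * μ * (L + 1) :=
          mul_le_mul_of_nonneg_left (by linarith only [p4, hm, hξ1, hκm, hμ1, hδ, hd2]) (by positivity)
        linarith only [hμ3, h3])
      (by
        rw [hy2, rf2, ip_self_mul _ _ ha]
        linarith only [hd2, g1', g1'.1])
      (by
        rw [hy2, rf2, ip_self_mul _ _ ha]
        linarith only [hd2, g1', g1'.2])
      (by linarith only [hδ, hd2, hPn]) (by linarith only [hδ, hd2, he1, hlt, q1, A2, hPn, B2', h1, h2, hz3])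
    have hh3 : hE δ1 δ2 ρ 2 = sQ * c2 := by rw [hc2']; simp [hE]
    rw [ht1, hh3] at hz2
    obtain ⟨ht4, ht5⟩ := legb (exp (-(γ * I))) (exp (δ1 * I)) v sQ σq κ τ s c2 ha hu2 hvn hc2
      hc2pos hsq' hσqpos ht3 hz2
    rcases hz1 with hz1 | hz1
    · rw [← ht1, hz1] at ht5
      linarith only [hcq, hκq, hκc, hμ1, hδ, hd2, rj, ht5]
    · rw [rf2, ht1] at hz1
      have h3 : ((s : ℂ) + τ * I) = mi δ1 δ2 ρ (x j) :=
        mul_left_cancel₀ (Complex.exp_ne_zero _) hz1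
      have h5 : (mi δ1 δ2 ρ (x j)).re = s := by rw [← h3]; simp
      have h6 : (mi δ1 δ2 ρ (x j)).im = τ := by rw [← h3]; simp
      have h7 : 0 < κ / c2 := by positivity
      have h8 := affb hP δ1 δ2 ρ hyL v c κ (κ / c2) hvn h7.le hvQ hvR (x j)
        (by rw [h6]; exact ht3)
        (by rw [← hsQ, h5]; linarith only [ht4])
        (by rw [← hsR, ← hL, h5]; linarith only [hm, hξ1, hκm, ht2, h7])
      linarith only [hκ2, hμ1, hδ, hd2, rj, h7, h8]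

end Pool.Agent.XQ.K4.H53
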